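import Pool.Agent.Work.MP_a0c695_csl.B_FEWB

/-! # The class with `o(d)` points on four or more lines (helper1) -/

set_option autoImplicit false

namespace Pool.CSL

open Finset Filter Topology

/-- The number of points on four or more lines is at most `ψ d`. -/
def FewF (ψ : ℕ → ℝ) (A : Finset PL) : Prop :=
  (({p | 4 ≤ mult A p} : Set PL).ncard : ℝ) ≤ ψ A.card

/-- The number of incidences between `Q` and `A` (Kővári, Sós, Turán). -/
theorem F2_inc (h1 : Stmt_INT) (A Q : Finset PL) :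
    ((∑ q ∈ Q, mult A q : ℕ) : ℝ) ≤ A.card + Q.card * Real.sqrt A.card := by
  classical
  have e1 : ∑ q ∈ Q, mult A q = ∑ ℓ ∈ A, (Q.filter fun q => On ℓ q).card := by
    unfold mult
    simp only [card_filter]
    rw [sum_comm]
  have e3 : ∑ ℓ ∈ A, ((Q.filter fun q => On ℓ q).offDiag).card ≤ (Q.offDiag).card := by
    rw [← card_biUnion]
    · refine card_le_card fun x hx => ?_
      obtain ⟨ℓ, _, hx⟩ := mem_biUnion.mp hx
      rw [mem_offDiag, mem_filter, mem_filter] at hx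
      exact mem_offDiag.mpr ⟨hx.1.1, hx.2.1.1, hx.2.2⟩
    · intro ℓ _ ℓ' _ hne
      rw [Function.onFun, disjoint_left]
      intro x hx hx'
      rw [mem_offDiag, mem_filter, mem_filter] at hx hx'
      obtain ⟨p, _, _, hp⟩ := h1 ℓ ℓ' hne
      exact hx.2.2 ((hp x.1 hx.1.2 hx'.1.2).trans (hp x.2 hx.2.1.2 hx'.2.1.2).symm)
  have e4 : (Q.offDiag).card ≤ Q.card * Q.card := by
    rw [offDiag_card]; exact Nat.sub_le _ _
  have e5 : ∑ ℓ ∈ A, (Q.filter fun q => On ℓ q).card ^ 2 ≤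
      Q.card * Q.card + ∑ q ∈ Q, mult A q := by
    rw [e1]
    have : ∀ ℓ ∈ A, (Q.filter fun q => On ℓ q).card ^ 2 =
        ((Q.filter fun q => On ℓ q).offDiag).card + (Q.filter fun q => On ℓ q).card := by
      intro ℓ _
      rw [offDiag_card, sq]
      exact (Nat.sub_add_cancel (Nat.le_mul_self _)).symm
    rw [sum_congr rfl this, sum_add_distrib]
    exact Nat.add_le_add_right (e3.trans e4) _
  have e6 : (∑ q ∈ Q, mult A q) ^ 2 ≤ A.card * (Q.card * Q.card + ∑ q ∈ Q, mult A q) := by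
    calc (∑ q ∈ Q, mult A q) ^ 2 = (∑ ℓ ∈ A, (Q.filter fun q => On ℓ q).card) ^ 2 := by rw [e1]
      _ ≤ A.card * ∑ ℓ ∈ A, (Q.filter fun q => On ℓ q).card ^ 2 := sq_sum_le_card_mul_sum_sq
      _ ≤ _ := Nat.mul_le_mul_left _ e5
  set I : ℝ := ((∑ q ∈ Q, mult A q : ℕ) : ℝ) with hI
  have e7 : I ^ 2 ≤ A.card * ((Q.card : ℝ) * Q.card + I) := by
    rw [hI]; exact_mod_cast e6
  set d : ℝ := (A.card : ℝ) with hd
  have hd0 : 0 ≤ d := Nat.cast_nonneg _
  set s := Real.sqrt d with hs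
  have hs0 : 0 ≤ s := Real.sqrt_nonneg _
  have hss : s * s = d := Real.mul_self_sqrt hd0
  have hQ0 : (0 : ℝ) ≤ Q.card := Nat.cast_nonneg _
  by_contra hcon
  push Not at hcon
  have h1 : 0 ≤ (Q.card : ℝ) * s := mul_nonneg hQ0 hs0
  have h2 : (Q.card : ℝ) * s < I := by linarith
  have h3 : ((Q.card : ℝ) * s) * ((Q.card : ℝ) * s) ≤ ((Q.card : ℝ) * s) * I :=
    mul_le_mul_of_nonneg_left h2.le h1
  have hIpos : 0 < I := lt_of_le_of_lt (by positivity) hcon
  have h4 : (d + (Q.card : ℝ) * s) * I < I * I := mul_lt_mul_of_pos_right hcon hIpos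
  have h5 : ((Q.card : ℝ) * s) * ((Q.card : ℝ) * s) = d * ((Q.card : ℝ) * Q.card) := by
    rw [← hss]; ring
  nlinarith

theorem F2_bound (h1 : Stmt_INT) (h2 : Stmt_FS) (ψ : ℕ → ℝ) (A : Finset PL) (hF : FewF ψ A) :
    2 * c1 A - 5 * c2 A ≤ 3 + A.card + ψ A.card * Real.sqrt A.card := by
  classical
  obtain ⟨Z, hZ, hg, -, -⟩ := h2 A
  have hc1 : c1 A = 9 - 5 * (A.card : ℝ) + ∑ p ∈ Z, (3 * (mult A p : ℝ) - 4) := by
    unfold c1; rw [hg fun m => 3 * (m : ℝ) - 4]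
  have hc2 : c2 A = 3 - 2 * (A.card : ℝ) + ∑ p ∈ Z, ((mult A p : ℝ) - 1) := by
    unfold c2; rw [hg fun m => (m : ℝ) - 1]
  have e : 2 * c1 A - 5 * c2 A = 3 + ∑ p ∈ Z, ((mult A p : ℝ) - 3) := by
    rw [hc1, hc2]
    have : ∑ p ∈ Z, ((mult A p : ℝ) - 3) =
        2 * ∑ p ∈ Z, (3 * (mult A p : ℝ) - 4) - 5 * ∑ p ∈ Z, ((mult A p : ℝ) - 1) := by
      rw [mul_sum, mul_sum, ← sum_sub_distrib]
      exact sum_congr rfl fun p _ => by ring
    rw [this]; ring
  set Q := Z.filter fun p => 4 ≤ mult A p with hQ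
  have hQs : ({p | 4 ≤ mult A p} : Set PL) = ↑Q := by
    ext p
    simp only [hQ, coe_filter, Set.mem_setOf_eq, hZ]
    exact ⟨fun h => ⟨by omega, h⟩, fun h => h.2⟩
  have hQc : (Q.card : ℝ) ≤ ψ A.card := by
    have := hF
    unfold FewF at this
    rw [hQs, Set.ncard_coe_finset] at this
    exact this
  have hs : ∑ p ∈ Z, ((mult A p : ℝ) - 3) ≤ ∑ p ∈ Q, (mult A p : ℝ) := by
    rw [hQ, sum_filter]
    refine sum_le_sum fun p _ => ?_
    split_ifs with h
    · linarith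
    · have : (mult A p : ℝ) ≤ 3 := by exact_mod_cast (by omega : mult A p ≤ 3)
      linarith
  have hi := F2_inc h1 A Q
  rw [Nat.cast_sum] at hi
  have hm : (Q.card : ℝ) * Real.sqrt A.card ≤ ψ A.card * Real.sqrt A.card :=
    mul_le_mul_of_nonneg_right hQc (Real.sqrt_nonneg _)
  rw [e]
  linarith

theorem F2_big (h1 : Stmt_CC) (h2 : Stmt_FS) (A : Finset PL) (hA : Adm A) (h16 : 16 ≤ A.card)
    (hH : ¬ Half A) : (A.card : ℝ) * Real.sqrt A.card / 8 ≤ c2 A := by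
  obtain ⟨Z, hZ, hg, -, hZ4⟩ := h2 A
  have hc2 : c2 A = 3 - 2 * (A.card : ℝ) + ∑ p ∈ Z, ((mult A p : ℝ) - 1) := by
    unfold c2; rw [hg fun m => (m : ℝ) - 1]
  have hpos : 0 < ∑ p ∈ Z, mult A p * (mult A p - 1) := by
    rw [hZ4]
    apply Nat.mul_pos <;> omega
  have hne : Z.Nonempty := by
    rw [Finset.nonempty_iff_ne_empty]
    rintro rfl
    simp at hpos
  obtain ⟨o, ho, hmax⟩ := Z.exists_max_image (mult A) hne
  have hn2 := (hZ o).1 ho
  have hpa := hA.2 o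
  obtain ⟨b, hb⟩ : ∃ b, A.card = mult A o + b := ⟨A.card - mult A o, by omega⟩
  have hlt : 2 * mult A o < A.card := by
    by_contra h
    exact hH ⟨o, not_lt.mp h⟩
  set d : ℝ := (A.card : ℝ) with hd
  set s := Real.sqrt d with hs
  have hd16 : (16 : ℝ) ≤ d := by rw [hd]; exact_mod_cast h16
  have hss : s * s = d := Real.mul_self_sqrt (by linarith)
  have hs4 : 4 ≤ s := by
    rw [hs]
    apply Real.le_sqrt_of_sq_le
    linarith
  set n : ℝ := (mult A o : ℝ) with hn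
  have hn2r : (2 : ℝ) ≤ n := by rw [hn]; exact_mod_cast hn2
  have hbr : d = n + b := by rw [hd, hn, hb]; push_cast; ring
  have hltr : 2 * n < d := by rw [hd, hn]; exact_mod_cast hlt
  rcases le_or_gt s n with hsn | hsn
  · obtain ⟨g1, -, -, -⟩ := h1 A o (mult A o) b rfl hb hn2
    have h3 : s / 2 ≤ n - 2 := by linarith
    have h4 : d / 4 ≤ (b : ℝ) - 1 := by linarith
    have h5 : (s / 2) * (d / 4) ≤ (n - 2) * (b - 1) :=
      mul_le_mul h3 h4 (by linarith) (by linarith)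
    calc d * s / 8 = (s / 2) * (d / 4) := by ring
      _ ≤ _ := h5
      _ ≤ c2 A := g1
  · have h3 : ∑ p ∈ Z, ((mult A p : ℝ) * ((mult A p : ℝ) - 1)) = d * (d - 1) := by
      have : ((∑ p ∈ Z, mult A p * (mult A p - 1) : ℕ) : ℝ) =
          ((A.card * (A.card - 1) : ℕ) : ℝ) := by rw [hZ4]
      rw [Nat.cast_sum, Nat.cast_mul, Nat.cast_sub (by omega)] at this
      push_cast at this
      rw [← this]
      refine sum_congr rfl fun p hp => ?_
      have hp2 := (hZ p).1 hp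
      rw [Nat.cast_sub (by omega), Nat.cast_one]
    have h4 : ∑ p ∈ Z, ((mult A p : ℝ) * ((mult A p : ℝ) - 1)) ≤
        s * ∑ p ∈ Z, ((mult A p : ℝ) - 1) := by
      rw [mul_sum]
      refine sum_le_sum fun p hp => ?_
      have hp2 := (hZ p).1 hp
      have hp2r : (2 : ℝ) ≤ mult A p := by exact_mod_cast hp2
      have hpm : (mult A p : ℝ) ≤ n := by rw [hn]; exact_mod_cast hmax p hp
      exact mul_le_mul_of_nonneg_right (by linarith) (by linarith)
    rw [h3] at h4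
    have h5 : s * (d - 1) ≤ ∑ p ∈ Z, ((mult A p : ℝ) - 1) := by
      have h6 : s * (s * (d - 1)) ≤ s * ∑ p ∈ Z, ((mult A p : ℝ) - 1) := by
        calc s * (s * (d - 1)) = d * (d - 1) := by rw [← mul_assoc, hss]
          _ ≤ _ := h4
      exact le_of_mul_le_mul_left h6 (by linarith)
    rw [hc2]
    have h7 : 4 * d ≤ s * d := mul_le_mul_of_nonneg_right hs4 (by linarith)
    nlinarith

theorem F2_up (hI : Stmt_INT) (hF : Stmt_FS) (hC : Stmt_CC) (hH : Stmt_HALF) (ψ : ℕ → ℝ)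
    (hlim : Tendsto (fun d : ℕ => ψ d / (d : ℝ)) atTop (𝓝 0)) :
    ∀ ε : ℝ, 0 < ε → ∃ D : ℕ, ∀ A : Finset PL, Adm A → D ≤ A.card → (FewF ψ A ∨ Half A) →
      slope A ≤ 5 / 2 + ε := by
  intro ε hε
  have h1 : ∀ᶠ d : ℕ in atTop, ψ d / (d : ℝ) < ε / 16 :=
    (tendsto_order.mp hlim).2 _ (by positivity)
  obtain ⟨D₁, hD₁⟩ := eventually_atTop.mp h1
  obtain ⟨D₂, hD₂⟩ := exists_nat_ge ((64 / ε) ^ 2)
  refine ⟨max (max D₁ D₂) 16, fun A hA hD hc => ?_⟩
  rcases hc with hc | hc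
  swap
  · exact (hH A hA hc).trans (by linarith)
  by_cases hHalf : Half A
  · exact (hH A hA hHalf).trans (by linarith)
  have hd1 : D₁ ≤ A.card := ((le_max_left _ _).trans (le_max_left _ _)).trans hD
  have hd2 : D₂ ≤ A.card := ((le_max_right _ _).trans (le_max_left _ _)).trans hD
  have hd3 : 16 ≤ A.card := (le_max_right _ _).trans hD
  have hb := F2_bound hI hF ψ A hc
  have hbig := F2_big hC hF A hA hd3 hHalf
  have hφd := hD₁ A.card hd1
  set d : ℝ := (A.card : ℝ) with hd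
  set s := Real.sqrt d with hs
  have hd16 : (16 : ℝ) ≤ d := by rw [hd]; exact_mod_cast hd3
  have hds : 0 < d * s := mul_pos (by linarith) (Real.sqrt_pos.mpr (by linarith))
  rw [div_lt_iff₀ (by linarith)] at hφd
  have hse : 64 / ε ≤ s := by
    rw [hs]
    apply Real.le_sqrt_of_sq_le
    have : (D₂ : ℝ) ≤ d := by rw [hd]; exact_mod_cast hd2
    linarith
  have hse' : 64 ≤ ε * s := by
    rw [div_le_iff₀ hε] at hse
    linarith
  have hc2 : 0 < c2 A := lt_of_lt_of_le (by positivity) hbig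
  unfold slope
  rw [div_le_iff₀ hc2]
  have h6 : ψ A.card * s ≤ (ε / 16 * d) * s :=
    mul_le_mul_of_nonneg_right hφd.le (Real.sqrt_nonneg _)
  have h3 : (3 : ℝ) + d ≤ 2 * d := by linarith
  have h4 : 64 * d ≤ ε * (d * s) := by
    calc 64 * d ≤ (ε * s) * d := mul_le_mul_of_nonneg_right hse' (by linarith)
      _ = ε * (d * s) := by ring
  have h5 : ε * (d * s / 8) ≤ ε * c2 A := mul_le_mul_of_nonneg_left hbig hε.le
  nlinarith

/-- The accumulation points of the slopes for the class. -/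
theorem F2_main (hI : Stmt_INT) (hF : Stmt_FS) (hC : Stmt_CC) (hH : Stmt_HALF) (hL : Stmt_LO)
    (hA : Stmt_ACC) (hR : Stmt_RAT) (ψ : ℕ → ℝ) (hψ : ∀ d, 0 ≤ ψ d)
    (hlim : Tendsto (fun d : ℕ => ψ d / (d : ℝ)) atTop (𝓝 0)) (x : ℝ) :
    AccPt x (𝓟 {r : ℝ | ∃ A : Finset PL, (Adm A ∧ (FewF ψ A ∨ Half A)) ∧ r = slope A}) ↔
      x ∈ Set.Icc (2 : ℝ) (5 / 2) := by
  constructor
  · intro h
    refine ⟨(hA _ 2).2 (fun ε he => ?_) x h, (hA _ (5 / 2)).1 (fun ε he => ?_) x h⟩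
    · obtain ⟨D, hD⟩ := hL ε he
      exact ⟨D, fun A hA hc => hD A hA.1 hc⟩
    · obtain ⟨D, hD⟩ := F2_up hI hF hC hH ψ hlim ε he
      exact ⟨D, fun A hA hc => hD A hA.1 hc hA.2⟩
  · intro h
    rw [accPt_iff_nhds]
    intro U hU
    obtain ⟨δ, hδ, hδU⟩ := Metric.mem_nhds_iff.mp hU
    obtain ⟨hx2, hx5⟩ := h
    have hq : ∃ y : ℚ, (2 : ℝ) ≤ y ∧ (y : ℝ) < 5 / 2 ∧ |(y : ℝ) - x| < δ ∧ (y : ℝ) ≠ x := by
      rcases lt_or_ge x (9 / 4) with hlt | hge
      · obtain ⟨y, hy1, hy2⟩ := exists_rat_btwn (show x < min (x + δ) (5 / 2) by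
          rw [lt_min_iff]; constructor <;> linarith)
        rw [lt_min_iff] at hy2
        refine ⟨y, by linarith, hy2.2, ?_, ne_of_gt hy1⟩
        rw [abs_lt]; constructor <;> linarith [hy2.1]
      · obtain ⟨y, hy1, hy2⟩ := exists_rat_btwn (show max (x - δ) 2 < x by
          rw [max_lt_iff]; constructor <;> linarith)
        rw [max_lt_iff] at hy1
        refine ⟨y, hy1.2.le, by linarith, ?_, ne_of_lt hy2⟩
        rw [abs_lt]; constructor <;> linarith [hy1.1]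
    obtain ⟨y, hy1, hy2, hy3, hy4⟩ := hq
    have hy1' : (2 : ℚ) ≤ y := by exact_mod_cast hy1
    have hy2' : y < 5 / 2 := by
      have : (y : ℝ) < ((5 / 2 : ℚ) : ℝ) := by push_cast; exact hy2
      exact_mod_cast this
    obtain ⟨A, -, hA1, hA2, hA3⟩ := hR y hy1' hy2' 0
    refine ⟨y, ⟨hδU ?_, ?_⟩, hy4⟩
    · rw [Metric.mem_ball, Real.dist_eq]; exact hy3
    · refine ⟨A, ⟨hA1, Or.inl ?_⟩, hA3.symm⟩
      unfold FewF
      have e : ({p | 4 ≤ mult A p} : Set PL) = ∅ := by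
        ext p
        simp only [Set.mem_setOf_eq, Set.mem_empty_iff_false, iff_false]
        have := hA2 p
        omega
      rw [e, Set.ncard_empty]
      simpa using hψ A.card

end Pool.CSL
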