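import Pool.Agent.Work.MP_a0c695_csl.Interface

/-! # ACC: accumulation points (MP_a0c695, helper70) -/

set_option autoImplicit false

namespace Pool.CSL

open Finset Filter Topology

theorem ACC_inf {S U : Set ℝ} {x : ℝ} (hx : AccPt x (𝓟 S)) (hU : U ∈ 𝓝 x) :
    (U ∩ S).Infinite := by
  have h := hx.nhds_inter hU
  exact Set.Infinite.of_accPt h

theorem p_ACC (h1 : Stmt_FIN) : Stmt_ACC := by
  intro Cl x₀
  constructor
  · intro hC x hx
    by_contra hlt
    push Not at hlt
    obtain ⟨D, hD⟩ := hC ((x - x₀) / 2) (by linarith)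
    refine ACC_inf hx (Ioi_mem_nhds (show x₀ + (x - x₀) / 2 < x by linarith))
      ((h1 D).subset ?_)
    rintro r ⟨hr1, A, hA, rfl⟩
    refine ⟨A, ?_, rfl⟩
    by_contra hc
    push Not at hc
    have := hD A hA hc
    have h2 : x₀ + (x - x₀) / 2 < slope A := hr1
    linarith
  · intro hC x hx
    by_contra hlt
    push Not at hlt
    obtain ⟨D, hD⟩ := hC ((x₀ - x) / 2) (by linarith)
    refine ACC_inf hx (Iio_mem_nhds (show x < x₀ - (x₀ - x) / 2 by linarith))
      ((h1 D).subset ?_)
    rintro r ⟨hr1, A, hA, rfl⟩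
    refine ⟨A, ?_, rfl⟩
    by_contra hc
    push Not at hc
    have := hD A hA hc
    have h2 : slope A < x₀ - (x₀ - x) / 2 := hr1
    linarith

end Pool.CSL
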