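import Pool.Agent.Work.MP_a0c695_csl.Interface

/-! # Block BIG: the second Chern number grows faster than the number of lines (helper38) -/

set_option autoImplicit false

namespace Pool.CSL

open Finset Filter Topology

theorem BIG_case1 (C n b d : ℝ) (hC : 1 ≤ C) (hn : 4 * C ≤ n - 2) (hd : 3 ≤ d)
    (hb : d + 1 ≤ 2 * b) : C * d ≤ (n - 2) * (b - 1) := by
  have h1 : d / 4 ≤ b - 1 := by linarith
  have h2 : 4 * C * (d / 4) ≤ (n - 2) * (b - 1) :=
    mul_le_mul hn h1 (by linarith) (by linarith)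
  linarith

theorem BIG_case2 (C n d S : ℝ) (hC : 1 ≤ C) (hn2 : 2 ≤ n) (hn : n - 2 < 4 * C)
    (hd : (C + 2) * (4 * C + 2) + 1 ≤ d) (hS : d * (d - 1) ≤ n * S) :
    C * d ≤ 3 - 2 * d + S := by
  have hd0 : 0 < d := by nlinarith
  by_contra hc
  push Not at hc
  have hS1 : S < (C + 2) * d := by linarith
  have h1 : n * S < n * ((C + 2) * d) := by
    apply mul_lt_mul_of_pos_left hS1
    linarith
  have h2 : n * ((C + 2) * d) ≤ (4 * C + 2) * ((C + 2) * d) := by
    apply mul_le_mul_of_nonneg_right (by linarith)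
    apply mul_nonneg <;> linarith
  have h3 : (4 * C + 2) * ((C + 2) * d) ≤ (d - 1) * d := by
    have : (4 * C + 2) * ((C + 2) * d) = ((C + 2) * (4 * C + 2)) * d := by ring
    rw [this]
    apply mul_le_mul_of_nonneg_right (by linarith) hd0.le
  linarith

theorem BIG_main (hFS : Stmt_FS) (hCC : Stmt_CC) (C : ℝ) (hC : 1 ≤ C) (A : Finset PL)
    (hA : Adm A) (hD : (C + 2) * (4 * C + 2) + 1 ≤ (A.card : ℝ)) (hH : ¬ Half A) :
    C * A.card ≤ c2 A := by
  obtain ⟨Z, hZ, hg, -, hsum⟩ := hFS A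
  have hd3 : 3 ≤ A.card := hA.1
  have hne : Z.Nonempty := by
    rw [Finset.nonempty_iff_ne_empty]
    intro h
    rw [h, Finset.sum_empty] at hsum
    have h1 : 0 < A.card * (A.card - 1) := Nat.mul_pos (by omega) (by omega)
    omega
  obtain ⟨o, ho, hmax⟩ := Finset.exists_max_image Z (fun p => mult A p) hne
  have hn2 : 2 ≤ mult A o := (hZ o).mp ho
  have had : mult A o + 2 ≤ A.card := hA.2 o
  have hhalf : 2 * mult A o < A.card := by
    by_contra hc
    exact hH ⟨o, not_lt.mp hc⟩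
  obtain ⟨b, hb⟩ : ∃ b, A.card = mult A o + b := ⟨A.card - mult A o, by omega⟩
  have hbR : ((A.card : ℕ) : ℝ) = (mult A o : ℝ) + (b : ℝ) := by
    rw [hb]
    push_cast
    ring
  have hdR : (3 : ℝ) ≤ (A.card : ℝ) := by exact_mod_cast hd3
  by_cases hn : 4 * C ≤ (mult A o : ℝ) - 2
  · have h1 := (hCC A o (mult A o) b rfl hb hn2).1
    refine le_trans (BIG_case1 C (mult A o : ℝ) (b : ℝ) (A.card : ℝ) hC hn hdR ?_) h1
    have h2 : A.card + 1 ≤ 2 * b := by omega
    exact_mod_cast h2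
  · push Not at hn
    have h1 : c2 A = 3 - 2 * (A.card : ℝ) + ∑ p ∈ Z, ((mult A p : ℝ) - 1) := by
      unfold c2
      rw [hg (fun m => (m : ℝ) - 1)]
    rw [h1]
    refine BIG_case2 C (mult A o : ℝ) (A.card : ℝ) _ hC (by exact_mod_cast hn2) hn hD ?_
    have h2 : (A.card : ℝ) * ((A.card : ℝ) - 1) = ∑ p ∈ Z, (mult A p : ℝ) * ((mult A p : ℝ) - 1) := by
      have h3 : ((A.card * (A.card - 1) : ℕ) : ℝ) = (A.card : ℝ) * ((A.card : ℝ) - 1) := by
        rw [Nat.cast_mul, Nat.cast_sub (by omega)]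
        simp
      rw [← h3, ← hsum, Nat.cast_sum]
      apply Finset.sum_congr rfl
      intro p hp
      have h4 : 2 ≤ mult A p := (hZ p).mp hp
      rw [Nat.cast_mul, Nat.cast_sub (by omega)]
      simp
    rw [h2, Finset.mul_sum]
    apply Finset.sum_le_sum
    intro p hp
    have h4 : 2 ≤ mult A p := (hZ p).mp hp
    have h5 : mult A p ≤ mult A o := hmax p hp
    have h4R : (2 : ℝ) ≤ (mult A p : ℝ) := by exact_mod_cast h4
    have h5R : (mult A p : ℝ) ≤ (mult A o : ℝ) := by exact_mod_cast h5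
    apply mul_le_mul_of_nonneg_right h5R
    linarith

theorem p_BIG (hFS : Stmt_FS) (hCC : Stmt_CC) : Stmt_BIG := by
  intro C
  refine ⟨⌈(max C 1 + 2) * (4 * max C 1 + 2) + 1⌉₊, ?_⟩
  intro A hA hD hH
  have h1 : (max C 1 + 2) * (4 * max C 1 + 2) + 1 ≤ (A.card : ℝ) :=
    le_trans (Nat.le_ceil _) (by exact_mod_cast hD)
  have h2 := BIG_main hFS hCC (max C 1) (le_max_right _ _) A hA h1 hH
  refine le_trans ?_ h2
  apply mul_le_mul_of_nonneg_right (le_max_left _ _)
  exact Nat.cast_nonneg _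

end Pool.CSL
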