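import Pool.Agent.Work.MP_a0c695_csl.Interface

/-! # Block CC (helper87): the Chern numbers and the pencil through a point -/

set_option autoImplicit false

namespace Pool.CSL

open Finset Filter Topology

theorem p_CC (h1 : Stmt_FS) (h2 : Stmt_PEN) : Stmt_CC := by
  classical
  intro A o n b hn hd hn2
  obtain ⟨Z, hZ, hsum, -, -⟩ := h1 A
  obtain ⟨q1, q2, q3⟩ := h2 A Z o n b hZ hn hd hn2
  have hc1 : c1 A = 9 - 5 * (A.card : ℝ) + ∑ p ∈ Z, (3 * (mult A p : ℝ) - 4) := by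
    unfold c1
    rw [hsum (fun m : ℕ => 3 * (m : ℝ) - 4)]
  have hc2 : c2 A = 3 - 2 * (A.card : ℝ) + ∑ p ∈ Z, ((mult A p : ℝ) - 1) := by
    unfold c2
    rw [hsum (fun m : ℕ => (m : ℝ) - 1)]
  have hdR : (A.card : ℝ) = n + b := by
    rw [hd]
    push_cast
    ring
  have e1 : ∑ p ∈ Z, (3 * (mult A p : ℝ) - 4) = 3 * ∑ p ∈ Z, ((mult A p : ℝ) - 1) - Z.card := by
    rw [Finset.mul_sum, Finset.card_eq_sum_ones]
    push_cast
    rw [← Finset.sum_sub_distrib]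
    apply Finset.sum_congr rfl
    intro p _
    ring
  have e3 : ∑ p ∈ Z, ((mult A p : ℝ) - 3) = ∑ p ∈ Z, ((mult A p : ℝ) - 1) - 2 * Z.card := by
    rw [Finset.card_eq_sum_ones]
    push_cast
    rw [Finset.mul_sum, ← Finset.sum_sub_distrib]
    apply Finset.sum_congr rfl
    intro p _
    ring
  have e2 : ∑ p ∈ Z, ((mult A p : ℝ) - 2) = ∑ p ∈ Z, ((mult A p : ℝ) - 1) - Z.card := by
    rw [Finset.card_eq_sum_ones]
    push_cast
    rw [← Finset.sum_sub_distrib]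
    apply Finset.sum_congr rfl
    intro p _
    ring
  have hoZ : o ∈ Z := by
    rw [hZ, hn]
    exact hn2
  have q4 : (n : ℝ) - 2 ≤ ∑ p ∈ Z, ((mult A p : ℝ) - 2) := by
    have h3 : (mult A o : ℝ) - 2 ≤ ∑ p ∈ Z, ((mult A p : ℝ) - 2) := by
      apply Finset.single_le_sum (f := fun p => (mult A p : ℝ) - 2) _ hoZ
      intro p hp
      have : (2 : ℝ) ≤ mult A p := by exact_mod_cast (hZ p).1 hp
      linarith
    rw [hn] at h3
    exact h3
  rw [e3] at q2 q3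
  rw [e2] at q4
  rw [hc1, hc2, e1, hdR]
  refine ⟨?_, ?_, ?_, ?_⟩
  · nlinarith
  · nlinarith
  · nlinarith
  · linarith

end Pool.CSL
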