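import Pool.Agent.Work.MP_a0c695_csl.Interface
set_option autoImplicit false

/-! Block CTT: arrangements with only double and triple points (MP_a0c695, helper65). -/

namespace Pool.CSL

open Finset Filter Topology

theorem p_CTT (h1 : Stmt_FS) : Stmt_CTT := by
  classical
  intro A hA
  obtain ⟨Z, hZ, hs, -, hc⟩ := h1 A
  have ht : (({p | mult A p = 3} : Set PL).ncard : ℝ) = ∑ p ∈ Z, (if mult A p = 3 then (1 : ℝ) else 0) := by
    have hset : ({p | mult A p = 3} : Set PL) = ((Z.filter (fun p => mult A p = 3) : Finset PL) : Set PL) := by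
      ext p
      simp only [Set.mem_ofPred_eq, coe_filter]
      constructor
      · intro hp
        exact ⟨(hZ p).2 (by omega), hp⟩
      · intro hp
        exact hp.2
    rw [hset, Set.ncard_coe_finset, Finset.sum_boole]
  have hd : ((A.card : ℝ)) * ((A.card : ℝ) - 1) = ∑ p ∈ Z, ((mult A p * (mult A p - 1) : ℕ) : ℝ) := by
    rw [← Nat.cast_sum, hc]
    rcases Nat.eq_zero_or_pos A.card with h0 | h0
    · rw [h0]; simp
    · rw [Nat.cast_mul, Nat.cast_sub h0]
      simp
  have hm : ∀ p ∈ Z, mult A p = 2 ∨ mult A p = 3 := by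
    intro p hp
    have := (hZ p).1 hp
    have := hA p
    omega
  constructor
  · unfold c1
    rw [hs (fun m => 3 * (m : ℝ) - 4)]
    have e : ∑ p ∈ Z, (3 * (mult A p : ℝ) - 4) = ∑ p ∈ Z, (((mult A p * (mult A p - 1) : ℕ) : ℝ) -
        (if mult A p = 3 then (1 : ℝ) else 0)) := by
      refine sum_congr rfl (fun p hp => ?_)
      rcases hm p hp with h | h
      · rw [h]; norm_num
      · rw [h]; norm_num
    have e' : ∑ p ∈ Z, (((mult A p * (mult A p - 1) : ℕ) : ℝ) - (if mult A p = 3 then (1 : ℝ) else 0)) =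
        (A.card : ℝ) * ((A.card : ℝ) - 1) - ({p | mult A p = 3} : Set PL).ncard := by
      rw [sum_sub_distrib, ← hd, ← ht]
    rw [e'] at e
    have e2 : ∑ p ∈ Z, (fun m : ℕ => 3 * (m : ℝ) - 4) (mult A p) = ∑ p ∈ Z, (3 * (mult A p : ℝ) - 4) := rfl
    rw [e2, e]
    ring
  · unfold c2
    rw [hs (fun m => (m : ℝ) - 1)]
    have e : ∑ p ∈ Z, ((mult A p : ℝ) - 1) = ∑ p ∈ Z, (((mult A p * (mult A p - 1) : ℕ) : ℝ) / 2 -
        (if mult A p = 3 then (1 : ℝ) else 0)) := by
      refine sum_congr rfl (fun p hp => ?_)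
      rcases hm p hp with h | h
      · rw [h]; norm_num
      · rw [h]; norm_num
    have e' : ∑ p ∈ Z, (((mult A p * (mult A p - 1) : ℕ) : ℝ) / 2 - (if mult A p = 3 then (1 : ℝ) else 0)) =
        (A.card : ℝ) * ((A.card : ℝ) - 1) / 2 - ({p | mult A p = 3} : Set PL).ncard := by
      rw [sum_sub_distrib, ← sum_div, ← hd, ← ht]
    rw [e'] at e
    have e2 : ∑ p ∈ Z, (fun m : ℕ => (m : ℝ) - 1) (mult A p) = ∑ p ∈ Z, ((mult A p : ℝ) - 1) := rfl
    rw [e2, e]
    ring

end Pool.CSL
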