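import Pool.Agent.Work.MP_a0c695_csl.Interface

set_option autoImplicit false

namespace Pool.CSL

open Finset

/-- The number of incidences between `Q` and `A`. -/
theorem FEWB_inc (h1 : Stmt_INT) (A Q : Finset PL) :
    ∑ q ∈ Q, mult A q ≤ A.card + Q.card * Q.card := by
  classical
  have e1 : ∑ q ∈ Q, mult A q = ∑ ℓ ∈ A, (Q.filter fun q => On ℓ q).card := by
    unfold mult
    simp only [card_filter]
    rw [sum_comm]
  have e2 : ∀ ℓ ∈ A, (Q.filter fun q => On ℓ q).card ≤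
      1 + ((Q.filter fun q => On ℓ q).offDiag).card := by
    intro ℓ _
    rw [offDiag_card]
    set r := (Q.filter fun q => On ℓ q).card
    rcases Nat.lt_or_ge r 2 with h | h
    · omega
    · have : 2 * r ≤ r * r := Nat.mul_le_mul_right r h
      omega
  have e3 : ∑ ℓ ∈ A, ((Q.filter fun q => On ℓ q).offDiag).card ≤ (Q.offDiag).card := by
    rw [← card_biUnion]
    · refine card_le_card fun x hx => ?_
      obtain ⟨ℓ, _, hx⟩ := mem_biUnion.mp hx
      rw [mem_offDiag, mem_filter, mem_filter] at hx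
      exact mem_offDiag.mpr ⟨hx.1.1, hx.2.1.1, hx.2.2⟩
    · intro ℓ _ ℓ' _ hne
      rw [Function.onFun, disjoint_left]
      intro x hx hx'
      rw [mem_offDiag, mem_filter, mem_filter] at hx hx'
      obtain ⟨p, _, _, hp⟩ := h1 ℓ ℓ' hne
      exact hx.2.2 ((hp x.1 hx.1.2 hx'.1.2).trans (hp x.2 hx.2.1.2 hx'.2.1.2).symm)
  have e4 : (Q.offDiag).card ≤ Q.card * Q.card := by
    rw [offDiag_card]; exact Nat.sub_le _ _
  rw [e1]
  calc ∑ ℓ ∈ A, (Q.filter fun q => On ℓ q).card ≤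
        ∑ ℓ ∈ A, (1 + ((Q.filter fun q => On ℓ q).offDiag).card) := sum_le_sum e2
    _ = A.card + ∑ ℓ ∈ A, ((Q.filter fun q => On ℓ q).offDiag).card := by
        rw [sum_add_distrib, sum_const, smul_eq_mul, mul_one]
    _ ≤ _ := Nat.add_le_add_left (e3.trans e4) _

theorem p_FEWB (h1 : Stmt_INT) (h2 : Stmt_FS) : Stmt_FEWB := by
  classical
  intro K A hF
  obtain ⟨Z, hZ, hg, -, -⟩ := h2 A
  have hc1 : c1 A = 9 - 5 * (A.card : ℝ) + ∑ p ∈ Z, (3 * (mult A p : ℝ) - 4) := by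
    unfold c1; rw [hg fun m => 3 * (m : ℝ) - 4]
  have hc2 : c2 A = 3 - 2 * (A.card : ℝ) + ∑ p ∈ Z, ((mult A p : ℝ) - 1) := by
    unfold c2; rw [hg fun m => (m : ℝ) - 1]
  have e : 2 * c1 A - 5 * c2 A = 3 + ∑ p ∈ Z, ((mult A p : ℝ) - 3) := by
    rw [hc1, hc2]
    have : ∑ p ∈ Z, ((mult A p : ℝ) - 3) =
        2 * ∑ p ∈ Z, (3 * (mult A p : ℝ) - 4) - 5 * ∑ p ∈ Z, ((mult A p : ℝ) - 1) := by
      rw [mul_sum, mul_sum, ← sum_sub_distrib]
      exact sum_congr rfl fun p _ => by ring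
    rw [this]; ring
  set Q := Z.filter fun p => 4 ≤ mult A p with hQ
  have hQs : ({p | 4 ≤ mult A p} : Set PL) = ↑Q := by
    ext p
    simp only [hQ, coe_filter, Set.mem_setOf_eq, hZ]
    exact ⟨fun h => ⟨by omega, h⟩, fun h => h.2⟩
  have hQc : Q.card ^ 2 ≤ K * A.card := by
    have := hF
    unfold Few at this
    rw [hQs, Set.ncard_coe_finset] at this
    exact this
  have hs : ∑ p ∈ Z, ((mult A p : ℝ) - 3) ≤ ∑ p ∈ Q, (mult A p : ℝ) := by
    rw [hQ, sum_filter]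
    refine sum_le_sum fun p _ => ?_
    split_ifs with h
    · linarith
    · have : (mult A p : ℝ) ≤ 3 := by exact_mod_cast (by omega : mult A p ≤ 3)
      linarith
  have hi := FEWB_inc h1 A Q
  have hi' : (∑ p ∈ Q, (mult A p : ℝ)) ≤ A.card + (K : ℝ) * A.card := by
    have : ∑ q ∈ Q, mult A q ≤ A.card + K * A.card := by
      refine hi.trans (Nat.add_le_add_left ?_ _)
      rw [← sq]; exact hQc
    exact_mod_cast this
  rw [e]
  linarith

end Pool.CSL
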