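import Pool.Agent.Work.MP_a0c695_csl.Interface

/-! Block FS (MP_a0c695, note 2897): the finite set of the intersection points and the double
counting of ordered pairs of distinct lines. -/

set_option autoImplicit false

namespace Pool.CSL

open Finset

open Classical in
theorem p_FS (h1 : Stmt_INT) : Stmt_FS := by
  intro A
  have hch : ∀ x : PL × PL, ∃ p, x.1 ≠ x.2 →
      (On x.1 p ∧ On x.2 p ∧ ∀ q, On x.1 q → On x.2 q → q = p) := by
    intro x
    by_cases h : x.1 = x.2
    · exact ⟨x.1, fun h' => absurd h h'⟩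
    · obtain ⟨p, hp⟩ := h1 x.1 x.2 h
      exact ⟨p, fun _ => hp⟩
  choose I hI using hch
  have hZ : ∀ p, p ∈ A.offDiag.image I ↔ 2 ≤ mult A p := by
    intro p
    rw [mem_image]
    constructor
    · rintro ⟨x, hx, rfl⟩
      rw [mem_offDiag] at hx
      obtain ⟨hx1, hx2, hx3⟩ := hx
      obtain ⟨h2, h3, -⟩ := hI x hx3
      have : 1 < (A.filter fun ℓ => On ℓ (I x)).card := by
        rw [one_lt_card]
        exact ⟨x.1, mem_filter.2 ⟨hx1, h2⟩, x.2, mem_filter.2 ⟨hx2, h3⟩, hx3⟩
      exact this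
    · intro h
      have h' : 1 < (A.filter fun ℓ => On ℓ p).card := h
      rw [one_lt_card] at h'
      obtain ⟨a, ha, b, hb, hab⟩ := h'
      rw [mem_filter] at ha hb
      refine ⟨(a, b), mem_offDiag.2 ⟨ha.1, hb.1, hab⟩, ?_⟩
      exact ((hI (a, b) hab).2.2 p ha.2 hb.2).symm
  have h3 : ∀ R : Finset (PL × PL), (∀ x ∈ R, x.1 ∈ A ∧ x.2 ∈ A ∧ x.1 ≠ x.2) →
      ∑ p ∈ A.offDiag.image I, (R.filter fun x => On x.1 p ∧ On x.2 p).card = R.card := by
    intro R hR
    have hmaps : ∀ x ∈ R, I x ∈ A.offDiag.image I := by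
      intro x hx
      exact mem_image_of_mem I (mem_offDiag.2 (hR x hx))
    rw [card_eq_sum_card_fiberwise (f := I) (s := R) (t := A.offDiag.image I) hmaps]
    apply sum_congr rfl
    intro p _
    congr 1
    apply filter_congr
    intro x hx
    have hne := (hR x hx).2.2
    obtain ⟨h2, h3, h4⟩ := hI x hne
    constructor
    · rintro ⟨h5, h6⟩
      exact (h4 p h5 h6).symm
    · rintro rfl
      exact ⟨h2, h3⟩
  refine ⟨A.offDiag.image I, hZ, ?_, h3, ?_⟩
  · intro g
    rw [finsum_eq_sum_of_support_subset (s := A.offDiag.image I)]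
    · apply sum_congr rfl
      intro p hp
      rw [if_pos ((hZ p).1 hp)]
    · intro p hp
      rw [Function.mem_support] at hp
      rw [mem_coe, hZ]
      by_contra hcon
      rw [if_neg hcon] at hp
      exact hp rfl
  · have h4 := h3 A.offDiag (fun x hx => mem_offDiag.1 hx)
    rw [offDiag_card] at h4
    rw [Nat.mul_sub, Nat.mul_one, ← h4]
    apply sum_congr rfl
    intro p _
    have h5 : (A.offDiag.filter fun x => On x.1 p ∧ On x.2 p) =
        (A.filter fun ℓ => On ℓ p).offDiag := by
      ext x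
      simp only [mem_filter, mem_offDiag]
      tauto
    rw [h5, offDiag_card, Nat.mul_sub, Nat.mul_one]
    rfl

end Pool.CSL
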