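import Pool.Agent.Work.MP_a0c695_csl.Interface

set_option autoImplicit false

namespace Pool.CSL

open Finset Polynomial

/-- A polynomial with given distinct roots is divisible by the product. -/
theorem GG_dvd (h : Polynomial (Polynomial ℂ)) (S : Finset (ℂ × ℂ)) (r : ℂ × ℂ → Polynomial ℂ)
    (hr : Set.InjOn r S) (hz : ∀ v ∈ S, h.eval (r v) = 0) :
    ∏ v ∈ S, (X - C (r v)) ∣ h := by
  classical
  by_cases h0 : h = 0
  · rw [h0]; exact dvd_zero _
  have e : ∏ v ∈ S, (X - C (r v)) = ((S.val.map r).map fun a => X - C a).prod := by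
    rw [Multiset.map_map]; rfl
  rw [e, Multiset.prod_X_sub_C_dvd_iff_le_roots h0]
  have hnd : (S.val.map r).Nodup := Multiset.Nodup.map_on (fun x hx y hy hxy => hr hx hy hxy) S.nodup
  rw [Multiset.le_iff_subset hnd]
  intro x hx
  obtain ⟨v, hv, rfl⟩ := Multiset.mem_map.mp hx
  rw [mem_roots h0]
  exact hz v hv

/-- The restriction of the product of the lines of `S` to another line. -/
theorem GG_prod (S : Finset (ℂ × ℂ)) (a c : ℂ) (y : ℂ × ℂ → ℂ)
    (hy : ∀ v ∈ S, c - v.2 = (a - v.1) * y v) :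
    (∏ v ∈ S, (X - C (C v.2 - C v.1 * X : Polynomial ℂ))).eval (C c - C a * X : Polynomial ℂ) =
      C (∏ v ∈ S, (-(a - v.1))) * ∏ v ∈ S, (X - C (y v)) := by
  rw [eval_prod, map_prod, ← prod_mul_distrib]
  refine prod_congr rfl fun v hv => ?_
  rw [eval_sub, eval_X, eval_C]
  have h1 : (C c : Polynomial ℂ) - C v.2 = (C a - C v.1) * C (y v) := by
    rw [← C_sub, hy v hv, C_mul, C_sub]
  rw [C_neg, C_sub]
  linear_combination h1

theorem GG_pow (g : Polynomial (Polynomial ℂ)) (P : Finset (ℂ × ℂ)) (D : Finset ℂ) (a c : ℂ)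
    (hgP : ∀ u ∈ P, g.eval (C u.2 - C u.1 * X : Polynomial ℂ) = - C u.1 * ∏ y ∈ D, (X - C y))
    (hinj : ∀ u ∈ P, ∀ v ∈ P, u.1 = v.1 → u = v) (ha : ∀ u ∈ P, a ≠ u.1) (y : ℂ) (hy : y ∈ D)
    (S : Finset (ℂ × ℂ)) (hSP : S ⊆ P) (hS : ∀ v ∈ S, c - v.2 = (a - v.1) * y) :
    (X - C y) ^ S.card ∣ g.eval (C c - C a * X : Polynomial ℂ) + C a * ∏ y ∈ D, (X - C y) := by
  classical
  set π := ∏ y ∈ D, (X - C y : Polynomial ℂ) with hπ
  set πy := ∏ y ∈ D.erase y, (X - C y : Polynomial ℂ) with hπy
  have hππ : (X - C y) * πy = π := mul_prod_erase D (fun y => (X - C y : Polynomial ℂ)) hy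
  set h : Polynomial (Polynomial ℂ) := g - (X - C (C (c - a * y))) * C πy with hh
  have hroot : ∀ v ∈ S, h.eval (C v.2 - C v.1 * X : Polynomial ℂ) = 0 := by
    intro v hv
    rw [hh, eval_sub, eval_mul, eval_sub, eval_X, eval_C, eval_C, hgP v (hSP hv), ← hππ]
    have h1 : (C c : Polynomial ℂ) - C v.2 = (C a - C v.1) * C y := by
      rw [← C_sub, hS v hv, C_mul, C_sub]
    rw [C_sub, C_mul]
    linear_combination πy * h1
  have hdvd := GG_dvd h S (fun v => C v.2 - C v.1 * X) (by
    intro u hu v hv huv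
    apply hinj u (hSP hu) v (hSP hv)
    have := congrArg (fun p : Polynomial ℂ => p.coeff 1) huv
    simp only [coeff_sub, coeff_C_mul, coeff_X_one, coeff_C_succ] at this
    simpa using this) hroot
  have hev : h.eval (C c - C a * X : Polynomial ℂ) = g.eval (C c - C a * X : Polynomial ℂ) +
      C a * π := by
    rw [hh, eval_sub, eval_mul, eval_sub, eval_X, eval_C, eval_C, ← hππ, C_sub, C_mul]
    ring
  rw [← hev]
  obtain ⟨k, hk⟩ := hdvd
  rw [hk, eval_mul, GG_prod S a c (fun _ => y) hS, prod_const]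
  exact Dvd.dvd.mul_right (Dvd.intro_left _ rfl) _

theorem p_GG : Stmt_GG := by
  classical
  intro P
  induction P using Finset.induction_on with
  | empty =>
    intro D _
    exact ⟨0, by simp, by simp, by simp⟩
  | insert u₀ P hu₀ ih =>
    intro D hD
    have hD' : Dir P D := fun u hu v hv huv =>
      hD u (mem_insert_of_mem hu) v (mem_insert_of_mem hv) huv
    obtain ⟨g, hg1, hg2, hg3⟩ := ih D hD'
    obtain ⟨a, c⟩ := u₀
    have hne : ∀ v ∈ P, (a, c) ≠ v := fun v hv h => hu₀ (h ▸ hv)
    have hav : ∀ v ∈ P, a ≠ v.1 := fun v hv =>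
      (hD (a, c) (mem_insert_self _ _) v (mem_insert_of_mem hv) (hne v hv)).1
    have hyD : ∀ v ∈ P, (c - v.2) / (a - v.1) ∈ D := fun v hv =>
      (hD (a, c) (mem_insert_self _ _) v (mem_insert_of_mem hv) (hne v hv)).2
    have hy : ∀ v ∈ P, c - v.2 = (a - v.1) * ((c - v.2) / (a - v.1)) := by
      intro v hv
      have : a - v.1 ≠ 0 := sub_ne_zero.mpr (hav v hv)
      field_simp
    have hinj : ∀ u ∈ P, ∀ v ∈ P, u.1 = v.1 → u = v := by
      intro u hu v hv h
      by_contra hne
      exact (hD' u hu v hv hne).1 h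
    set n := D.card with hn
    set π := ∏ y ∈ D, (X - C y : Polynomial ℂ) with hπ
    have hπdeg : π.natDegree = n := natDegree_finset_prod_X_sub_C_eq_card D id
    set E := g.eval (C c - C a * X : Polynomial ℂ) + C a * π with hE
    have hEdeg : E.natDegree ≤ n := by
      refine (natDegree_add_le _ _).trans (max_le (hg2 a c) ?_)
      exact (natDegree_C_mul_le _ _).trans hπdeg.le
    set Hl := ∏ v ∈ P, (X - C ((c - v.2) / (a - v.1)) : Polynomial ℂ) with hHl
    have hHm : Hl.Monic := monic_prod_of_monic _ _ fun v _ => monic_X_sub_C _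
    have hHdeg : Hl.natDegree = P.card := by
      rw [hHl, natDegree_prod_of_monic _ _ fun v _ => monic_X_sub_C _]
      simp
    have hHE : Hl ∣ E := by
      have e1 : Hl = ∏ y ∈ D, (X - C y) ^ (P.filter fun v => (c - v.2) / (a - v.1) = y).card := by
        rw [hHl, ← prod_fiberwise_of_maps_to (s := P) (t := D)
          (g := fun v => (c - v.2) / (a - v.1)) (fun v hv => hyD v hv)]
        refine prod_congr rfl fun y _ => ?_
        rw [← prod_const]
        refine prod_congr rfl fun v hv => ?_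
        rw [(mem_filter.mp hv).2]
      rw [e1]
      refine Finset.prod_dvd_of_coprime ?_ ?_
      · intro y _ y' _ hyy'
        exact (isCoprime_X_sub_C_of_isUnit_sub (sub_ne_zero.mpr hyy').isUnit).pow
      · intro y hyy
        refine GG_pow g P D a c hg3 hinj hav y hyy _ (filter_subset _ _) ?_
        intro v hv
        rw [mem_filter] at hv
        rw [← hv.2]
        exact hy v hv.1
    obtain ⟨Q, hQ⟩ := hHE
    have hQdeg : Q ≠ 0 → P.card + Q.natDegree ≤ n := by
      intro hQ0
      rw [← hHdeg, ← natDegree_mul hHm.ne_zero hQ0, ← hQ]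
      exact hEdeg
    set κ : ℂ := ∏ v ∈ P, (-(a - v.1)) with hκ
    have hκ0 : κ ≠ 0 := prod_ne_zero_iff.mpr fun v hv => neg_ne_zero.mpr (sub_ne_zero.mpr (hav v hv))
    set W : Polynomial (Polynomial ℂ) := ∏ v ∈ P, (X - C (C v.2 - C v.1 * X : Polynomial ℂ)) with hW
    have hWdeg : W.natDegree ≤ P.card := by
      rw [hW, natDegree_prod_of_monic _ _ fun v _ => monic_X_sub_C _]
      simp only [natDegree_X_sub_C, sum_const, smul_eq_mul, mul_one]
      exact le_rfl
    have hWev : ∀ a' c' : ℂ, (W.eval (C c' - C a' * X : Polynomial ℂ)).natDegree ≤ P.card := by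
      intro a' c'
      rw [hW, eval_prod]
      refine (natDegree_prod_le _ _).trans ?_
      refine (sum_le_card_nsmul _ _ 1 fun v _ => ?_).trans (by simp)
      rw [eval_sub, eval_X, eval_C]
      have e : (C c' - C a' * X - (C v.2 - C v.1 * X) : Polynomial ℂ) =
          C (c' - v.2) + C (-(a' - v.1)) * X := by
        rw [C_neg, C_sub, C_sub]; ring
      rw [e]
      refine (natDegree_add_le _ _).trans (max_le ?_ ?_)
      · rw [natDegree_C]; exact Nat.zero_le _
      · exact (natDegree_C_mul_le _ _).trans natDegree_X_le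
    refine ⟨g - C (Q * C κ⁻¹) * W, ?_, ?_, ?_⟩
    · refine (natDegree_sub_le _ _).trans (max_le hg1 ?_)
      by_cases hQ0 : Q = 0
      · rw [hQ0]; simp
      · refine (natDegree_C_mul_le _ _).trans (hWdeg.trans ?_)
        have := hQdeg hQ0
        omega
    · intro a' c'
      rw [eval_sub, eval_mul, eval_C]
      refine (natDegree_sub_le _ _).trans (max_le (hg2 a' c') ?_)
      by_cases hQ0 : Q = 0
      · rw [hQ0]; simp
      · refine natDegree_mul_le.trans ?_
        have h1 := hWev a' c'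
        have h2 : (Q * C κ⁻¹).natDegree ≤ Q.natDegree := natDegree_mul_C_le _ _
        have := hQdeg hQ0
        omega
    · intro u hu
      rw [eval_sub, eval_mul, eval_C]
      rcases mem_insert.mp hu with rfl | huP
      · have e1 : W.eval (C c - C a * X : Polynomial ℂ) = C κ * Hl :=
          GG_prod P a c (fun v => (c - v.2) / (a - v.1)) hy
        have e2 : (C κ⁻¹ : Polynomial ℂ) * C κ = 1 := by
          rw [← C_mul, inv_mul_cancel₀ hκ0, C_1]
        have e3 : g.eval (C c - C a * X : Polynomial ℂ) = Hl * Q - C a * π := by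
          rw [← hQ, hE]; ring
        simp only
        rw [e1, e3]
        linear_combination (-(Q * Hl)) * e2
      · have e1 : W.eval (C u.2 - C u.1 * X : Polynomial ℂ) = 0 := by
          rw [hW, eval_prod]
          refine prod_eq_zero huP ?_
          rw [eval_sub, eval_X, eval_C, sub_self]
        rw [e1, mul_zero, sub_zero]
        exact hg3 u huP

end Pool.CSL
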