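import Pool.Agent.Work.MP_a0c695_csl.Interface

/-! Block HALF: a point on at least half of the lines (helper46). -/

set_option autoImplicit false

namespace Pool.CSL

theorem p_HALF (h1 : Stmt_CC) : Stmt_HALF := by
  intro A hA hH
  obtain ⟨p, hp⟩ := hH
  obtain ⟨h3, hm⟩ := hA
  have hmp := hm p
  obtain ⟨b, hb⟩ : ∃ b, A.card = mult A p + b := ⟨A.card - mult A p, by omega⟩
  have hb2 : 2 ≤ b := by omega
  have hnb : b ≤ mult A p := by omega
  have hn2 : 2 ≤ mult A p := by omega
  obtain ⟨e1, e2, -, -⟩ := h1 A p (mult A p) b rfl hb hn2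
  have hb2' : (2 : ℝ) ≤ b := by exact_mod_cast hb2
  have hnb' : (b : ℝ) ≤ mult A p := by exact_mod_cast hnb
  have hn2' : (2 : ℝ) ≤ mult A p := by exact_mod_cast hn2
  have hc2 : 0 ≤ c2 A := by
    refine le_trans ?_ e1
    exact mul_nonneg (by linarith) (by linarith)
  have hle : 2 * c1 A - 5 * c2 A ≤ 0 := by
    refine le_trans e2 ?_
    have : (mult A p : ℝ) + b * (b - 1 - mult A p) = - (((b : ℝ) - 1) * (mult A p - b)) := by ring
    rw [this]
    have : 0 ≤ ((b : ℝ) - 1) * (mult A p - b) := mul_nonneg (by linarith) (by linarith)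
    linarith
  unfold slope
  rcases hc2.eq_or_lt with h | h
  · rw [← h, div_zero]
    norm_num
  · rw [div_le_iff₀ h]
    linarith

end Pool.CSL
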