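import Pool.Agent.Work.MP_a0c695_csl.Interface

/-! # Block HEAVY (helper17) -/

set_option autoImplicit false

namespace Pool.CSL

theorem HEAVY_num (α ε ρ n b : ℝ) (hα : 0 < α) (hε : 0 < ε) (hρ : ρ = 1 / (6 * α) - 1 / 3)
    (hα3 : 1 / 3 ≤ α) (hn : 0 < n) (hnb : n < b)
    (hαn : α * (n + b) ≤ n) (h12 : 12 ≤ n + b) (hD : 12 / ε ≤ n + b) :
    n + b * (b - 1 - n) / 3 ≤ 2 * (ρ + ε) * ((n - 2) * (b - 1)) ∧ 0 < (n - 2) * (b - 1) := by
  have hb2 : b ≤ 2 * n := by nlinarith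
  have h1 : (n + b) / 6 ≤ n - 2 := by linarith
  have h2 : (n + b) / 4 ≤ b - 1 := by linarith
  have h3 : (n + b) / 6 * ((n + b) / 4) ≤ (n - 2) * (b - 1) :=
    mul_le_mul h1 h2 (by positivity) (by linarith)
  have h4 : n + b ≤ 2 * ε * ((n - 2) * (b - 1)) := by
    rw [div_le_iff₀ hε] at hD
    have h5 : 2 * ε * ((n + b) / 6 * ((n + b) / 4)) ≤ 2 * ε * ((n - 2) * (b - 1)) :=
      mul_le_mul_of_nonneg_left h3 (by positivity)
    have h6 : n + b ≤ 2 * ε * ((n + b) / 6 * ((n + b) / 4)) := by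
      have h7 : 2 * ε * ((n + b) / 6 * ((n + b) / 4)) = (n + b) * (((n + b) * ε) / 12) := by ring
      rw [h7]
      have h8 : 1 ≤ ((n + b) * ε) / 12 := by
        rw [le_div_iff₀ (by norm_num)]
        linarith
      nlinarith
    linarith
  have h5 : b - n ≤ ρ * (6 * n) := by
    have h6 : n + b ≤ n / α := by
      rw [le_div_iff₀ hα]
      linarith
    have h7 : ρ * (6 * n) = n / α - 2 * n := by
      rw [hρ]
      field_simp
      ring
    rw [h7]
    linarith
  have hpos : 0 < (n - 2) * (b - 1) := lt_of_lt_of_le (by positivity) h3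
  refine ⟨?_, hpos⟩
  have h6 : (b - n) * ((n - 2) * (b - 1)) ≤ ρ * (6 * n) * ((n - 2) * (b - 1)) :=
    mul_le_mul_of_nonneg_right h5 hpos.le
  have h7 : (b - n) * (n + 2 * b - 2) ≤ 4 * (n * b) := by
    have h8 : (b - n) * (n + 2 * b - 2) ≤ n * (n + 2 * b - 2) :=
      mul_le_mul_of_nonneg_right (by linarith) (by linarith)
    nlinarith
  have h8 : 3 * n * (n + b) ≤ 3 * n * (2 * ε * ((n - 2) * (b - 1))) :=
    mul_le_mul_of_nonneg_left h4 (by positivity)
  have h9 : 3 * n * (n + b * (b - 1 - n) / 3) ≤ 3 * n * (2 * (ρ + ε) * ((n - 2) * (b - 1))) := by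
    nlinarith
  exact le_of_mul_le_mul_left h9 (by positivity)

theorem p_HEAVY (h1 : Stmt_CC) (h2 : Stmt_HALF) : Stmt_HEAVY := by
  intro α hα1 hα2 ε hε
  obtain ⟨D₀, hD₀⟩ := exists_nat_ge (12 / ε)
  refine ⟨max 12 D₀, ?_⟩
  intro A hA hD hp
  obtain ⟨p, hp⟩ := hp
  have hα0 : 0 < α := by linarith
  have hρ0 : 1 / 3 ≤ 1 / (6 * α) := by
    rw [div_le_div_iff₀ (by norm_num) (by positivity)]
    linarith
  by_cases hhalf : Half A
  · have := h2 A hA hhalf
    linarith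
  · have hm := hA.2 p
    set n := mult A p with hn
    obtain ⟨b, hb⟩ := Nat.exists_eq_add_of_le (show n ≤ A.card by omega)
    have hnb : n < b := by
      by_contra hcon
      exact hhalf ⟨p, by omega⟩
    have h12 : 12 ≤ A.card := (le_max_left _ _).trans hD
    have h12' : (12 : ℝ) ≤ (n : ℝ) + b := by
      rw [hb] at h12
      exact_mod_cast h12
    have hD' : 12 / ε ≤ (n : ℝ) + b := by
      have h3 : D₀ ≤ A.card := (le_max_right _ _).trans hD
      rw [hb] at h3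
      have h4 : (D₀ : ℝ) ≤ (n : ℝ) + b := by exact_mod_cast h3
      linarith
    have hαn : α * ((n : ℝ) + b) ≤ n := by
      rw [hb] at hp
      push_cast at hp
      exact hp
    have hn0 : (0 : ℝ) < n := by
      have : 0 < α * ((n : ℝ) + b) := by positivity
      linarith
    have hn4 : (4 : ℝ) ≤ n := by nlinarith
    have hn2 : 2 ≤ n := by
      have : (2 : ℝ) ≤ n := by linarith
      exact_mod_cast this
    obtain ⟨q1, -, q3, -⟩ := h1 A p n b hn.symm hb hn2
    obtain ⟨q5, q6⟩ := HEAVY_num α ε (1 / (6 * α) - 1 / 3) n b hα0 hε rfl hα1 hn0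
      (by exact_mod_cast hnb) hαn h12' hD'
    have hc2 : 0 < c2 A := lt_of_lt_of_le q6 q1
    have hρε : 0 ≤ 2 * (1 / (6 * α) - 1 / 3 + ε) := by linarith
    have q7 := mul_le_mul_of_nonneg_left q1 hρε
    unfold slope
    rw [div_le_iff₀ hc2]
    nlinarith

end Pool.CSL
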