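import Pool.Agent.Work.MP_a0c695_csl.Interface

set_option autoImplicit false

namespace Pool.CSL

open Finset

open Classical in
theorem p_INS : Stmt_INS := by
  intro T x hT hx hxT
  have hT0 : ∀ t ∈ T, t ≠ 0 := fun t ht h => hT (h ▸ ht)
  have hne : ∀ t ∈ T, t ≠ x := fun t ht h => hxT (h ▸ ht)
  let K : Finset ℂ := T.filter fun s => (s * x)⁻¹ ∈ T ∧ (s * x)⁻¹ ≠ s
  let cond : Finset ℂ → ℂ × ℂ → Prop := fun U y => y.1 ≠ y.2 ∧ (y.1 * y.2)⁻¹ ∈ U ∧
    (y.1 * y.2)⁻¹ ≠ y.1 ∧ (y.1 * y.2)⁻¹ ≠ y.2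
  let S0 : Finset (ℂ × ℂ) := (T ×ˢ T).filter (cond T)
  let S1 : Finset (ℂ × ℂ) := K.image fun s => (x, s)
  let S2 : Finset (ℂ × ℂ) := K.image fun s => (s, x)
  let S3 : Finset (ℂ × ℂ) := K.image fun s => (s, (s * x)⁻¹)
  have hS : ((insert x T) ×ˢ (insert x T)).filter (cond (insert x T)) =
      S0 ∪ (S1 ∪ (S2 ∪ S3)) := by
    ext ⟨a, b⟩
    simp only [S0, S1, S2, S3, K, mem_union, mem_filter, mem_image, mem_product, mem_insert, cond,
      Prod.mk.injEq]
    constructor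
    · rintro ⟨⟨ha, hb⟩, hab, hu, hua, hub⟩
      by_cases hax : a = x
      · subst hax
        have hbT : b ∈ T := hb.resolve_left (fun h => hab h.symm)
        have huT : (a * b)⁻¹ ∈ T := hu.resolve_left hua
        refine Or.inr (Or.inl ⟨b, ⟨hbT, ?_, ?_⟩, rfl, rfl⟩)
        · rw [mul_comm]; exact huT
        · rw [mul_comm]; exact hub
      · have haT : a ∈ T := ha.resolve_left hax
        by_cases hbx : b = x
        · subst hbx
          have huT : (a * b)⁻¹ ∈ T := hu.resolve_left hub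
          exact Or.inr (Or.inr (Or.inl ⟨a, ⟨haT, huT, hua⟩, rfl, rfl⟩))
        · have hbT : b ∈ T := hb.resolve_left hbx
          have ha0 := hT0 a haT
          have hb0 := hT0 b hbT
          rcases hu with hu | hu
          · have hbb : (a * x)⁻¹ = b := by
              rw [← hu, mul_inv, mul_inv, mul_inv, inv_inv, inv_inv, ← mul_assoc,
                inv_mul_cancel₀ ha0, one_mul]
            refine Or.inr (Or.inr (Or.inr ⟨a, ⟨haT, ?_, ?_⟩, rfl, hbb⟩))
            · rw [hbb]; exact hbT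
            · rw [hbb]; exact fun h => hab h.symm
          · exact Or.inl ⟨⟨haT, hbT⟩, hab, hu, hua, hub⟩
    · rintro (h | h | h | h)
      · obtain ⟨⟨ha, hb⟩, hab, hu, hua, hub⟩ := h
        exact ⟨⟨Or.inr ha, Or.inr hb⟩, hab, Or.inr hu, hua, hub⟩
      · obtain ⟨s, ⟨hs, h1, h2⟩, rfl, rfl⟩ := h
        rw [mul_comm] at h1 h2
        exact ⟨⟨Or.inl rfl, Or.inr hs⟩, fun h => hne s hs h.symm, Or.inr h1, hne _ h1, h2⟩
      · obtain ⟨s, ⟨hs, h1, h2⟩, rfl, rfl⟩ := h
        exact ⟨⟨Or.inr hs, Or.inl rfl⟩, hne s hs, Or.inr h1, h2, hne _ h1⟩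
      · obtain ⟨s, ⟨hs, h1, h2⟩, rfl, rfl⟩ := h
        have hs0 := hT0 s hs
        have hu : (s * (s * x)⁻¹)⁻¹ = x := by
          rw [mul_inv, inv_inv, ← mul_assoc, inv_mul_cancel₀ hs0, one_mul]
        refine ⟨⟨Or.inr hs, Or.inr h1⟩, h2.symm, Or.inl hu, ?_, ?_⟩
        · rw [hu]; exact (hne s hs).symm
        · rw [hu]; exact (hne _ h1).symm
  have hK : ∀ s ∈ K, s ∈ T ∧ (s * x)⁻¹ ∈ T := fun s hs =>
    ⟨(mem_filter.1 hs).1, (mem_filter.1 hs).2.1⟩
  have c1 : S1.card = K.card := card_image_of_injective _ fun a b h => (Prod.mk.inj h).2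
  have c2 : S2.card = K.card := card_image_of_injective _ fun a b h => (Prod.mk.inj h).1
  have c3 : S3.card = K.card := card_image_of_injective _ fun a b h => (Prod.mk.inj h).1
  have d23 : Disjoint S2 S3 := by
    rw [disjoint_left]
    intro y h1 h2
    obtain ⟨s, hs, rfl⟩ := mem_image.1 h1
    obtain ⟨t, ht, h⟩ := mem_image.1 h2
    exact hne _ (hK t ht).2 (Prod.mk.inj h).2
  have d1 : Disjoint S1 (S2 ∪ S3) := by
    rw [disjoint_left]
    intro y h1 h2
    obtain ⟨s, hs, rfl⟩ := mem_image.1 h1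
    rcases mem_union.1 h2 with h2 | h2
    · obtain ⟨t, ht, h⟩ := mem_image.1 h2
      exact hne _ (hK t ht).1 (Prod.mk.inj h).1
    · obtain ⟨t, ht, h⟩ := mem_image.1 h2
      exact hne _ (hK t ht).1 (Prod.mk.inj h).1
  have d0 : Disjoint S0 (S1 ∪ (S2 ∪ S3)) := by
    rw [disjoint_left]
    intro y h1 h2
    obtain ⟨h3, h4⟩ := mem_filter.1 h1
    have h5 := mem_product.1 h3
    rcases mem_union.1 h2 with h2 | h2
    · obtain ⟨t, ht, rfl⟩ := mem_image.1 h2
      exact hxT h5.1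
    · rcases mem_union.1 h2 with h2 | h2
      · obtain ⟨t, ht, rfl⟩ := mem_image.1 h2
        exact hxT h5.2
      · obtain ⟨s, hs, rfl⟩ := mem_image.1 h2
        have hs0 := hT0 s (hK s hs).1
        have hu : (s * (s * x)⁻¹)⁻¹ = x := by
          rw [mul_inv, inv_inv, ← mul_assoc, inv_mul_cancel₀ hs0, one_mul]
        have h6 : (s * (s * x)⁻¹)⁻¹ ∈ T := h4.2.1
        rw [hu] at h6
        exact hxT h6
  have e : tau (insert x T) = (((insert x T) ×ˢ (insert x T)).filter (cond (insert x T))).card :=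
    rfl
  rw [e, hS, card_union_of_disjoint d0, card_union_of_disjoint d1, card_union_of_disjoint d23,
    c1, c2, c3]
  have e2 : tau T = S0.card := rfl
  rw [e2]
  ring

end Pool.CSL
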