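import Pool.Agent.Work.MP_a0c695_csl.Interface

/-! # LAM: the number of lines in a given direction (MP_a0c695, note 2897, by helper74) -/

set_option autoImplicit false

namespace Pool.CSL

open Finset Filter Topology

theorem LAM_div (P : Finset (ℂ × ℂ)) (D : Finset ℂ) (g : Polynomial (Polynomial ℂ)) (y x : ℂ)
    (hy : y ∈ D)
    (hg : ∀ u ∈ P, g.eval (Polynomial.C u.2 - Polynomial.C u.1 * Polynomial.X) =
      - Polynomial.C u.1 * ∏ y ∈ D, (Polynomial.X - Polynomial.C y)) :
    (Polynomial.X - Polynomial.C x) ^ (P.filter fun u => u.2 - u.1 * y = x).card ∣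
      g.map (Polynomial.evalRingHom y) -
        Polynomial.C (∏ y' ∈ D.erase y, (y - y')) * (Polynomial.X - Polynomial.C x) := by
  classical
  obtain ⟨S, hS⟩ : ∃ S, S = P.filter fun u => u.2 - u.1 * y = x := ⟨_, rfl⟩
  rw [← hS]
  have hSx : ∀ u ∈ S, u ∈ P ∧ u.2 = x + u.1 * y := by
    intro u hu
    rw [hS, mem_filter] at hu
    exact ⟨hu.1, by linear_combination hu.2⟩
  have hprod : (Polynomial.X - Polynomial.C y) * ∏ y' ∈ D.erase y,
      (Polynomial.X - Polynomial.C y' : Polynomial ℂ) = ∏ y ∈ D,
      (Polynomial.X - Polynomial.C y) := Finset.mul_prod_erase D (fun y =>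
        (Polynomial.X - Polynomial.C y : Polynomial ℂ)) hy
  have hdvd : (∏ u ∈ S, (Polynomial.X - Polynomial.C (Polynomial.C u.2 -
      Polynomial.C u.1 * Polynomial.X) : Polynomial (Polynomial ℂ))) ∣
      g - Polynomial.C (∏ y' ∈ D.erase y, (Polynomial.X - Polynomial.C y')) *
        (Polynomial.X - Polynomial.C (Polynomial.C x)) := by
    refine Finset.prod_dvd_of_isRelPrime ?_ ?_
    · intro u hu v hv huv
      have hu' := hSx u hu
      have hv' := hSx v hv
      show IsRelPrime _ _
      rw [(Polynomial.prime_X_sub_C _).irreducible.isRelPrime_iff_not_dvd,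
        Polynomial.dvd_iff_isRoot, Polynomial.IsRoot.def]
      intro h
      rw [Polynomial.eval_sub, Polynomial.eval_X, Polynomial.eval_C] at h
      have h1 := congrArg (Polynomial.eval 0) h
      have h2 := congrArg (Polynomial.eval 1) h
      simp at h1 h2
      apply huv
      ext
      · linear_combination h1 - h2
      · linear_combination h1
    · intro u hu
      obtain ⟨h1, h2⟩ := hSx u hu
      rw [Polynomial.dvd_iff_isRoot, Polynomial.IsRoot.def, Polynomial.eval_sub,
        Polynomial.eval_mul, Polynomial.eval_C, Polynomial.eval_sub, Polynomial.eval_X,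
        Polynomial.eval_C, hg u h1, ← hprod, h2, Polynomial.C_add, Polynomial.C_mul]
      ring
  have h1 := Polynomial.map_dvd (Polynomial.evalRingHom y) hdvd
  rw [Polynomial.map_prod] at h1
  have h2 : ∏ u ∈ S, Polynomial.map (Polynomial.evalRingHom y) (Polynomial.X -
      Polynomial.C (Polynomial.C u.2 - Polynomial.C u.1 * Polynomial.X)) =
      (Polynomial.X - Polynomial.C x) ^ S.card := by
    rw [Finset.prod_congr rfl (g := fun _ => Polynomial.X - Polynomial.C x), prod_const]
    intro u hu
    have h3 := (hSx u hu).2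
    rw [Polynomial.map_sub, Polynomial.map_X, Polynomial.map_C]
    congr 2
    simp
    linear_combination h3
  rw [h2] at h1
  refine h1.trans (dvd_of_eq ?_)
  rw [Polynomial.map_sub, Polynomial.map_mul, Polynomial.map_C, Polynomial.map_sub,
    Polynomial.map_X, Polynomial.map_C]
  congr 3
  · simp
  · simp

theorem LAM_der (f : Polynomial ℂ) (c x : ℂ) (k : ℕ)
    (h : (Polynomial.X - Polynomial.C x) ^ k ∣ f - Polynomial.C c *
      (Polynomial.X - Polynomial.C x)) :
    (Polynomial.X - Polynomial.C x) ^ (k - 1) ∣ Polynomial.derivative f - Polynomial.C c := by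
  have h1 := Polynomial.pow_sub_one_dvd_derivative_of_pow_dvd h
  refine h1.trans (dvd_of_eq ?_)
  simp

theorem p_LAM (hGG : Stmt_GG) : Stmt_LAM := by
  classical
  intro P D hPD y hy hlam
  obtain ⟨g, hdeg, -, hg⟩ := hGG P D hPD
  obtain ⟨f, hf⟩ : ∃ f, f = g.map (Polynomial.evalRingHom y) := ⟨_, rfl⟩
  obtain ⟨c, hc⟩ : ∃ c, c = ∏ y' ∈ D.erase y, (y - y') := ⟨_, rfl⟩
  have hc0 : c ≠ 0 := by
    rw [hc]
    refine Finset.prod_ne_zero_iff.2 fun y' hy' => ?_
    exact sub_ne_zero.2 (Finset.ne_of_mem_erase hy').symm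
  have hdiv : ∀ x, (Polynomial.X - Polynomial.C x) ^ (P.filter fun u => u.2 - u.1 * y = x).card ∣
      f - Polynomial.C c * (Polynomial.X - Polynomial.C x) := fun x => by
    rw [hf, hc]
    exact LAM_div P D g y x hy hg
  obtain ⟨I, hI⟩ : ∃ I : Finset ℂ, I = P.image fun u => u.2 - u.1 * y := ⟨_, rfl⟩
  have hlamI : lam P y = I.card := by
    unfold lam
    rw [hI]
  have hk : ∀ x ∈ I, 1 ≤ (P.filter fun u => u.2 - u.1 * y = x).card := by
    intro x hx
    rw [hI, mem_image] at hx
    obtain ⟨u, hu, h⟩ := hx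
    exact Finset.card_pos.2 ⟨u, mem_filter.2 ⟨hu, h⟩⟩
  have hsum : ∑ x ∈ I, ((P.filter fun u => u.2 - u.1 * y = x).card - 1) + I.card = P.card := by
    have h1 : P.card = ∑ x ∈ I, (P.filter fun u => u.2 - u.1 * y = x).card := by
      rw [hI]
      exact Finset.card_eq_sum_card_image _ _
    rw [h1, Finset.card_eq_sum_ones, ← Finset.sum_add_distrib]
    refine Finset.sum_congr rfl fun x hx => ?_
    have := hk x hx
    omega
  have hroot : ∀ x ∈ I, f.eval x = 0 := by
    intro x hx
    have h1 : (Polynomial.X - Polynomial.C x) ∣ f - Polynomial.C c *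
        (Polynomial.X - Polynomial.C x) :=
      (dvd_pow_self _ (by have := hk x hx; omega)).trans (hdiv x)
    rw [Polynomial.dvd_iff_isRoot, Polynomial.IsRoot.def] at h1
    simpa using h1
  by_cases hder : Polynomial.derivative f - Polynomial.C c = 0
  · exfalso
    rw [hlamI] at hlam
    obtain ⟨x₁, hx₁, x₂, hx₂, hne⟩ := Finset.one_lt_card.1 hlam
    have h1 : Polynomial.derivative (f - Polynomial.C c * Polynomial.X) = 0 := by
      simpa using hder
    have h2 := Polynomial.derivative_eq_zero.1 h1
    obtain ⟨d, hd⟩ := Polynomial.natDegree_eq_zero.1 h2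
    have h3 := congrArg (Polynomial.eval x₁) hd
    have h4 := congrArg (Polynomial.eval x₂) hd
    rw [Polynomial.eval_C, Polynomial.eval_sub, Polynomial.eval_mul, Polynomial.eval_C,
      Polynomial.eval_X, hroot _ hx₁] at h3
    rw [Polynomial.eval_C, Polynomial.eval_sub, Polynomial.eval_mul, Polynomial.eval_C,
      Polynomial.eval_X, hroot _ hx₂] at h4
    have h5 : c * (x₁ - x₂) = 0 := by linear_combination h3 - h4
    rcases mul_eq_zero.1 h5 with h | h
    · exact hc0 h
    · exact hne (sub_eq_zero.1 h)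
  · have hprod : ∏ x ∈ I, (Polynomial.X - Polynomial.C x) ^
        ((P.filter fun u => u.2 - u.1 * y = x).card - 1) ∣
        Polynomial.derivative f - Polynomial.C c := by
      refine Finset.prod_dvd_of_coprime ?_ fun x _ => LAM_der f c x _ (hdiv x)
      intro x _ x' _ hne
      exact (Polynomial.isCoprime_X_sub_C_of_isUnit_sub
        (isUnit_iff_ne_zero.2 (sub_ne_zero.2 hne))).pow
    have h1 := Polynomial.natDegree_le_of_dvd hprod hder
    rw [Polynomial.natDegree_prod_of_monic _ _ fun x _ =>
      (Polynomial.monic_X_sub_C x).pow _] at h1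
    simp only [Polynomial.natDegree_pow, Polynomial.natDegree_X_sub_C, mul_one] at h1
    have h2 : (Polynomial.derivative f - Polynomial.C c).natDegree ≤ D.card - 1 := by
      refine (Polynomial.natDegree_sub_le _ _).trans ?_
      rw [Polynomial.natDegree_C, max_eq_left (Nat.zero_le _)]
      refine (Polynomial.natDegree_derivative_le f).trans ?_
      have h3 : f.natDegree ≤ D.card := by
        rw [hf]
        exact (Polynomial.natDegree_map_le).trans hdeg
      omega
    have h3 : 1 ≤ D.card := Finset.card_pos.2 ⟨y, hy⟩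
    rw [hlamI]
    omega

end Pool.CSL
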