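import Pool.Agent.Work.MP_a0c695_csl.Interface

set_option autoImplicit false

namespace Pool.CSL

open Finset Filter Topology

theorem LO_fin {A : Finset PL} {ε : ℝ} (h2 : 0 < c2 A) (h : (2 - ε) * c2 A ≤ c1 A) :
    2 - ε ≤ slope A := by
  unfold slope
  rw [le_div_iff₀ h2]
  exact h

theorem p_LO (hCC : Stmt_CC) (hBIG : Stmt_BIG) (hFS : Stmt_FS) : Stmt_LO := by
  intro ε hε
  obtain ⟨D₁, hD₁⟩ := hBIG (1 / ε)
  refine ⟨max D₁ (⌈2 * (2 + 1 / ε)⌉₊ + 1), fun A hA hD => ?_⟩
  have hDa : D₁ ≤ A.card := le_trans (le_max_left _ _) hD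
  have hDb : ⌈2 * (2 + 1 / ε)⌉₊ + 1 ≤ A.card := le_trans (le_max_right _ _) hD
  have hDr : 2 * (2 + 1 / ε) ≤ (A.card : ℝ) := by
    calc 2 * (2 + 1 / ε) ≤ (⌈2 * (2 + 1 / ε)⌉₊ : ℝ) := Nat.le_ceil _
      _ ≤ A.card := by
        have : ⌈2 * (2 + 1 / ε)⌉₊ ≤ A.card := by omega
        exact_mod_cast this
  have h3 := hA.1
  by_cases hH : Half A
  · obtain ⟨p, hp⟩ := hH
    have hpa := hA.2 p
    obtain ⟨b, hb⟩ : ∃ b, A.card = mult A p + b := ⟨A.card - mult A p, by omega⟩
    have hb2 : 2 ≤ b := by omega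
    have hn2 : 2 ≤ mult A p := by omega
    obtain ⟨g1, -, -, g4⟩ := hCC A p (mult A p) b rfl hb hn2
    have hpr : (A.card : ℝ) ≤ 2 * mult A p := by exact_mod_cast hp
    have hbr : (2 : ℝ) ≤ b := by exact_mod_cast hb2
    have hn : 2 + 1 / ε ≤ (mult A p : ℝ) := by linarith
    have hn' : 1 ≤ ε * ((mult A p : ℝ) - 2) := by
      have : 1 / ε ≤ (mult A p : ℝ) - 2 := by linarith
      have := mul_le_mul_of_nonneg_left this hε.le
      rwa [mul_one_div_cancel hε.ne'] at this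
    have hnpos : 0 < (mult A p : ℝ) - 2 := by
      have : 0 < 1 / ε := by positivity
      linarith
    have hc2 : 0 < c2 A := lt_of_lt_of_le (mul_pos hnpos (by linarith)) g1
    apply LO_fin hc2
    have h5 : ε * (((mult A p : ℝ) - 2) * (b - 1)) ≤ ε * c2 A :=
      mul_le_mul_of_nonneg_left g1 hε.le
    have h6 : (b : ℝ) - 1 ≤ ε * ((mult A p : ℝ) - 2) * (b - 1) := by
      have := mul_le_mul_of_nonneg_right hn' (show (0 : ℝ) ≤ (b : ℝ) - 1 by linarith)
      linarith
    nlinarith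
  · have hc := hD₁ A hA hDa hH
    obtain ⟨Z, hZ, -, -, hZ4⟩ := hFS A
    have hpos : 0 < ∑ p ∈ Z, mult A p * (mult A p - 1) := by
      rw [hZ4]
      apply Nat.mul_pos <;> omega
    have hne : Z.Nonempty := by
      rw [Finset.nonempty_iff_ne_empty]
      rintro rfl
      simp at hpos
    obtain ⟨o, ho⟩ := hne
    have hn2 := (hZ o).1 ho
    have hpa := hA.2 o
    obtain ⟨b, hb⟩ : ∃ b, A.card = mult A o + b := ⟨A.card - mult A o, by omega⟩
    obtain ⟨-, -, -, g4⟩ := hCC A o (mult A o) b rfl hb hn2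
    have hcard : (0 : ℝ) < A.card := by
      have : 0 < A.card := by omega
      exact_mod_cast this
    have hc2 : 0 < c2 A := lt_of_lt_of_le (by positivity) hc
    apply LO_fin hc2
    have h5 : (A.card : ℝ) ≤ ε * c2 A := by
      have := mul_le_mul_of_nonneg_left hc hε.le
      have h6 : ε * (1 / ε * (A.card : ℝ)) = A.card := by
        field_simp
      linarith
    have hbr : (b : ℝ) ≤ A.card := by
      have : b ≤ A.card := by omega
      exact_mod_cast this
    nlinarith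

end Pool.CSL
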