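import Pool.Agent.Work.MP_a0c695_csl.Interface

/-! Block MAIN (helper28). -/

set_option autoImplicit false

namespace Pool.CSL

open Finset Filter Topology

theorem MAIN_few (K : ℕ) (A : Finset PL) (h : ∀ p, mult A p ≤ 3) : Few K A := by
  have h0 : ({p | 4 ≤ mult A p} : Set PL) = ∅ := by
    ext p
    simp only [Set.mem_ofPred_eq, Set.mem_empty_iff_false, iff_false, not_le]
    have := h p
    omega
  unfold Few
  rw [h0]
  simp

theorem p_MAIN (h1 : Stmt_HALF) (h2 : Stmt_UP) (h3 : Stmt_LO) (h4 : Stmt_HEAVY) (h5 : Stmt_ACC)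
    (h6 : Stmt_RAT) (h7 : Stmt_SUP) : Stmt_MAIN := by
  refine ⟨?_, h1, ?_, ?_, h6⟩
  · intro K x
    constructor
    · intro hx
      constructor
      · refine (h5 (fun A => Adm A ∧ (Few K A ∨ Half A)) 2).2 ?_ x hx
        intro ε hε
        obtain ⟨D, hD⟩ := h3 ε hε
        exact ⟨D, fun A hA hd => hD A hA.1 hd⟩
      · refine (h5 (fun A => Adm A ∧ (Few K A ∨ Half A)) (5 / 2)).1 ?_ x hx
        intro ε hε
        obtain ⟨D, hD⟩ := h2 K ε hε
        exact ⟨D, fun A hA hd => hD A hA.1 hd hA.2⟩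
    · rintro ⟨hx1, hx2⟩
      rw [accPt_iff_nhds]
      intro U hU
      obtain ⟨ε, hε, hball⟩ := Metric.mem_nhds_iff.1 hU
      obtain ⟨y, hy2, hy5, hyx, hyε⟩ : ∃ y : ℚ, (2 : ℝ) ≤ y ∧ (y : ℝ) < 5 / 2 ∧ (y : ℝ) ≠ x ∧
          |(y : ℝ) - x| < ε := by
        rcases lt_or_eq_of_le hx2 with hlt | heq
        · obtain ⟨y, hya, hyb⟩ := exists_rat_btwn (show x < min (x + ε) (5 / 2) from
            lt_min (by linarith) hlt)
          refine ⟨y, by linarith, lt_of_lt_of_le hyb (min_le_right _ _), ne_of_gt hya, ?_⟩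
          have : (y : ℝ) < x + ε := lt_of_lt_of_le hyb (min_le_left _ _)
          rw [abs_lt]
          constructor <;> linarith
        · obtain ⟨y, hya, hyb⟩ := exists_rat_btwn (show max (x - ε) 2 < x from
            max_lt (by linarith) (by linarith))
          refine ⟨y, le_trans (le_max_right _ _) hya.le, by linarith, ne_of_lt hyb, ?_⟩
          have : x - ε < (y : ℝ) := lt_of_le_of_lt (le_max_left _ _) hya
          rw [abs_lt]
          constructor <;> linarith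
      obtain ⟨A, -, hA, hm, hs⟩ := h6 y (by exact_mod_cast hy2) (by
        have h8 : (y : ℝ) < ((5 / 2 : ℚ) : ℝ) := by push_cast; exact hy5
        exact_mod_cast h8) 0
      refine ⟨(y : ℝ), ⟨?_, A, ⟨hA, Or.inl (MAIN_few K A hm)⟩, hs.symm⟩, hyx⟩
      apply hball
      rw [Metric.mem_ball, Real.dist_eq]
      exact hyε
  · intro α ha1 ha2 x hx
    refine (h5 (fun A => Adm A ∧ ∃ p, α * A.card ≤ mult A p) (13 / 6 + 1 / (6 * α))).1 ?_ x hx
    intro ε hε
    obtain ⟨D, hD⟩ := h4 α ha1 ha2 ε hε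
    exact ⟨D, fun A hA hd => hD A hA.1 hd hA.2⟩
  · intro x hx
    refine (h5 (fun A => Adm A ∧ ∃ o, ModPt A o) ((13 + Real.sqrt 7) / 6)).1 ?_ x hx
    intro ε hε
    obtain ⟨D, hD⟩ := h7 ε hε
    exact ⟨D, fun A hA hd => hD A hA.1 hd hA.2⟩

end Pool.CSL
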