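import Pool.Agent.Work.MP_a0c695_csl.Interface

/-! # Block MODC (MP_a0c695, note 2897; helper25) -/

set_option autoImplicit false

namespace Pool.CSL

open Finset

open Classical in
/-- The sum of `m - 1` over the intersection points when `o` is modular. -/
theorem MODC_sum (hFS : Stmt_FS) (hINT : Stmt_INT) (A Z : Finset PL) (o : PL) (n b : ℕ)
    (hZ : ∀ p, p ∈ Z ↔ 2 ≤ mult A p) (hn : mult A o = n) (hA : A.card = n + b)
    (hM : ModPt A o) :
    ∑ p ∈ Z, ((mult A p : ℝ) - 1) = (n : ℝ) - 1 + n * b := by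
  obtain ⟨Z', hZ', -, h3, -⟩ := hFS A
  have hZZ : Z' = Z := by
    ext p
    rw [hZ, hZ']
  subst hZZ
  set P : Finset PL := A.filter fun ℓ => On ℓ o with hP
  set N : Finset PL := A.filter fun ℓ => ¬ On ℓ o with hN
  have hPc : P.card = n := hn
  have hNc : N.card = b := by
    have h := Finset.card_filter_add_card_filter_not (s := A) (fun ℓ => On ℓ o)
    have h' : P.card + N.card = A.card := h
    omega
  have hoZ : o ∈ Z' := by
    rw [hZ]
    exact hM.1
  -- double counting of the pairs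
  have hR := h3 (P ×ˢ N) (by
    rintro ⟨x, y⟩ hx
    rw [Finset.mem_product] at hx
    obtain ⟨hx1, hx2⟩ := hx
    rw [hP, Finset.mem_filter] at hx1
    rw [hN, Finset.mem_filter] at hx2
    refine ⟨hx1.1, hx2.1, ?_⟩
    rintro h
    exact hx2.2 (h ▸ hx1.2))
  rw [Finset.card_product, hPc, hNc] at hR
  -- the filters
  have hfil : ∀ p : PL, ((P ×ˢ N).filter fun x => On x.1 p ∧ On x.2 p).card =
      (P.filter fun ℓ => On ℓ p).card * (N.filter fun ℓ => On ℓ p).card := by
    intro p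
    rw [← Finset.card_product]
    congr 1
    ext x
    simp only [Finset.mem_filter, Finset.mem_product]
    tauto
  have hsplit : ∀ p : PL, mult A p =
      (P.filter fun ℓ => On ℓ p).card + (N.filter fun ℓ => On ℓ p).card := by
    intro p
    have h := Finset.card_filter_add_card_filter_not (s := A.filter fun ℓ => On ℓ p)
      (fun ℓ => On ℓ o)
    unfold mult
    rw [← h, hP, hN, Finset.filter_filter, Finset.filter_filter, Finset.filter_filter,
      Finset.filter_filter]
    congr 2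
    · apply Finset.filter_congr
      intro x _
      exact and_comm
    · apply Finset.filter_congr
      intro x _
      exact and_comm
  have hNo : (N.filter fun ℓ => On ℓ o).card = 0 := by
    rw [Finset.card_eq_zero, Finset.filter_eq_empty_iff]
    intro x hx
    rw [hN, Finset.mem_filter] at hx
    exact hx.2
  have he : ∀ q ∈ Z', q ≠ o → (P.filter fun ℓ => On ℓ q).card = 1 := by
    intro q hq hqo
    apply le_antisymm
    · rw [Finset.card_le_one]
      intro x hx y hy
      by_contra hxy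
      rw [Finset.mem_filter, hP, Finset.mem_filter] at hx hy
      obtain ⟨r, -, -, hr⟩ := hINT x y hxy
      have h1 := hr q hx.2 hy.2
      have h2 := hr o hx.1.2 hy.1.2
      exact hqo (h1.trans h2.symm)
    · rw [Nat.one_le_iff_ne_zero, Finset.card_ne_zero]
      obtain ⟨ℓ, hℓA, hℓo, hℓq⟩ := hM.2 q ((hZ q).1 hq)
      exact ⟨ℓ, by rw [Finset.mem_filter, hP, Finset.mem_filter]; exact ⟨⟨hℓA, hℓo⟩, hℓq⟩⟩
  -- the count
  have hsum : ∑ q ∈ Z'.erase o, (N.filter fun ℓ => On ℓ q).card = n * b := by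
    rw [← hR, ← Finset.add_sum_erase _ _ hoZ, hfil o, hNo, mul_zero, zero_add]
    apply Finset.sum_congr rfl
    intro q hq
    rw [Finset.mem_erase] at hq
    rw [hfil q, he q hq.2 hq.1, one_mul]
  rw [← Finset.add_sum_erase _ _ hoZ, hn]
  have h4 : ∑ q ∈ Z'.erase o, ((mult A q : ℝ) - 1) = (n : ℝ) * b := by
    have h5 : ∑ q ∈ Z'.erase o, ((mult A q : ℝ) - 1) =
        ∑ q ∈ Z'.erase o, (((N.filter fun ℓ => On ℓ q).card : ℕ) : ℝ) := by
      apply Finset.sum_congr rfl
      intro q hq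
      rw [Finset.mem_erase] at hq
      rw [hsplit q, he q hq.2 hq.1]
      push_cast
      ring
    rw [h5, ← Nat.cast_sum, hsum]
    push_cast
    ring
  rw [h4]

theorem p_MODC (hFS : Stmt_FS) (hINT : Stmt_INT) (hPEN : Stmt_PEN) : Stmt_MODC := by
  intro A Z o n b hZ hn hA hM
  have hs := MODC_sum hFS hINT A Z o n b hZ hn hA hM
  have hP := (hPEN A Z o n b hZ hn hA (hn ▸ hM.1)).2.2
  obtain ⟨Z', hZ', h2, -, -⟩ := hFS A
  have hZZ : Z' = Z := by
    ext p
    rw [hZ, hZ']
  subst hZZ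
  have hc2 : c2 A = 3 - 2 * (A.card : ℝ) + ∑ p ∈ Z', ((mult A p : ℝ) - 1) := by
    unfold c2
    rw [h2 fun m => (m : ℝ) - 1]
  have hc1 : c1 A = 9 - 5 * (A.card : ℝ) + ∑ p ∈ Z', (3 * (mult A p : ℝ) - 4) := by
    unfold c1
    rw [h2 fun m => 3 * (m : ℝ) - 4]
  have h3 : ∑ p ∈ Z', (3 * (mult A p : ℝ) - 4) =
      3 * ∑ p ∈ Z', ((mult A p : ℝ) - 1) - Z'.card := by
    have : ∀ p ∈ Z', (3 * (mult A p : ℝ) - 4) = 3 * ((mult A p : ℝ) - 1) - 1 := by
      intro p _
      ring
    rw [Finset.sum_congr rfl this, Finset.sum_sub_distrib, ← Finset.mul_sum]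
    simp
  have h4 : ∑ p ∈ Z', ((mult A p : ℝ) - 3) = ∑ p ∈ Z', ((mult A p : ℝ) - 1) - 2 * Z'.card := by
    have : ∀ p ∈ Z', ((mult A p : ℝ) - 3) = ((mult A p : ℝ) - 1) - 2 := by
      intro p _
      ring
    rw [Finset.sum_congr rfl this, Finset.sum_sub_distrib]
    simp
    ring
  rw [h3] at hc1
  rw [h4] at hP
  rw [hs] at hc1 hc2 hP
  rw [hA] at hc1 hc2
  push_cast at hc1 hc2
  refine ⟨?_, ?_, ?_⟩
  · rw [hc2]; ring
  · rw [hc1, hc2]; ring
  · linarith

end Pool.CSL
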