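import Pool.Agent.Work.MP_a0c695_csl.Interface

set_option autoImplicit false

namespace Pool.CSL

open Finset

theorem MU_mem {N : ℕ} (hN : 1 ≤ N) (x : ℂ) : x ∈ mu N ↔ x ^ N = 1 :=
  Polynomial.mem_nthRootsFinset hN 1

theorem MU_card {N : ℕ} (hN : 1 ≤ N) : (mu N).card = N :=
  (Complex.isPrimitiveRoot_exp N (by omega)).card_nthRootsFinset

theorem MU_cube {N : ℕ} (h3 : ¬ 3 ∣ N) {t : ℂ} (h1 : t ^ 3 = 1) (h2 : t ^ N = 1) : t = 1 := by
  have hc : Nat.Coprime 3 N := (Nat.Prime.coprime_iff_not_dvd Nat.prime_three).2 h3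
  have h := pow_gcd_eq_one.2 ⟨h1, h2⟩
  rw [Nat.Coprime.gcd_eq_one hc, pow_one] at h
  exact h

theorem MU_ne {N : ℕ} (hN : 1 ≤ N) {t : ℂ} (h : t ^ N = 1) : t ≠ 0 := by
  rintro rfl
  rw [zero_pow (by omega)] at h
  exact zero_ne_one h

theorem MU_inv {N : ℕ} {t : ℂ} (h : t ^ N = 1) : ((t ^ 2)⁻¹) ^ N = 1 := by
  rw [inv_pow, ← pow_mul, mul_comm, pow_mul, h, one_pow, inv_one]

open Classical in
theorem MU_tau {N : ℕ} (hN : 1 ≤ N) (h3 : ¬ 3 ∣ N) : tau (mu N) + (1 + 3 * (N - 1)) = N * N := by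
  set T := mu N with hT
  have hm : ∀ x, x ∈ T ↔ x ^ N = 1 := MU_mem hN
  have h1T : (1 : ℂ) ∈ T := by rw [hm]; exact one_pow N
  set E := T.erase 1 with hE
  have hEc : E.card = N - 1 := by rw [hE, card_erase_of_mem h1T, hT, MU_card hN]
  set p : ℂ × ℂ → Prop := fun x => x.1 ≠ x.2 ∧ (x.1 * x.2)⁻¹ ∈ T ∧ (x.1 * x.2)⁻¹ ≠ x.1 ∧
    (x.1 * x.2)⁻¹ ≠ x.2 with hp
  set E1 := E.image (fun s => (s, s)) with hE1
  set E2 := E.image (fun s => (s, (s ^ 2)⁻¹)) with hE2
  set E3 := E.image (fun s => ((s ^ 2)⁻¹, s)) with hE3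
  have c1 : E1.card = N - 1 := by
    rw [hE1, card_image_of_injective _ (fun a b h => (Prod.mk.inj h).1), hEc]
  have c2 : E2.card = N - 1 := by
    rw [hE2, card_image_of_injective _ (fun a b h => (Prod.mk.inj h).1), hEc]
  have c3 : E3.card = N - 1 := by
    rw [hE3, card_image_of_injective _ (fun a b h => (Prod.mk.inj h).2), hEc]
  have key : ∀ s ∈ E, s ^ 3 ≠ 1 := by
    intro s hs h
    obtain ⟨hs1, hs2⟩ := mem_erase.1 hs
    exact hs1 (MU_cube h3 h ((hm s).1 hs2))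
  have hne : ∀ s ∈ E, s ≠ 0 := fun s hs => MU_ne hN ((hm s).1 (mem_erase.1 hs).2)
  have d12 : Disjoint E1 E2 := by
    rw [disjoint_left]
    rintro x hx1 hx2
    obtain ⟨s, hs, rfl⟩ := mem_image.1 hx1
    obtain ⟨t, ht, h⟩ := mem_image.1 hx2
    obtain ⟨h4, h5⟩ := Prod.mk.inj h
    subst h4
    have h0 := hne t ht
    apply key t ht
    have : (t ^ 2)⁻¹ * t ^ 2 = t * t ^ 2 := by rw [h5]
    rw [inv_mul_cancel₀ (pow_ne_zero 2 h0)] at this
    rw [this]; ring
  have d13 : Disjoint E1 E3 := by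
    rw [disjoint_left]
    rintro x hx1 hx2
    obtain ⟨s, hs, rfl⟩ := mem_image.1 hx1
    obtain ⟨t, ht, h⟩ := mem_image.1 hx2
    obtain ⟨h4, h5⟩ := Prod.mk.inj h
    subst h5
    have h0 := hne t ht
    apply key t ht
    have : (t ^ 2)⁻¹ * t ^ 2 = t * t ^ 2 := by rw [h4]
    rw [inv_mul_cancel₀ (pow_ne_zero 2 h0)] at this
    rw [this]; ring
  have d23 : Disjoint E2 E3 := by
    rw [disjoint_left]
    rintro x hx1 hx2
    obtain ⟨s, hs, rfl⟩ := mem_image.1 hx1
    obtain ⟨t, ht, h⟩ := mem_image.1 hx2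
    obtain ⟨h4, h5⟩ := Prod.mk.inj h
    have h0 := hne t ht
    -- s = t⁻², t = s⁻² = t⁴
    apply key t ht
    rw [← h4, inv_pow, inv_inv] at h5
    have h6 : t * t ^ 3 = t * 1 := by
      rw [mul_one]
      calc t * t ^ 3 = (t ^ 2) ^ 2 := by ring
        _ = t := h5.symm
    exact mul_left_cancel₀ h0 h6
  set B := insert ((1 : ℂ), (1 : ℂ)) (E1 ∪ E2 ∪ E3) with hB
  have hnot : ((1 : ℂ), (1 : ℂ)) ∉ E1 ∪ E2 ∪ E3 := by
    intro h
    rcases mem_union.1 h with h | h
    · rcases mem_union.1 h with h | h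
      · obtain ⟨s, hs, h⟩ := mem_image.1 h
        exact (mem_erase.1 hs).1 (Prod.mk.inj h).1
      · obtain ⟨s, hs, h⟩ := mem_image.1 h
        exact (mem_erase.1 hs).1 (Prod.mk.inj h).1
    · obtain ⟨s, hs, h⟩ := mem_image.1 h
      exact (mem_erase.1 hs).1 (Prod.mk.inj h).2
  have cB : B.card = 1 + 3 * (N - 1) := by
    rw [hB, card_insert_of_notMem hnot, card_union_of_disjoint, card_union_of_disjoint d12, c1, c2,
      c3]
    · ring
    · rw [disjoint_union_left]; exact ⟨d13, d23⟩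
  have hsub : (T ×ˢ T).filter (fun x => ¬ p x) = B := by
    ext ⟨x, y⟩
    rw [mem_filter, mem_product]
    constructor
    · rintro ⟨⟨hx, hy⟩, hnp⟩
      have hx' := (hm x).1 hx
      have hy' := (hm y).1 hy
      have hx0 := MU_ne hN hx'
      have hy0 := MU_ne hN hy'
      have hxy : (x * y)⁻¹ ∈ T := by
        rw [hm, inv_pow, mul_pow, hx', hy', one_mul, inv_one]
      simp only [hp] at hnp
      by_cases h11 : x = 1 ∧ y = 1
      · rw [h11.1, h11.2]; exact mem_insert_self _ _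
      apply mem_insert_of_mem
      by_cases e1 : x = y
      · subst e1
        apply mem_union_left; apply mem_union_left
        exact mem_image.2 ⟨x, mem_erase.2 ⟨fun h => h11 ⟨h, h⟩, hx⟩, rfl⟩
      by_cases e2 : (x * y)⁻¹ = x
      · apply mem_union_left; apply mem_union_right
        have hyx : y = (x ^ 2)⁻¹ := by
          have : x * (x * y) = 1 := by
            nth_rewrite 1 [← e2]
            exact inv_mul_cancel₀ (mul_ne_zero hx0 hy0)
          rw [eq_comm, inv_eq_of_mul_eq_one_right]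
          rw [← this]; ring
        refine mem_image.2 ⟨x, mem_erase.2 ⟨fun h => h11 ⟨h, ?_⟩, hx⟩, ?_⟩
        · rw [hyx, h]; simp
        · rw [← hyx]
      by_cases e3 : (x * y)⁻¹ = y
      · apply mem_union_right
        have hyx : x = (y ^ 2)⁻¹ := by
          have : y * (x * y) = 1 := by
            nth_rewrite 1 [← e3]
            exact inv_mul_cancel₀ (mul_ne_zero hx0 hy0)
          rw [eq_comm, inv_eq_of_mul_eq_one_right]
          rw [← this]; ring
        refine mem_image.2 ⟨y, mem_erase.2 ⟨fun h => h11 ⟨?_, h⟩, hy⟩, ?_⟩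
        · rw [hyx, h]; simp
        · rw [← hyx]
      exact absurd ⟨e1, hxy, e2, e3⟩ hnp
    · intro h
      rcases mem_insert.1 h with h | h
      · obtain ⟨rfl, rfl⟩ := Prod.mk.inj h
        exact ⟨⟨h1T, h1T⟩, fun hh => hh.1 rfl⟩
      rcases mem_union.1 h with h | h
      · rcases mem_union.1 h with h | h
        · obtain ⟨s, hs, h⟩ := mem_image.1 h
          obtain ⟨rfl, rfl⟩ := Prod.mk.inj h
          have := (mem_erase.1 hs).2
          exact ⟨⟨this, this⟩, fun hh => hh.1 rfl⟩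
        · obtain ⟨s, hs, h⟩ := mem_image.1 h
          obtain ⟨rfl, rfl⟩ := Prod.mk.inj h
          have hsT := (mem_erase.1 hs).2
          have h0 := hne s hs
          refine ⟨⟨hsT, (hm _).2 (MU_inv ((hm s).1 hsT))⟩, fun hh => hh.2.2.1 ?_⟩
          show (s * (s ^ 2)⁻¹)⁻¹ = s
          field_simp
      · obtain ⟨s, hs, h⟩ := mem_image.1 h
        obtain ⟨rfl, rfl⟩ := Prod.mk.inj h
        have hsT := (mem_erase.1 hs).2
        have h0 := hne s hs
        refine ⟨⟨(hm _).2 (MU_inv ((hm s).1 hsT)), hsT⟩, fun hh => hh.2.2.2 ?_⟩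
        show ((s ^ 2)⁻¹ * s)⁻¹ = s
        field_simp
  have htau : tau T = ((T ×ˢ T).filter p).card := rfl
  rw [htau, ← cB, ← hsub, card_filter_add_card_filter_not, card_product, hT, MU_card hN]

theorem p_MU : Stmt_MU := by
  intro N hN h3
  refine ⟨MU_card hN, MU_mem hN, ?_⟩
  have h := MU_tau hN h3
  obtain ⟨m, rfl⟩ : ∃ m, N = m + 1 := ⟨N - 1, by omega⟩
  cases m with
  | zero => simp at h ⊢; omega
  | succ k =>
    have e1 : k + 1 + 1 - 1 = k + 1 := by omega
    have e2 : k + 1 + 1 - 2 = k := by omega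
    rw [e1] at h ⊢
    rw [e2]
    nlinarith

end Pool.CSL
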