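import Pool.Agent.Work.MP_a0c695_csl.Interface

/-! # Block NUM (helper17) -/

set_option autoImplicit false

namespace Pool.CSL

theorem NUM_even (M : ℕ) : ∃ e, 3 * M ^ 2 = 2 * e + M := by
  rcases Nat.even_or_odd' M with ⟨t, rfl | rfl⟩
  · have h1 : t ≤ 6 * t ^ 2 := by
      rcases Nat.eq_zero_or_pos t with h | h
      · subst h
        norm_num
      · nlinarith
    obtain ⟨e, he⟩ := Nat.exists_eq_add_of_le h1
    refine ⟨e, ?_⟩
    have h2 : 3 * (2 * t) ^ 2 = 2 * (6 * t ^ 2) := by ring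
    rw [h2, he]
    ring
  · exact ⟨6 * t ^ 2 + 5 * t + 1, by ring⟩

theorem p_NUM : Stmt_NUM := by
  intro a q k hq hqa h2 hk1 hk2
  obtain ⟨d, rfl⟩ := Nat.exists_eq_add_of_le hqa
  have hd : 2 * d + 1 ≤ q := by omega
  have had : q + d - q = d := by omega
  rw [had]
  set k' := 2 * (q + d) * d * k ^ 2 + (q + d + q) * k with hk'
  have hk0 : 0 < k := by omega
  have hk'0 : 1 ≤ k' := by
    have h3 : 1 ≤ (q + d + q) * k := Nat.mul_pos (by omega) hk0
    omega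
  have hex : ∃ M, 2 * k' + (M + 1) < 3 * (M + 1) ^ 2 := ⟨k', by nlinarith⟩
  classical
  obtain ⟨M, hM1, hM2⟩ : ∃ M, 2 * k' + (M + 1) < 3 * (M + 1) ^ 2 ∧
      ∀ m < M, ¬ (2 * k' + (m + 1) < 3 * (m + 1) ^ 2) :=
    ⟨Nat.find hex, Nat.find_spec hex, fun m hm => Nat.find_min hex hm⟩
  have hM0 : M ≠ 0 := by
    rintro rfl
    norm_num at hM1
    omega
  obtain ⟨m, rfl⟩ := Nat.exists_eq_succ_of_ne_zero hM0
  have hm := not_lt.1 (hM2 m (Nat.lt_succ_self m))
  obtain ⟨e, he⟩ := NUM_even (m + 1)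
  have he' : 3 * (m + 1) ^ 2 = 3 * m ^ 2 + 6 * m + 3 := by ring
  have hM1' : 2 * k' + (m + 2) < 3 * (m + 1) ^ 2 + 6 * (m + 1) + 3 := by
    have h3 : 3 * (m.succ + 1) ^ 2 = 3 * (m + 1) ^ 2 + 6 * (m + 1) + 3 := by
      rw [Nat.succ_eq_add_one]
      ring
    rw [h3, Nat.succ_eq_add_one] at hM1
    omega
  have hek : e ≤ k' := by omega
  obtain ⟨D, hD⟩ := Nat.exists_eq_add_of_le hek
  have hDM : D ≤ 3 * (m + 1) := by omega
  set s := Nat.sqrt D with hs
  have hs1 : s * s ≤ D := Nat.sqrt_le D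
  have hs2 : D < (s + 1) * (s + 1) := Nat.lt_succ_sqrt D
  have hsD : s ≤ D := by nlinarith [Nat.zero_le s]
  obtain ⟨R, hR⟩ := Nat.exists_eq_add_of_le hs1
  have hR2 : R ≤ 2 * s := by
    have h3 : (s + 1) * (s + 1) = s * s + 2 * s + 1 := by ring
    omega
  -- the size of `N`
  have hN : 3 * m + 2 ≤ (2 * (q + d) - 1) * k := by
    have h3 : (3 * m + 2) ^ 2 ≤ 6 * k' := by
      have h4 : (3 * m + 2) ^ 2 + (3 * m + 2) = 3 * (3 * (m + 1) ^ 2) - 3 * (m + 1) := by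
        have h5 : 3 * (3 * (m + 1) ^ 2) = (3 * m + 2) ^ 2 + (3 * m + 2) + 3 * (m + 1) := by ring
        omega
      omega
    have h4 : 6 * k' ≤ ((2 * (q + d) - 1) * k) ^ 2 := by
      obtain ⟨c, hc⟩ := Nat.exists_eq_add_of_le (show 1 ≤ q + d by omega)
      have h5 : 2 * (q + d) - 1 = 2 * c + 1 := by omega
      rw [h5, hk', hc]
      have h6 : 3 * d ≤ c := by omega
      have h7 : 6 * (1 + c + q) ≤ k := by
        have : 6 * (q + d + q) ≤ k := hk2
        omega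
      calc 6 * (2 * (1 + c) * d * k ^ 2 + (1 + c + q) * k)
          = 4 * (1 + c) * (3 * d) * k ^ 2 + (6 * (1 + c + q)) * k := by ring
        _ ≤ 4 * (1 + c) * c * k ^ 2 + k * k := by
            apply Nat.add_le_add
            · exact Nat.mul_le_mul_right _ (Nat.mul_le_mul_left _ h6)
            · exact Nat.mul_le_mul_right _ h7
        _ = ((2 * c + 1) * k) ^ 2 := by ring
    exact (Nat.pow_le_pow_iff_left (by norm_num : (2 : ℕ) ≠ 0)).1 (h3.trans h4)
  have hs4 : 4 * s ≤ k := by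
    have h3 : (4 * s) ^ 2 ≤ k ^ 2 := by
      have h4 : s * s ≤ (2 * (q + d) - 1) * k + 1 := by omega
      have h5 : (2 * (q + d) - 1) * k + k = 2 * (q + d) * k := by
        obtain ⟨c, hc⟩ := Nat.exists_eq_add_of_le (show 1 ≤ 2 * (q + d) by omega)
        have h6 : 2 * (q + d) - 1 = c := by omega
        rw [h6, hc]
        ring
      have h6 : (32 * (q + d) + 8) * k ≤ k * k := Nat.mul_le_mul_right _ hk1
      calc (4 * s) ^ 2 = 16 * (s * s) := by ring
        _ ≤ 16 * ((2 * (q + d) - 1) * k + 1) := Nat.mul_le_mul_left _ h4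
        _ ≤ 16 * ((2 * (q + d) - 1) * k + k) := Nat.mul_le_mul_left _ (by omega)
        _ = 16 * (2 * (q + d) * k) := by rw [h5]
        _ = 32 * (q + d) * k := by ring
        _ ≤ (32 * (q + d) + 8) * k := Nat.mul_le_mul_right _ (by omega)
        _ ≤ k ^ 2 := by rw [sq]; exact h6
    exact (Nat.pow_le_pow_iff_left (by norm_num : (2 : ℕ) ≠ 0)).1 h3
  have hsum : (2 * (q + d) - 1) * k + k = 2 * (q + d) * k := by
    obtain ⟨c, hc⟩ := Nat.exists_eq_add_of_le (show 1 ≤ 2 * (q + d) by omega)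
    have h6 : 2 * (q + d) - 1 = c := by omega
    rw [h6, hc]
    ring
  have hle : 3 * m + 4 + 2 * s + 1 + R ≤ 2 * (q + d) * k + 3 := by omega
  obtain ⟨J, hJ⟩ := Nat.exists_eq_add_of_le hle
  refine ⟨3 * m + 4, s, R, J, by omega, by omega, by omega, by omega, hJ.symm, ?_⟩
  have e1 : 3 * m + 4 - 1 = 3 * m + 3 := by omega
  have e2 : 3 * m + 4 - 2 = 3 * m + 2 := by omega
  rw [e1, e2, hD, hR]
  have e3 : (3 * m + 3) * (3 * m + 2) = 6 * e := by
    have h3 : (3 * m + 3) * (3 * m + 2) + 3 * (m + 1) = 3 * (3 * (m + 1) ^ 2) := by ring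
    rw [he] at h3
    omega
  rw [e3]
  ring

end Pool.CSL
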