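import Pool.Agent.Work.MP_a0c695_csl.Interface

/-! # Block PEN: the pencil of the lines through a point (helper84) -/

set_option autoImplicit false

namespace Pool.CSL

open Finset

open Classical in
theorem PEN_le_one (h1 : Stmt_INT) (A : Finset PL) (o q : PL) (hq : q ≠ o) :
    ((A.filter fun ℓ => On ℓ o).filter fun ℓ => On ℓ q).card ≤ 1 := by
  rw [Finset.card_le_one]
  intro ℓ hℓ ℓ' hℓ'
  simp only [mem_filter] at hℓ hℓ'
  by_contra hne
  obtain ⟨p, -, -, hp⟩ := h1 ℓ ℓ' hne
  exact hq ((hp q hℓ.2 hℓ'.2).trans (hp o hℓ.1.2 hℓ'.1.2).symm)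

open Classical in
theorem p_PEN (h1 : Stmt_INT) (h2 : Stmt_FS) : Stmt_PEN := by
  intro A Z o n b hZ hn hA hn2
  obtain ⟨Z', hZ', -, hR, -⟩ := h2 A
  have hZZ : Z' = Z := by
    ext p
    rw [hZ', hZ]
  subst hZZ
  set P : Finset PL := A.filter fun ℓ => On ℓ o with hP
  set N : Finset PL := A.filter fun ℓ => ¬ On ℓ o with hN
  have hPc : P.card = n := by
    rw [← hn]; rfl
  have hNc : N.card = b := by
    have h := card_filter_add_card_filter_not (s := A) (fun ℓ => On ℓ o)
    rw [← hP, ← hN, hPc, hA] at h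
    omega
  have hPA : ∀ ℓ ∈ P, ℓ ∈ A ∧ On ℓ o := fun ℓ h => by rwa [hP, mem_filter] at h
  have hNA : ∀ ℓ ∈ N, ℓ ∈ A ∧ ¬ On ℓ o := fun ℓ h => by rwa [hN, mem_filter] at h
  obtain ⟨e, he⟩ : ∃ e : PL → ℕ, e = fun q => (P.filter fun ℓ => On ℓ q).card := ⟨_, rfl⟩
  obtain ⟨k, hk⟩ : ∃ k : PL → ℕ, k = fun q => (N.filter fun ℓ => On ℓ q).card := ⟨_, rfl⟩
  have hm : ∀ q, mult A q = e q + k q := by
    intro q
    have h := card_filter_add_card_filter_not (s := A.filter fun ℓ => On ℓ q) (fun ℓ => On ℓ o)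
    have h5 : e q = ((A.filter fun ℓ => On ℓ q).filter fun ℓ => On ℓ o).card := by
      rw [he, hP]
      simp only [filter_filter]
      congr 1
      apply filter_congr
      intro x _
      tauto
    have h6 : k q = ((A.filter fun ℓ => On ℓ q).filter fun ℓ => ¬ On ℓ o).card := by
      rw [hk, hN]
      simp only [filter_filter]
      congr 1
      apply filter_congr
      intro x _
      tauto
    rw [h5, h6, h]
    rfl
  have heo : e o = n := by
    rw [he, ← hPc]
    show (P.filter fun ℓ => On ℓ o).card = _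
    congr 1
    rw [filter_eq_self]
    exact fun ℓ h => (hPA ℓ h).2
  have hko : k o = 0 := by
    rw [hk]
    show (N.filter fun ℓ => On ℓ o).card = _
    rw [card_eq_zero, filter_eq_empty_iff]
    exact fun ℓ h => (hNA ℓ h).2
  have he1 : ∀ q, q ≠ o → e q ≤ 1 := by
    intro q hq
    rw [he]
    exact PEN_le_one h1 A o q hq
  have hoZ : o ∈ Z' := by rw [hZ, hn]; exact hn2
  -- the two sums
  have hs1 : ∑ p ∈ Z', e p * k p = n * b := by
    have h := hR (P ×ˢ N) (by
      intro x hx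
      rw [mem_product] at hx
      refine ⟨(hPA _ hx.1).1, (hNA _ hx.2).1, fun hxx => ?_⟩
      exact (hNA _ hx.2).2 (hxx ▸ (hPA _ hx.1).2))
    rw [card_product, hPc, hNc] at h
    rw [← h]
    apply sum_congr rfl
    intro p _
    rw [he, hk]
    show (P.filter fun ℓ => On ℓ p).card * (N.filter fun ℓ => On ℓ p).card = _
    rw [← card_product]
    congr 1
    ext x
    simp only [mem_product, mem_filter]
    tauto
  have hs2 : ∑ p ∈ Z', (k p * k p - k p) = b * b - b := by
    have h := hR N.offDiag (by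
      intro x hx
      rw [mem_offDiag] at hx
      exact ⟨(hNA _ hx.1).1, (hNA _ hx.2.1).1, hx.2.2⟩)
    rw [offDiag_card, hNc] at h
    rw [← h]
    apply sum_congr rfl
    intro p _
    have h3 : k p * k p - k p = (N.filter fun ℓ => On ℓ p).offDiag.card := by
      rw [offDiag_card, hk]
    rw [h3]
    congr 1
    ext x
    simp only [mem_offDiag, mem_filter]
    tauto
  have hs1' : ∑ p ∈ Z', ((e p : ℝ) * k p) = n * b := by exact_mod_cast hs1
  have hs2' : ∑ p ∈ Z', ((k p : ℝ) * (k p - 1)) = b * (b - 1) := by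
    have h4 : ∀ x : ℕ, ((x * x - x : ℕ) : ℝ) = (x : ℝ) * (x - 1) := by
      intro x
      rw [Nat.cast_sub (Nat.le_mul_self x)]
      push_cast
      ring
    rw [← h4 b, ← hs2, Nat.cast_sum]
    exact sum_congr rfl fun p _ => (h4 (k p)).symm
  rw [← add_sum_erase _ _ hoZ, hko] at hs1' hs2'
  have hmr : ∀ q, (mult A q : ℝ) = e q + k q := by
    intro q
    rw [hm q]
    push_cast
    ring
  rw [← add_sum_erase _ _ hoZ, ← add_sum_erase _ _ hoZ (a := o), hn]
  have hcase : ∀ q ∈ Z'.erase o, (e q = 0 ∧ 2 ≤ k q) ∨ (e q = 1 ∧ 1 ≤ k q) := by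
    intro q hq
    rw [mem_erase, hZ, hm] at hq
    have := he1 q hq.1
    omega
  have t1 : ∑ q ∈ Z'.erase o, ((e q : ℝ) * k q) ≤ ∑ q ∈ Z'.erase o, ((mult A q : ℝ) - 1) := by
    apply sum_le_sum
    intro q hq
    rw [hmr]
    rcases hcase q hq with ⟨h5, h6⟩ | ⟨h5, h6⟩
    · rw [h5]
      have : (2 : ℝ) ≤ k q := by exact_mod_cast h6
      push_cast
      linarith
    · rw [h5]
      push_cast
      linarith
  have t2 : ∑ q ∈ Z'.erase o, ((mult A q : ℝ) - 3) ≤
      ∑ q ∈ Z'.erase o, (-((e q : ℝ) * k q) + (k q : ℝ) * (k q - 1)) := by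
    apply sum_le_sum
    intro q hq
    rw [hmr]
    rcases hcase q hq with ⟨h5, h6⟩ | ⟨h5, h6⟩
    · rw [h5]
      push_cast
      nlinarith [sq_nonneg ((k q : ℝ) - 1)]
    · rw [h5]
      push_cast
      have h7 : (0 : ℝ) ≤ ((k q : ℝ) - 1) * (k q - 2) := by
        have h8 : k q = 1 ∨ 2 ≤ k q := by omega
        rcases h8 with h8 | h8
        · rw [h8]; norm_num
        · have : (2 : ℝ) ≤ k q := by exact_mod_cast h8
          apply mul_nonneg <;> linarith
      nlinarith
  have t3 : ∑ q ∈ Z'.erase o, ((mult A q : ℝ) - 3) ≤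
      ∑ q ∈ Z'.erase o, ((-((e q : ℝ) * k q) + (k q : ℝ) * (k q - 1)) / 3) := by
    apply sum_le_sum
    intro q hq
    rw [hmr]
    rcases hcase q hq with ⟨h5, h6⟩ | ⟨h5, h6⟩
    · rw [h5]
      push_cast
      nlinarith [sq_nonneg ((k q : ℝ) - 2)]
    · rw [h5]
      push_cast
      have h7 : (0 : ℝ) ≤ ((k q : ℝ) - 2) * (k q - 3) := by
        have h8 : k q = 1 ∨ k q = 2 ∨ 3 ≤ k q := by omega
        rcases h8 with h8 | h8 | h8
        · rw [h8]; norm_num
        · rw [h8]; norm_num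
        · have : (3 : ℝ) ≤ k q := by exact_mod_cast h8
          apply mul_nonneg <;> linarith
      nlinarith
  rw [← sum_div] at t3
  rw [sum_add_distrib, sum_neg_distrib] at t2 t3
  refine ⟨?_, ?_, ?_⟩
  · push_cast at *
    linarith
  · push_cast at *
    linarith
  · push_cast at *
    linarith

end Pool.CSL
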