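import Pool.Agent.Work.MP_a0c695_csl.Interface

/-! # Block RAT (MP_a0c695, note 2897): every rational in [2, 5/2) is a slope (helper59) -/

set_option autoImplicit false

namespace Pool.CSL

open Finset

theorem p_RAT (hTRI : Stmt_TRI) (hCTT : Stmt_CTT) (hTEX : Stmt_TEX) (hNUM : Stmt_NUM) :
    Stmt_RAT := by
  intro x hx2 hx5 N₀
  -- numerator and denominator
  obtain ⟨q, hq, P, hxP⟩ : ∃ q : ℕ, 0 < q ∧ ∃ P : ℕ, x = (P : ℚ) / q := by
    refine ⟨x.den, x.den_pos, x.num.toNat, ?_⟩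
    have hx0 : 0 ≤ x := by linarith
    have hn : 0 ≤ x.num := Rat.num_nonneg.mpr hx0
    have h1 : ((x.num.toNat : ℤ) : ℚ) = (x.num : ℚ) := by rw [Int.toNat_of_nonneg hn]
    have h2 : ((x.num.toNat : ℕ) : ℚ) = (x.num : ℚ) := by
      rw [← h1]; norm_cast
    rw [h2]
    exact (Rat.num_div_den x).symm
  have hq' : (0 : ℚ) < q := by exact_mod_cast hq
  have h2 : 2 * q ≤ P := by
    have : (2 : ℚ) * q ≤ P := by
      rw [hxP, le_div_iff₀ hq'] at hx2
      exact hx2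
    exact_mod_cast this
  have h5 : 2 * P < 5 * q := by
    have : (2 : ℚ) * P < 5 * q := by
      rw [hxP, div_lt_iff₀ hq'] at hx5
      linarith
    exact_mod_cast this
  obtain ⟨a, rfl⟩ : ∃ a, P = a + q := ⟨P - q, by omega⟩
  have hqa : q ≤ a := by omega
  have ha3 : 2 * a < 3 * q := by omega
  obtain ⟨k, hk1, hk2, hk3, hk4⟩ : ∃ k : ℕ, 32 * a + 8 ≤ k ∧ 6 * (a + q) ≤ k ∧ N₀ ≤ k ∧ 1 ≤ k :=
    ⟨32 * a + 8 + 6 * (a + q) + N₀ + 1, by omega, by omega, by omega, by omega⟩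
  obtain ⟨N, s, r, J, hN, hN3, hs, hr, hd, ht⟩ := hNUM a q k hq hqa ha3 hk1 hk2
  obtain ⟨T, hT0, hTc, hTt⟩ := hTEX N s r J hN hN3 hs hr
  obtain ⟨A, hAc, hA3, hAt⟩ := hTRI T hT0
  have hcard : A.card = 2 * a * k + 3 := by rw [hAc, hTc, hd]
  have ht3 : ({p | mult A p = 3} : Set PL).ncard = 2 * a * (a - q) * k ^ 2 + (a + q) * k := by
    rw [hTt, ht] at hAt
    omega
  obtain ⟨hc1, hc2⟩ := hCTT A hA3
  have ha1 : 1 ≤ a := by omega
  have hak : 1 ≤ a * k := Nat.one_le_iff_ne_zero.mpr (by positivity)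
  have hkak : k ≤ a * k := Nat.le_mul_of_pos_left k ha1
  refine ⟨A, ?_, ⟨?_, ?_⟩, hA3, ?_⟩
  · rw [hcard, mul_assoc]; omega
  · rw [hcard]; omega
  · intro p
    have := hA3 p
    rw [hcard, mul_assoc]; omega
  · have hsub : ((a - q : ℕ) : ℝ) = (a : ℝ) - q := Nat.cast_sub hqa
    have hcR : (A.card : ℝ) = 2 * a * k + 3 := by rw [hcard]; push_cast; ring
    have htR : (({p | mult A p = 3} : Set PL).ncard : ℝ) =
        2 * a * ((a : ℝ) - q) * k ^ 2 + (a + q) * k := by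
      rw [ht3]; push_cast [hsub]; ring
    rw [hcR, htR] at hc1 hc2
    have e1 : c1 A = (((a : ℝ) + q) * (k * (2 * a * k - 1))) := by rw [hc1]; ring
    have e2 : c2 A = ((q : ℝ) * (k * (2 * a * k - 1))) := by rw [hc2]; ring
    have hkR : (1 : ℝ) ≤ k := by exact_mod_cast hk4
    have hakR : (1 : ℝ) ≤ (a : ℝ) * k := by exact_mod_cast hak
    have hne : (k : ℝ) * (2 * a * k - 1) ≠ 0 := by
      have : (0 : ℝ) < 2 * a * k - 1 := by nlinarith
      positivity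
    unfold slope
    rw [e1, e2, mul_div_mul_right _ _ hne, hxP]
    push_cast
    ring

end Pool.CSL
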