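import Pool.Agent.Work.MP_a0c695_csl.Interface

set_option autoImplicit false

namespace Pool.CSL

open Finset Filter Topology

theorem SUP_arith (n b z ε s : ℝ) (hs : s ^ 2 = 7) (hs0 : 2 < s) (hs1 : s < 3) (hε : 0 < ε)
    (hn : 3 ≤ n) (hb : n + 1 ≤ b) (hd : 32 / ε + 16 ≤ n + b)
    (h1 : n * (b + 1) + 1 ≤ z + n * n)
    (h2 : n * b + n * b / 3 - b * (b - 1) / 3 ≤ 2 * (z - 1)) :
    ((5 - s) / 6 - ε) * ((n - 2) * (b - 1)) ≤ z - (n + b) := by
  have hd' : 32 + 16 * ε ≤ (n + b) * ε := by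
    have := mul_le_mul_of_nonneg_right hd hε.le
    have h3 : (32 / ε + 16) * ε = 32 + 16 * ε := by field_simp
    linarith
  have hd16 : 16 ≤ n + b := by
    have : 0 ≤ 32 / ε := by positivity
    linarith
  by_cases hc : 6 * n ≤ (1 + s) * b
  · -- first case
    have e1 : (n - 1) * (b - n - 1) ≤ z - (n + b) := by nlinarith
    have e2 : (n - 2) * (b - n - 1) ≤ (n - 1) * (b - n - 1) := by
      apply mul_le_mul_of_nonneg_right <;> linarith
    have e3 : ((5 - s) / 6 - ε) * (b - 1) ≤ b - n - 1 := by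
      have hb2 : (n + b) * ε ≤ 2 * b * ε := by
        apply mul_le_mul_of_nonneg_right _ hε.le
        linarith
      nlinarith
    have e4 : (n - 2) * (((5 - s) / 6 - ε) * (b - 1)) ≤ (n - 2) * (b - n - 1) :=
      mul_le_mul_of_nonneg_left e3 (by linarith)
    nlinarith
  · push Not at hc
    have hnb : b / 2 ≤ n := by nlinarith
    have e1 : b * b / 3 ≤ ((1 + s) / 3 - 2 / 3) * (n * b) := by
      have : b / 3 ≤ ((1 + s) / 3 - 2 / 3) * n := by nlinarith
      have h5 := mul_le_mul_of_nonneg_right this (by linarith : (0:ℝ) ≤ b)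
      nlinarith
    have e2 : n + b ≤ ε * ((n - 2) * (b - 1)) := by
      have f1 : (n + b) / 8 ≤ n - 2 := by linarith
      have f2 : (n + b) / 4 ≤ b - 1 := by linarith
      have f3 : (n + b) / 8 * ((n + b) / 4) ≤ (n - 2) * (b - 1) := by
        apply mul_le_mul f1 f2 <;> linarith
      have f4 : (n + b) * 32 ≤ (n + b) * ((n + b) * ε) := by
        apply mul_le_mul_of_nonneg_left <;> nlinarith
      nlinarith
    nlinarith

theorem p_SUP (h1 : Stmt_MODP) (h2 : Stmt_MODC) (h3 : Stmt_HALF) (h4 : Stmt_FS) : Stmt_SUP := by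
  intro ε hε
  obtain ⟨D, hD⟩ := exists_nat_ge (32 / ε + 16)
  refine ⟨D, ?_⟩
  intro A hA hDA hM
  have s7 : Real.sqrt 7 ^ 2 = 7 := Real.sq_sqrt (by norm_num)
  have s2 : 2 < Real.sqrt 7 := by
    rw [Real.lt_sqrt (by norm_num)]; norm_num
  have s3 : Real.sqrt 7 < 3 := by
    rw [Real.sqrt_lt' (by norm_num)]; norm_num
  by_cases hH : Half A
  · have := h3 A hA hH
    linarith
  obtain ⟨o, ho⟩ := hM
  have hno : ∀ p, 2 * mult A p < A.card := by
    intro p
    by_contra hcon
    exact hH ⟨p, by omega⟩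
  have hn2 : 2 ≤ mult A o := ho.1
  obtain ⟨Z, hZ, -, -, -⟩ := h4 A
  obtain ⟨b, hb⟩ : ∃ b, A.card = mult A o + b := ⟨A.card - mult A o, by have := hno o; omega⟩
  have hnb : mult A o + 1 ≤ b := by have := hno o; omega
  have hq : ∀ q, mult A q ≤ b := by intro q; have := hno q; omega
  have k1 := h1 A Z o _ b hZ rfl hb ho hq
  obtain ⟨k2, k3, k4⟩ := h2 A Z o _ b hZ rfl hb ho
  rcases Nat.lt_or_ge (mult A o) 3 with hlt | hge
  · have hn : mult A o = 2 := by omega
    have : slope A = 0 := by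
      unfold slope
      rw [k2, hn]
      norm_num
    rw [this]
    linarith
  · have hn3 : (3 : ℝ) ≤ (mult A o : ℝ) := by exact_mod_cast hge
    have hbr : (mult A o : ℝ) + 1 ≤ (b : ℝ) := by exact_mod_cast hnb
    have hdr : 32 / ε + 16 ≤ (mult A o : ℝ) + b := by
      have : (D : ℝ) ≤ (A.card : ℝ) := by exact_mod_cast hDA
      rw [hb] at this
      push_cast at this
      linarith
    have k1r : (mult A o : ℝ) * (b + 1) + 1 ≤ (Z.card : ℝ) + (mult A o : ℝ) * mult A o := by
      exact_mod_cast k1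
    have key := SUP_arith (mult A o) b Z.card ε (Real.sqrt 7) s7 s2 s3 hε hn3 hbr hdr k1r k4
    have hc2 : 0 < c2 A := by
      rw [k2]
      apply mul_pos <;> linarith
    unfold slope
    rw [div_le_iff₀ hc2, k3]
    rw [← k2] at key
    nlinarith

end Pool.CSL
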