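import Pool.Agent.Work.MP_a0c695_csl.Interface
set_option autoImplicit false

/-! # Block TEX: the sets with a prescribed number of triples of product one -/

namespace Pool.CSL
open Finset

open Classical in
/-- the elements of `T` which form a triple with `x` -/
noncomputable def TEX_c (T : Finset ℂ) (x : ℂ) : ℕ :=
  (T.filter fun s => (s * x)⁻¹ ∈ T ∧ (s * x)⁻¹ ≠ s).card

open Classical in
theorem TEX_add (hINS : Stmt_INS) (T B : Finset ℂ) (c : ℕ) (hT : (0 : ℂ) ∉ T) (hB : (0 : ℂ) ∉ B)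
    (hd : Disjoint T B) (h : ∀ B' ⊆ B, ∀ x ∈ B, x ∉ B' → TEX_c (T ∪ B') x = c) :
    tau (T ∪ B) = tau T + 3 * c * B.card := by
  have key : ∀ B' : Finset ℂ, B' ⊆ B → tau (T ∪ B') = tau T + 3 * c * B'.card := by
    intro B'
    induction B' using Finset.induction_on with
    | empty => intro _; simp
    | insert x B' hx ih =>
      intro hsub
      have hxB := hsub (mem_insert_self _ _)
      have hB'B : B' ⊆ B := (subset_insert _ _).trans hsub
      have h1 := ih hB'B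
      have h0 : (0 : ℂ) ∉ T ∪ B' := by
        rw [mem_union]
        rintro (h' | h')
        · exact hT h'
        · exact hB (hB'B h')
      have hx0 : x ≠ 0 := by rintro rfl; exact hB hxB
      have hxT : x ∉ T ∪ B' := by
        rw [mem_union]
        rintro (h' | h')
        · exact (disjoint_left.1 hd) h' hxB
        · exact hx h'
      have h2 := hINS (T ∪ B') x h0 hx0 hxT
      have h3 := h B' hB'B x hxB hx
      unfold TEX_c at h3
      rw [union_insert, h2, h3, h1, card_insert_of_notMem hx]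
      ring
  exact key B (Subset.refl _)

theorem TEX_rel {a b x : ℂ} (ha : a ≠ 0) (hx : x ≠ 0) (h : (a * x)⁻¹ = b) : ‖a‖ * ‖b‖ * ‖x‖ = 1 := by
  rw [← h, norm_inv, norm_mul]
  have h1 := norm_pos_iff.2 ha
  have h2 := norm_pos_iff.2 hx
  field_simp

theorem TEX_zero (T : Finset ℂ) (x : ℂ) (hT : (0 : ℂ) ∉ T) (hx : x ≠ 0)
    (h : ∀ a ∈ T, ∀ b ∈ T, ‖a‖ * ‖b‖ * ‖x‖ ≠ 1) : TEX_c T x = 0 := by
  unfold TEX_c
  rw [card_eq_zero, filter_eq_empty_iff]
  rintro a ha ⟨hb, _⟩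
  exact h a ha _ hb (TEX_rel (by rintro rfl; exact hT ha) hx rfl)

open Classical in
theorem TEX_two (T U : Finset ℂ) (x : ℂ) (n : ℝ) (hT : (0 : ℂ) ∉ T) (hx : x ≠ 0) (hU : U ⊆ T)
    (hUn : ∀ a ∈ U, ‖a‖ = n) (hn : n ≠ 1) (hU1 : ∀ a ∈ U, (a * x)⁻¹ ∈ T) (hxn : n * ‖x‖ = 1)
    (hall : ∀ a ∈ T, ∀ b ∈ T, ‖a‖ * ‖b‖ * ‖x‖ = 1 → a ∈ U ∨ b ∈ U) : TEX_c T x = 2 * U.card := by
  have hinv : ∀ a : ℂ, ((a * x)⁻¹ * x)⁻¹ = a := by
    intro a
    rcases eq_or_ne a 0 with rfl | ha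
    · simp
    · field_simp
  have hn1 : ∀ a ∈ U, ‖(a * x)⁻¹‖ = 1 := by
    intro a ha
    rw [norm_inv, norm_mul, hUn a ha, hxn, inv_one]
  have hne : ∀ a ∈ U, (a * x)⁻¹ ≠ a := by
    intro a ha he
    have h1 := hn1 a ha
    rw [he, hUn a ha] at h1
    exact hn h1
  have heq : (T.filter fun s => (s * x)⁻¹ ∈ T ∧ (s * x)⁻¹ ≠ s) = U ∪ U.image (fun a => (a * x)⁻¹) := by
    ext a
    rw [mem_filter, mem_union, mem_image]
    constructor
    · rintro ⟨ha, hb, hab⟩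
      rcases hall a ha _ hb (TEX_rel (by rintro rfl; exact hT ha) hx rfl) with h | h
      · exact Or.inl h
      · exact Or.inr ⟨_, h, hinv a⟩
    · rintro (h | ⟨c, hc, rfl⟩)
      · exact ⟨hU h, hU1 a h, hne a h⟩
      · refine ⟨hU1 c hc, ?_, ?_⟩
        · rw [hinv]; exact hU hc
        · rw [hinv]; exact (hne c hc).symm
  unfold TEX_c
  rw [heq, card_union_of_disjoint, card_image_of_injective]
  · ring
  · intro a b hab
    have h1 : ((a * x)⁻¹ * x)⁻¹ = ((b * x)⁻¹ * x)⁻¹ := by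
      have h2 : (a * x)⁻¹ = (b * x)⁻¹ := hab
      rw [h2]
    rw [hinv, hinv] at h1
    exact h1
  · rw [disjoint_left]
    intro a ha ha'
    rw [mem_image] at ha'
    obtain ⟨c, hc, rfl⟩ := ha'
    have h1 := hn1 c hc
    have h2 := hUn _ ha
    exact hn (h2.symm.trans h1)

open Classical in
theorem p_TEX (hMU : Stmt_MU) (hINS : Stmt_INS) : Stmt_TEX := by
  intro N s r J hN h3 hs hr
  obtain ⟨hcard, hmem, htau⟩ := hMU N hN h3
  obtain ⟨S, hSM, hS⟩ := exists_subset_card_eq (hs.trans_eq hcard.symm)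
  obtain ⟨R, hRM, hR⟩ := exists_subset_card_eq (hr.trans_eq hcard.symm)
  have hNM : ∀ a ∈ mu N, ‖a‖ = 1 := by
    intro a ha
    exact Complex.norm_eq_one_of_pow_eq_one ((hmem a).1 ha) (by omega)
  have hmulinv : ∀ a ∈ mu N, ∀ b ∈ mu N, (a * b)⁻¹ ∈ mu N := by
    intro a ha b hb
    rw [hmem] at ha hb ⊢
    rw [inv_pow, mul_pow, ha, hb]; norm_num
  -- the sets
  obtain ⟨A, hA⟩ : ∃ A : Finset ℂ, A = S.image (fun z => 2 * z) := ⟨_, rfl⟩
  obtain ⟨A', hA'⟩ : ∃ A' : Finset ℂ, A' = S.image (fun z => (1 / 2) * z) := ⟨_, rfl⟩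
  obtain ⟨B, hB⟩ : ∃ B : Finset ℂ, B = R.image (fun z => (1 / 3) * z) := ⟨_, rfl⟩
  obtain ⟨C, hC⟩ : ∃ C : Finset ℂ, C = (range J).image (fun j => ((10 + j : ℕ) : ℂ)) := ⟨_, rfl⟩
  have hAc : A.card = s := by
    rw [hA, card_image_of_injective, hS]
    intro a b hab
    have : (2 : ℂ) * a = 2 * b := hab
    exact mul_left_cancel₀ (by norm_num) this
  have hA'c : A'.card = s := by
    rw [hA', card_image_of_injective, hS]
    intro a b hab
    have : (1 / 2 : ℂ) * a = 1 / 2 * b := hab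
    exact mul_left_cancel₀ (by norm_num) this
  have hBc : B.card = r := by
    rw [hB, card_image_of_injective, hR]
    intro a b hab
    have : (1 / 3 : ℂ) * a = 1 / 3 * b := hab
    exact mul_left_cancel₀ (by norm_num) this
  have hCc : C.card = J := by
    rw [hC, card_image_of_injective, card_range]
    intro a b hab
    have : ((10 + a : ℕ) : ℂ) = ((10 + b : ℕ) : ℂ) := hab
    have := Nat.cast_injective this
    omega
  have hNA : ∀ a ∈ A, ‖a‖ = 2 ∧ ∃ z ∈ mu N, a = 2 * z := by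
    intro a ha
    rw [hA, mem_image] at ha
    obtain ⟨z, hz, rfl⟩ := ha
    refine ⟨?_, z, hSM hz, rfl⟩
    rw [norm_mul, hNM z (hSM hz)]; norm_num
  have hNA' : ∀ a ∈ A', ‖a‖ = 1 / 2 ∧ ∃ z ∈ mu N, a = (1 / 2) * z := by
    intro a ha
    rw [hA', mem_image] at ha
    obtain ⟨z, hz, rfl⟩ := ha
    refine ⟨?_, z, hSM hz, rfl⟩
    rw [norm_mul, hNM z (hSM hz)]; norm_num
  have hNB : ∀ a ∈ B, ‖a‖ = 1 / 3 ∧ ∃ z ∈ mu N, a = (1 / 3) * z := by
    intro a ha
    rw [hB, mem_image] at ha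
    obtain ⟨z, hz, rfl⟩ := ha
    refine ⟨?_, z, hRM hz, rfl⟩
    rw [norm_mul, hNM z (hRM hz)]; norm_num
  have hNC : ∀ a ∈ C, 10 ≤ ‖a‖ := by
    intro a ha
    rw [hC, mem_image] at ha
    obtain ⟨j, hj, rfl⟩ := ha
    rw [Complex.norm_natCast]
    push_cast
    linarith [(Nat.cast_nonneg j : (0 : ℝ) ≤ j)]
  have hN3 : ‖(3 : ℂ)‖ = 3 := by norm_num
  -- zero
  have hz : ∀ (X : Finset ℂ), (∀ a ∈ X, ‖a‖ ≠ 0) → (0 : ℂ) ∉ X := by
    intro X hX h0
    exact hX 0 h0 (by simp)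
  have hM0 : (0 : ℂ) ∉ mu N := hz _ (fun a ha => by rw [hNM a ha]; norm_num)
  have hA0 : (0 : ℂ) ∉ A := hz _ (fun a ha => by rw [(hNA a ha).1]; norm_num)
  have hA'0 : (0 : ℂ) ∉ A' := hz _ (fun a ha => by rw [(hNA' a ha).1]; norm_num)
  have hB0 : (0 : ℂ) ∉ B := hz _ (fun a ha => by rw [(hNB a ha).1]; norm_num)
  have hC0 : (0 : ℂ) ∉ C := hz _ (fun a ha => by have := hNC a ha; linarith)
  have h30 : (0 : ℂ) ∉ ({3} : Finset ℂ) := by simp
  have hdis : ∀ (X Y : Finset ℂ), (∀ a ∈ X, ∀ b ∈ Y, ‖a‖ ≠ ‖b‖) → Disjoint X Y := by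
    intro X Y h
    rw [disjoint_left]
    intro a ha hb
    exact h a ha a hb rfl
  have hne0 : ∀ {X : Finset ℂ} {x : ℂ}, (0 : ℂ) ∉ X → x ∈ X → x ≠ 0 := by
    rintro X x h0 hx rfl
    exact h0 hx
  have h0u : ∀ {X Y : Finset ℂ}, (0 : ℂ) ∉ X → (0 : ℂ) ∉ Y → (0 : ℂ) ∉ X ∪ Y := by
    intro X Y h1 h2
    rw [mem_union]; tauto
  have h0s : ∀ {X Y : Finset ℂ}, (0 : ℂ) ∉ X → Y ⊆ X → (0 : ℂ) ∉ Y := by
    intro X Y h1 h2 h3
    exact h1 (h2 h3)
  -- step 1
  have d1 : Disjoint (mu N) A := hdis _ _ (fun a ha b hb => by rw [hNM a ha, (hNA b hb).1]; norm_num)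
  have s1 : tau (mu N ∪ A) = tau (mu N) + 3 * 0 * A.card := by
    apply TEX_add hINS _ _ _ hM0 hA0 d1
    intro B' hB' x hx _
    apply TEX_zero _ _ (h0u hM0 (h0s hA0 hB')) (hne0 hA0 hx)
    intro a ha b hb
    rw [(hNA x hx).1]
    rw [mem_union] at ha hb
    rcases ha with ha | ha <;> rcases hb with hb | hb
    · rw [hNM a ha, hNM b hb]; norm_num
    · rw [hNM a ha, (hNA b (hB' hb)).1]; norm_num
    · rw [(hNA a (hB' ha)).1, hNM b hb]; norm_num
    · rw [(hNA a (hB' ha)).1, (hNA b (hB' hb)).1]; norm_num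
  -- norms of the elements
  have n1 : ∀ a ∈ mu N ∪ A, ‖a‖ = 1 ∨ (‖a‖ = 2 ∧ a ∈ A) := by
    intro a ha
    rw [mem_union] at ha
    rcases ha with ha | ha
    · exact Or.inl (hNM a ha)
    · exact Or.inr ⟨(hNA a ha).1, ha⟩
  have hM1 : (0 : ℂ) ∉ mu N ∪ A := h0u hM0 hA0
  -- step 2
  have d2 : Disjoint (mu N ∪ A) A' := hdis _ _ (fun a ha b hb => by
    rw [(hNA' b hb).1]
    rcases n1 a ha with h | ⟨h, _⟩ <;> rw [h] <;> norm_num)
  have s2 : tau (mu N ∪ A ∪ A') = tau (mu N ∪ A) + 3 * (2 * s) * A'.card := by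
    apply TEX_add hINS _ _ _ hM1 hA'0 d2
    intro B' hB' x hx _
    rw [← hAc]
    obtain ⟨hxn, z, hzM, hxz⟩ := hNA' x hx
    apply TEX_two _ A x 2 (h0u hM1 (h0s hA'0 hB')) (hne0 hA'0 hx)
    · intro a ha
      exact mem_union_left _ (mem_union_right _ ha)
    · intro a ha
      exact (hNA a ha).1
    · norm_num
    · intro a ha
      obtain ⟨_, w, hw, haw⟩ := hNA a ha
      apply mem_union_left
      apply mem_union_left
      have : a * x = w * z := by rw [haw, hxz]; ring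
      rw [this]
      exact hmulinv w hw z hzM
    · rw [hxn]; norm_num
    · intro a ha b hb hab
      rw [hxn] at hab
      have n1' : ∀ c ∈ mu N ∪ A ∪ B', ‖c‖ = 1 ∨ (‖c‖ = 2 ∧ c ∈ A) ∨ ‖c‖ = 1 / 2 := by
        intro c hc
        rw [mem_union] at hc
        rcases hc with hc | hc
        · rcases n1 c hc with h | h
          · exact Or.inl h
          · exact Or.inr (Or.inl h)
        · exact Or.inr (Or.inr (hNA' c (hB' hc)).1)
      rcases n1' a ha with h1 | ⟨_, h1⟩ | h1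
      · rcases n1' b hb with h2 | ⟨_, h2⟩ | h2
        · rw [h1, h2] at hab; norm_num at hab
        · exact Or.inr h2
        · rw [h1, h2] at hab; norm_num at hab
      · exact Or.inl h1
      · rcases n1' b hb with h2 | ⟨_, h2⟩ | h2
        · rw [h1, h2] at hab; norm_num at hab
        · exact Or.inr h2
        · rw [h1, h2] at hab; norm_num at hab
  have n2 : ∀ a ∈ mu N ∪ A ∪ A', ‖a‖ = 1 ∨ ‖a‖ = 2 ∨ ‖a‖ = 1 / 2 := by
    intro a ha
    rw [mem_union] at ha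
    rcases ha with ha | ha
    · rcases n1 a ha with h | ⟨h, _⟩
      · exact Or.inl h
      · exact Or.inr (Or.inl h)
    · exact Or.inr (Or.inr (hNA' a ha).1)
  have hM2 : (0 : ℂ) ∉ mu N ∪ A ∪ A' := h0u hM1 hA'0
  -- step 3
  have d3 : Disjoint (mu N ∪ A ∪ A') {3} := hdis _ _ (fun a ha b hb => by
    rw [mem_singleton] at hb
    rw [hb, hN3]
    rcases n2 a ha with h | h | h <;> rw [h] <;> norm_num)
  have s3 : tau (mu N ∪ A ∪ A' ∪ {3}) = tau (mu N ∪ A ∪ A') + 3 * 0 * ({3} : Finset ℂ).card := by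
    apply TEX_add hINS _ _ _ hM2 h30 d3
    intro B' hB' x hx hxB'
    rw [mem_singleton] at hx
    have hBe : B' = ∅ := by
      rcases subset_singleton_iff.1 hB' with h | h
      · exact h
      · exfalso; apply hxB'; rw [h, hx]; exact mem_singleton_self _
    rw [hBe, union_empty]
    apply TEX_zero _ _ hM2 (by rw [hx]; norm_num)
    intro a ha b hb
    rw [hx, hN3]
    rcases n2 a ha with h1 | h1 | h1 <;> rcases n2 b hb with h2 | h2 | h2 <;> rw [h1, h2] <;> norm_num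
  have n3 : ∀ a ∈ mu N ∪ A ∪ A' ∪ {3}, ‖a‖ = 1 ∨ ‖a‖ = 2 ∨ ‖a‖ = 1 / 2 ∨ (‖a‖ = 3 ∧ a ∈ ({3} : Finset ℂ)) := by
    intro a ha
    rw [mem_union] at ha
    rcases ha with ha | ha
    · rcases n2 a ha with h | h | h
      · exact Or.inl h
      · exact Or.inr (Or.inl h)
      · exact Or.inr (Or.inr (Or.inl h))
    · refine Or.inr (Or.inr (Or.inr ⟨?_, ha⟩))
      rw [mem_singleton] at ha
      rw [ha, hN3]
  have hM3 : (0 : ℂ) ∉ mu N ∪ A ∪ A' ∪ {3} := h0u hM2 h30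
  -- step 4
  have d4 : Disjoint (mu N ∪ A ∪ A' ∪ {3}) B := hdis _ _ (fun a ha b hb => by
    rw [(hNB b hb).1]
    rcases n3 a ha with h | h | h | ⟨h, _⟩ <;> rw [h] <;> norm_num)
  have s4 : tau (mu N ∪ A ∪ A' ∪ {3} ∪ B) = tau (mu N ∪ A ∪ A' ∪ {3}) + 3 * 2 * B.card := by
    apply TEX_add hINS _ _ _ hM3 hB0 d4
    intro B' hB' x hx _
    obtain ⟨hxn, z, hzM, hxz⟩ := hNB x hx
    have h2 : 2 * ({3} : Finset ℂ).card = 2 := by simp
    refine Eq.trans ?_ h2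
    apply TEX_two _ {3} x 3 (h0u hM3 (h0s hB0 hB')) (hne0 hB0 hx)
    · intro a ha
      exact mem_union_left _ (mem_union_right _ ha)
    · intro a ha
      rw [mem_singleton] at ha
      rw [ha, hN3]
    · norm_num
    · intro a ha
      rw [mem_singleton] at ha
      apply mem_union_left
      apply mem_union_left
      apply mem_union_left
      apply mem_union_left
      have h1 : a * x = z := by rw [ha, hxz]; ring
      have h2 : a * x = 1 * z := by rw [h1, one_mul]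
      rw [h2]
      exact hmulinv 1 ((hmem 1).2 (one_pow _)) z hzM
    · rw [hxn]; norm_num
    · intro a ha b hb hab
      rw [hxn] at hab
      have n3' : ∀ c ∈ mu N ∪ A ∪ A' ∪ {3} ∪ B', (‖c‖ = 1 ∨ ‖c‖ = 2 ∨ ‖c‖ = 1 / 2 ∨ ‖c‖ = 1 / 3) ∨
          c ∈ ({3} : Finset ℂ) := by
        intro c hc
        rw [mem_union] at hc
        rcases hc with hc | hc
        · rcases n3 c hc with h | h | h | h
          · exact Or.inl (Or.inl h)
          · exact Or.inl (Or.inr (Or.inl h))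
          · exact Or.inl (Or.inr (Or.inr (Or.inl h)))
          · exact Or.inr h.2
        · exact Or.inl (Or.inr (Or.inr (Or.inr (hNB c (hB' hc)).1)))
      rcases n3' a ha with h1 | h1
      · rcases n3' b hb with h2 | h2
        · exfalso
          rcases h1 with h1 | h1 | h1 | h1 <;> rcases h2 with h2 | h2 | h2 | h2 <;>
            (rw [h1, h2] at hab; norm_num at hab)
        · exact Or.inr h2
      · exact Or.inl h1
  have n4 : ∀ a ∈ mu N ∪ A ∪ A' ∪ {3} ∪ B, ‖a‖ < 10 ∧ 1 / 3 ≤ ‖a‖ := by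
    intro a ha
    rw [mem_union] at ha
    rcases ha with ha | ha
    · rcases n3 a ha with h | h | h | ⟨h, _⟩ <;> rw [h] <;> norm_num
    · rw [(hNB a ha).1]; norm_num
  have hM4 : (0 : ℂ) ∉ mu N ∪ A ∪ A' ∪ {3} ∪ B := h0u hM3 hB0
  -- step 5
  have d5 : Disjoint (mu N ∪ A ∪ A' ∪ {3} ∪ B) C := hdis _ _ (fun a ha b hb => by
    have h1 := (n4 a ha).1
    have h2 := hNC b hb
    intro h; linarith)
  have s5 : tau (mu N ∪ A ∪ A' ∪ {3} ∪ B ∪ C) = tau (mu N ∪ A ∪ A' ∪ {3} ∪ B) + 3 * 0 * C.card := by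
    apply TEX_add hINS _ _ _ hM4 hC0 d5
    intro B' hB' x hx _
    apply TEX_zero _ _ (h0u hM4 (h0s hC0 hB')) (hne0 hC0 hx)
    have n4' : ∀ c ∈ mu N ∪ A ∪ A' ∪ {3} ∪ B ∪ B', 1 / 3 ≤ ‖c‖ := by
      intro c hc
      rw [mem_union] at hc
      rcases hc with hc | hc
      · exact (n4 c hc).2
      · have := hNC c (hB' hc); linarith
    intro a ha b hb hab
    have h1 := n4' a ha
    have h2 := n4' b hb
    have h3 := hNC x hx
    have h4 : (1 / 3 : ℝ) * (1 / 3) ≤ ‖a‖ * ‖b‖ := mul_le_mul h1 h2 (by norm_num) (by linarith)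
    have h5 : (1 / 3 : ℝ) * (1 / 3) * 10 ≤ ‖a‖ * ‖b‖ * ‖x‖ := mul_le_mul h4 h3 (by norm_num) (by linarith)
    rw [hab] at h5
    norm_num at h5
  refine ⟨mu N ∪ A ∪ A' ∪ {3} ∪ B ∪ C, h0u hM4 hC0, ?_, ?_⟩
  · rw [card_union_of_disjoint d5, card_union_of_disjoint d4, card_union_of_disjoint d3,
      card_union_of_disjoint d2, card_union_of_disjoint d1, hcard, hAc, hA'c, hBc, hCc, card_singleton]
    ring
  · rw [s5, s4, s3, s2, s1, htau, hA'c, hBc]
    ring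

end Pool.CSL
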