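import Pool.Agent.Work.MP_a0c695_csl.Interface

set_option autoImplicit false

namespace Pool.CSL

open Finset

/-- the coordinates of the lines -/
noncomputable def TRI_v (t : ℂ) : Fin 3 → ℂ := ![t ^ 2, t, t ^ 3 - 1]

theorem TRI_v_ne (t : ℂ) : TRI_v t ≠ 0 := by
  intro h
  have h1 := congrFun h 1
  have h2 := congrFun h 2
  simp only [TRI_v, Matrix.cons_val_one, Matrix.cons_val_zero, Matrix.cons_val, Pi.zero_apply]
    at h1 h2
  rw [h1] at h2
  norm_num at h2

/-- the lines -/
noncomputable def TRI_L (t : ℂ) : PL := Projectivization.mk ℂ (TRI_v t) (TRI_v_ne t)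

theorem TRI_L_inj : Function.Injective TRI_L := by
  intro s t h
  rw [TRI_L, TRI_L, Projectivization.mk_eq_mk_iff'] at h
  obtain ⟨c, hc⟩ := h
  have h0 := congrFun hc 0
  have h1 := congrFun hc 1
  simp only [TRI_v, Pi.smul_apply, Matrix.cons_val_zero, Matrix.cons_val_one,
    smul_eq_mul] at h0 h1
  -- c * t ^ 2 = s ^ 2, c * t = s
  by_cases ht : t = 0
  · rw [ht] at h1; rw [ht, ← h1, mul_zero]
  · have h2 : c * t ^ 2 * (c - 1) = 0 := by
      rw [← h1] at h0
      linear_combination -h0
    rcases mul_eq_zero.1 h2 with h3 | h3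
    · rcases mul_eq_zero.1 h3 with h4 | h4
      · have hs : s = 0 := by rw [← h1, h4, zero_mul]
        have h2' := congrFun hc 2
        simp only [TRI_v, Pi.smul_apply, Matrix.cons_val, smul_eq_mul] at h2'
        rw [h4, hs] at h2'
        norm_num at h2'
      · exact absurd (pow_eq_zero_iff (two_ne_zero)|>.1 h4) ht
    · have : c = 1 := sub_eq_zero.1 h3
      rw [← h1, this, one_mul]

theorem TRI_on (t : ℂ) (p : PL) :
    On (TRI_L t) p ↔ p.rep 2 * t ^ 3 + p.rep 0 * t ^ 2 + p.rep 1 * t - p.rep 2 = 0 := by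
  rw [TRI_L, On_mk_left]
  have h : dotProduct (TRI_v t) p.rep =
      p.rep 2 * t ^ 3 + p.rep 0 * t ^ 2 + p.rep 1 * t - p.rep 2 := by
    simp only [dotProduct, Fin.sum_univ_three, TRI_v, Matrix.cons_val_zero, Matrix.cons_val_one,
      Matrix.cons_val]
    ring
  rw [h]

theorem TRI_third {s t : ℂ} {p : PL} (hs : s ≠ 0) (ht : t ≠ 0) (hst : s ≠ t)
    (h1 : On (TRI_L s) p) (h2 : On (TRI_L t) p) (w : ℂ) :
    On (TRI_L w) p ↔ w = s ∨ w = t ∨ w = (s * t)⁻¹ := by
  rw [TRI_on] at h1 h2 ⊢
  set x := p.rep 0 with hx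
  set y := p.rep 1 with hy
  set z := p.rep 2 with hz
  have hst' : s - t ≠ 0 := sub_ne_zero.2 hst
  have e1 : z * (s ^ 2 + s * t + t ^ 2) + x * (s + t) + y = 0 := by
    apply mul_left_cancel₀ hst'
    linear_combination h1 - h2
  have e2 : z * (s * t) * (s + t) + x * (s * t) + z = 0 := by
    apply mul_left_cancel₀ hst'
    linear_combination t * h1 - s * h2
  have hm : s * t ≠ 0 := mul_ne_zero hs ht
  have hz0 : z ≠ 0 := by
    intro h0
    rw [h0] at e1 e2
    have hx0 : x = 0 := by
      have : x * (s * t) = 0 := by linear_combination e2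
      rcases mul_eq_zero.1 this with h | h
      · exact h
      · exact absurd h hm
    have hy0 : y = 0 := by
      rw [hx0] at e1
      linear_combination e1
    apply p.rep_nonzero
    funext i
    fin_cases i
    · exact hx0
    · exact hy0
    · exact h0
  have key : (s * t) * (z * w ^ 3 + x * w ^ 2 + y * w - z) =
      z * (w - s) * (w - t) * (s * t * w - 1) := by
    have ex : x * (s * t) = - z * (s * t) * (s + t) - z := by linear_combination e2
    have ey : y = - z * (s ^ 2 + s * t + t ^ 2) - x * (s + t) := by linear_combination e1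
    rw [ey]
    linear_combination (w ^ 2 - (s + t) * w) * ex
  constructor
  · intro h
    rw [h, mul_zero] at key
    have h3 := mul_eq_zero.1 key.symm
    rcases h3 with h3 | h3
    · rcases mul_eq_zero.1 h3 with h4 | h4
      · rcases mul_eq_zero.1 h4 with h5 | h5
        · exact absurd h5 hz0
        · exact Or.inl (sub_eq_zero.1 h5)
      · exact Or.inr (Or.inl (sub_eq_zero.1 h4))
    · refine Or.inr (Or.inr ?_)
      have : s * t * w = 1 := sub_eq_zero.1 h3
      exact eq_inv_of_mul_eq_one_right this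
  · intro h
    have h3 : z * (w - s) * (w - t) * (s * t * w - 1) = 0 := by
      rcases h with h | h | h
      · rw [h]; ring
      · rw [h]; ring
      · rw [h, mul_inv_cancel₀ hm]; ring
    rw [h3] at key
    exact (mul_eq_zero.1 key).resolve_left hm

open Classical in
theorem p_TRI (_h1 : Stmt_INT) (h2 : Stmt_FS) : Stmt_TRI := by
  intro T hT
  have hT0 : ∀ t ∈ T, t ≠ 0 := fun t ht h => hT (h ▸ ht)
  let A : Finset PL := T.image TRI_L
  -- the roots in T
  let Rp : PL → Finset ℂ := fun p => T.filter fun t => On (TRI_L t) p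
  have hmult : ∀ p, mult A p = (Rp p).card := by
    intro p
    have : (A.filter fun ℓ => On ℓ p) = (Rp p).image TRI_L := by
      ext ℓ
      simp only [A, Rp, mem_filter, mem_image]
      constructor
      · rintro ⟨⟨t, ht, rfl⟩, h⟩
        exact ⟨t, ⟨ht, h⟩, rfl⟩
      · rintro ⟨t, ⟨ht, h⟩, rfl⟩
        exact ⟨⟨t, ht, rfl⟩, h⟩
    rw [mult, this, card_image_of_injective _ TRI_L_inj]
  have hR : ∀ p s t, s ∈ Rp p → t ∈ Rp p → s ≠ t →
      ∀ w ∈ Rp p, w = s ∨ w = t ∨ w = (s * t)⁻¹ := by
    intro p s t hs ht hst w hw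
    have hs' := mem_filter.1 hs
    have ht' := mem_filter.1 ht
    have hw' := mem_filter.1 hw
    exact (TRI_third (hT0 s hs'.1) (hT0 t ht'.1) hst hs'.2 ht'.2 w).1 hw'.2
  have hle : ∀ p, (Rp p).card ≤ 3 := by
    intro p
    by_contra hcon
    push Not at hcon
    obtain ⟨s, hs, t, ht, hst⟩ := one_lt_card.1 (by omega : 1 < (Rp p).card)
    have hsub : Rp p ⊆ {s, t, (s * t)⁻¹} := by
      intro w hw
      have := hR p s t hs ht hst w hw
      simp only [mem_insert, mem_singleton]
      exact this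
    have := (card_le_card hsub).trans (card_le_three)
    omega
  refine ⟨A, card_image_of_injective _ TRI_L_inj, fun p => (hmult p).trans_le (hle p), ?_⟩
  obtain ⟨Z, hZ, -, hFS, -⟩ := h2 A
  let R₀ : Finset (ℂ × ℂ) := (T ×ˢ T).filter fun x => x.1 ≠ x.2 ∧ (x.1 * x.2)⁻¹ ∈ T ∧
    (x.1 * x.2)⁻¹ ≠ x.1 ∧ (x.1 * x.2)⁻¹ ≠ x.2
  let F : ℂ × ℂ → PL × PL := fun x => (TRI_L x.1, TRI_L x.2)
  have hF : Function.Injective F := by
    rintro ⟨a, b⟩ ⟨c, d⟩ h
    have h' := Prod.mk.inj h
    exact Prod.ext (TRI_L_inj h'.1) (TRI_L_inj h'.2)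
  have hcard : (R₀.image F).card = tau T := by
    rw [card_image_of_injective _ hF]
    rfl
  have hsum := hFS (R₀.image F) (by
    intro x hx
    obtain ⟨⟨s, t⟩, hst, rfl⟩ := mem_image.1 hx
    have h3 := mem_filter.1 hst
    have h4 := mem_product.1 h3.1
    exact ⟨mem_image_of_mem _ h4.1, mem_image_of_mem _ h4.2,
      fun h => h3.2.1 (TRI_L_inj h)⟩)
  have hfib : ∀ p ∈ Z, ((R₀.image F).filter fun x => On x.1 p ∧ On x.2 p).card =
      if mult A p = 3 then 6 else 0 := by
    intro p _
    have himg : ((R₀.image F).filter fun x => On x.1 p ∧ On x.2 p) =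
        (R₀.filter fun x => x.1 ∈ Rp p ∧ x.2 ∈ Rp p).image F := by
      ext x
      simp only [mem_filter, mem_image]
      constructor
      · rintro ⟨⟨y, hy, rfl⟩, h⟩
        have hy' := mem_filter.1 hy
        have h4 := mem_product.1 hy'.1
        exact ⟨y, ⟨hy, mem_filter.2 ⟨h4.1, h.1⟩, mem_filter.2 ⟨h4.2, h.2⟩⟩, rfl⟩
      · rintro ⟨y, ⟨hy, h1, h2⟩, rfl⟩
        exact ⟨⟨y, hy, rfl⟩, (mem_filter.1 h1).2, (mem_filter.1 h2).2⟩
    rw [himg, card_image_of_injective _ hF, hmult p]
    by_cases h3 : (Rp p).card = 3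
    · rw [if_pos h3]
      have : (R₀.filter fun x => x.1 ∈ Rp p ∧ x.2 ∈ Rp p) = (Rp p).offDiag := by
        ext ⟨s, t⟩
        simp only [mem_filter, mem_offDiag]
        constructor
        · rintro ⟨h, h1, h2⟩
          exact ⟨h1, h2, (mem_filter.1 h).2.1⟩
        · rintro ⟨h1, h2, h4⟩
          have hsub : ({s, t} : Finset ℂ) ⊆ Rp p := by
            intro w hw
            simp only [mem_insert, mem_singleton] at hw
            rcases hw with rfl | rfl
            · exact h1
            · exact h2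
          have hc2 : ({s, t} : Finset ℂ).card = 2 := card_pair h4
          obtain ⟨w, hw, hw'⟩ := exists_mem_notMem_of_card_lt_card
            (show ({s, t} : Finset ℂ).card < (Rp p).card by omega)
          simp only [mem_insert, mem_singleton, not_or] at hw'
          have hwu : w = (s * t)⁻¹ := by
            rcases hR p s t h1 h2 h4 w hw with h | h | h
            · exact absurd h hw'.1
            · exact absurd h hw'.2
            · exact h
          refine ⟨mem_filter.2 ⟨mem_product.2 ⟨(mem_filter.1 h1).1, (mem_filter.1 h2).1⟩, h4, ?_,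
            ?_, ?_⟩, h1, h2⟩
          · show (s * t)⁻¹ ∈ T
            rw [← hwu]; exact (mem_filter.1 hw).1
          · show (s * t)⁻¹ ≠ s
            rw [← hwu]; exact hw'.1
          · show (s * t)⁻¹ ≠ t
            rw [← hwu]; exact hw'.2
      rw [this, offDiag_card, h3]
    · rw [if_neg h3, card_eq_zero, filter_eq_empty_iff]
      rintro ⟨s, t⟩ hst ⟨h1, h2⟩
      have h5 := mem_filter.1 hst
      have h6 : s ≠ t := h5.2.1
      have h7 : (s * t)⁻¹ ∈ T := h5.2.2.1
      have h8 : (s * t)⁻¹ ≠ s := h5.2.2.2.1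
      have h9 : (s * t)⁻¹ ≠ t := h5.2.2.2.2
      have hs' := mem_filter.1 h1
      have ht' := mem_filter.1 h2
      have h10 : (s * t)⁻¹ ∈ Rp p := mem_filter.2 ⟨h7,
        (TRI_third (hT0 s hs'.1) (hT0 t ht'.1) h6 hs'.2 ht'.2 _).2 (Or.inr (Or.inr rfl))⟩
      have hsub : ({s, t, (s * t)⁻¹} : Finset ℂ) ⊆ Rp p := by
        intro w hw
        simp only [mem_insert, mem_singleton] at hw
        rcases hw with rfl | rfl | rfl
        · exact h1
        · exact h2
        · exact h10
      have hc3 : ({s, t, (s * t)⁻¹} : Finset ℂ).card = 3 := by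
        rw [card_eq_three]
        exact ⟨s, t, _, h6, h8.symm, h9.symm, rfl⟩
      have := card_le_card hsub
      have := hle p
      omega
  rw [sum_congr rfl hfib, hcard] at hsum
  rw [← hsum, sum_ite, sum_const_zero, add_zero, sum_const, smul_eq_mul, mul_comm]
  congr 1
  rw [← Set.ncard_coe_finset]
  congr 1
  ext p
  simp only [Set.mem_ofPred_eq, coe_filter]
  constructor
  · intro h
    exact ⟨(hZ p).2 (by omega), h⟩
  · exact fun h => h.2

end Pool.CSL
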