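import Pool.Agent.Work.MP_a0c695_csl.Interface

/-! # Block UP: the upper bound for the class of part (1) -/

set_option autoImplicit false

namespace Pool.CSL

open Finset Filter Topology

theorem p_UP (h1 : Stmt_HALF) (h2 : Stmt_BIG) (h3 : Stmt_FEWB) : Stmt_UP := by
  intro K ε hε
  obtain ⟨D, hD⟩ := h2 (((K : ℝ) + 4) / (2 * ε) + 1)
  refine ⟨D, ?_⟩
  intro A hA hDA hc
  by_cases hH : Half A
  · have := h1 A hA hH
    linarith
  · have hF : Few K A := by
      rcases hc with h | h
      · exact h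
      · exact absurd h hH
    have hB := hD A hA hDA hH
    have hW := h3 K A hF
    have hd : (3 : ℝ) ≤ A.card := by exact_mod_cast hA.1
    have hK : (0 : ℝ) ≤ K := Nat.cast_nonneg K
    have hC : 0 < ((K : ℝ) + 4) / (2 * ε) + 1 := by positivity
    have hc2 : 0 < c2 A := lt_of_lt_of_le (mul_pos hC (by linarith)) hB
    have h4 : ((K : ℝ) + 4) * A.card ≤ 2 * ε * c2 A := by
      have h5 : 2 * ε * ((((K : ℝ) + 4) / (2 * ε) + 1) * A.card) ≤ 2 * ε * c2 A :=
        mul_le_mul_of_nonneg_left hB (by positivity)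
      have h6 : 2 * ε * ((((K : ℝ) + 4) / (2 * ε) + 1) * A.card) =
          ((K : ℝ) + 4) * A.card + 2 * ε * A.card := by
        field_simp
      have h7 : 0 ≤ 2 * ε * (A.card : ℝ) := by positivity
      linarith
    unfold slope
    rw [div_le_iff₀ hc2]
    nlinarith

end Pool.CSL
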