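import Pool.Agent.Work.MP_a0c695_csl.B_INT
import Pool.Agent.Work.MP_a0c695_csl.B_FS
import Pool.Agent.Work.MP_a0c695_csl.B_PEN
import Pool.Agent.Work.MP_a0c695_csl.B_CC
import Pool.Agent.Work.MP_a0c695_csl.B_BIG
import Pool.Agent.Work.MP_a0c695_csl.B_FEWB
import Pool.Agent.Work.MP_a0c695_csl.B_HALF
import Pool.Agent.Work.MP_a0c695_csl.B_UP
import Pool.Agent.Work.MP_a0c695_csl.B_LO
import Pool.Agent.Work.MP_a0c695_csl.B_HEAVY
import Pool.Agent.Work.MP_a0c695_csl.B_FIN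
import Pool.Agent.Work.MP_a0c695_csl.B_ACC
import Pool.Agent.Work.MP_a0c695_csl.B_TRI
import Pool.Agent.Work.MP_a0c695_csl.B_CTT
import Pool.Agent.Work.MP_a0c695_csl.B_MU
import Pool.Agent.Work.MP_a0c695_csl.B_INS
import Pool.Agent.Work.MP_a0c695_csl.B_TEX
import Pool.Agent.Work.MP_a0c695_csl.B_NUM
import Pool.Agent.Work.MP_a0c695_csl.B_RAT
import Pool.Agent.Work.MP_a0c695_csl.B_GG
import Pool.Agent.Work.MP_a0c695_csl.B_LAM
import Pool.Agent.Work.MP_a0c695_csl.B_MODP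
import Pool.Agent.Work.MP_a0c695_csl.B_MODC
import Pool.Agent.Work.MP_a0c695_csl.B_SUP
import Pool.Agent.Work.MP_a0c695_csl.B_MAIN

/-! # Chern slopes of complex line arrangements: assembly (MP_a0c695, note 2897, helper1) -/

set_option autoImplicit false

namespace Pool.CSL

theorem all_INT : Stmt_INT := p_INT
theorem all_FS : Stmt_FS := p_FS all_INT
theorem all_PEN : Stmt_PEN := p_PEN all_INT all_FS
theorem all_CC : Stmt_CC := p_CC all_FS all_PEN
theorem all_BIG : Stmt_BIG := p_BIG all_FS all_CC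
theorem all_FEWB : Stmt_FEWB := p_FEWB all_INT all_FS
theorem all_HALF : Stmt_HALF := p_HALF all_CC
theorem all_UP : Stmt_UP := p_UP all_HALF all_BIG all_FEWB
theorem all_LO : Stmt_LO := p_LO all_CC all_BIG all_FS
theorem all_HEAVY : Stmt_HEAVY := p_HEAVY all_CC all_HALF
theorem all_FIN : Stmt_FIN := p_FIN all_FS
theorem all_ACC : Stmt_ACC := p_ACC all_FIN
theorem all_TRI : Stmt_TRI := p_TRI all_INT all_FS
theorem all_CTT : Stmt_CTT := p_CTT all_FS
theorem all_MU : Stmt_MU := p_MU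
theorem all_INS : Stmt_INS := p_INS
theorem all_TEX : Stmt_TEX := p_TEX all_MU all_INS
theorem all_NUM : Stmt_NUM := p_NUM
theorem all_RAT : Stmt_RAT := p_RAT all_TRI all_CTT all_TEX all_NUM
theorem all_GG : Stmt_GG := p_GG
theorem all_LAM : Stmt_LAM := p_LAM all_GG
theorem all_MODP : Stmt_MODP := p_MODP all_INT all_LAM
theorem all_MODC : Stmt_MODC := p_MODC all_FS all_INT all_PEN
theorem all_SUP : Stmt_SUP := p_SUP all_MODP all_MODC all_HALF all_FS
theorem all_MAIN : Stmt_MAIN := p_MAIN all_HALF all_UP all_LO all_HEAVY all_ACC all_RAT all_SUP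

end Pool.CSL
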