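import Pool.Agent.Work.MP_a0c695_csl.Interface
set_option autoImplicit false

/-! Block FIN: finitely many slopes for bounded `d` (MP_a0c695, helper65). -/

namespace Pool.CSL

open Finset Filter Topology

theorem FIN_int (h : Stmt_FS) (A : Finset PL) (D : ℕ) (hA : A.card < D) :
    ∃ i j : ℤ, (-(9 + 5 * (D : ℤ) + 3 * (D * D)) ≤ i ∧ i ≤ 9 + 5 * (D : ℤ) + 3 * (D * D)) ∧
      (-(9 + 5 * (D : ℤ) + 3 * (D * D)) ≤ j ∧ j ≤ 9 + 5 * (D : ℤ) + 3 * (D * D)) ∧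
      c1 A = i ∧ c2 A = j := by
  classical
  obtain ⟨Z, hZ, hs, -, hc⟩ := h A
  have key : ∀ p ∈ Z, 0 ≤ 3 * (mult A p : ℤ) - 4 ∧ 0 ≤ (mult A p : ℤ) - 1 ∧
      3 * (mult A p : ℤ) - 4 ≤ 3 * ((mult A p * (mult A p - 1) : ℕ) : ℤ) ∧
      (mult A p : ℤ) - 1 ≤ 3 * ((mult A p * (mult A p - 1) : ℕ) : ℤ) := by
    intro p hp
    have h2 := (hZ p).1 hp
    obtain ⟨k, hk⟩ := Nat.exists_eq_add_of_le h2
    rw [hk]
    have e : 2 + k - 1 = k + 1 := by omega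
    rw [e]
    push_cast
    have hk0 : (0 : ℤ) ≤ k := Int.natCast_nonneg k
    refine ⟨by linarith, by linarith, by nlinarith, by nlinarith⟩
  have hsum : ∑ p ∈ Z, 3 * ((mult A p * (mult A p - 1) : ℕ) : ℤ) = 3 * ((A.card * (A.card - 1) : ℕ) : ℤ) := by
    rw [← mul_sum, ← hc]
    push_cast
    rfl
  have hD : ((A.card * (A.card - 1) : ℕ) : ℤ) ≤ D * D := by
    have : A.card * (A.card - 1) ≤ D * D := Nat.mul_le_mul hA.le (by omega)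
    exact_mod_cast this
  have hA' : (A.card : ℤ) < D := by exact_mod_cast hA
  have hA0 : (0 : ℤ) ≤ A.card := Int.natCast_nonneg _
  have hDD : (0 : ℤ) ≤ (D : ℤ) * D := by positivity
  have s1 : 0 ≤ ∑ p ∈ Z, (3 * (mult A p : ℤ) - 4) := sum_nonneg (fun p hp => (key p hp).1)
  have s2 : 0 ≤ ∑ p ∈ Z, ((mult A p : ℤ) - 1) := sum_nonneg (fun p hp => (key p hp).2.1)
  have s3 : ∑ p ∈ Z, (3 * (mult A p : ℤ) - 4) ≤ ∑ p ∈ Z, 3 * ((mult A p * (mult A p - 1) : ℕ) : ℤ) :=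
    sum_le_sum (fun p hp => (key p hp).2.2.1)
  have s4 : ∑ p ∈ Z, ((mult A p : ℤ) - 1) ≤ ∑ p ∈ Z, 3 * ((mult A p * (mult A p - 1) : ℕ) : ℤ) :=
    sum_le_sum (fun p hp => (key p hp).2.2.2)
  rw [hsum] at s3 s4
  refine ⟨9 - 5 * (A.card : ℤ) + ∑ p ∈ Z, (3 * (mult A p : ℤ) - 4),
    3 - 2 * (A.card : ℤ) + ∑ p ∈ Z, ((mult A p : ℤ) - 1), ⟨by linarith, by linarith⟩,
    ⟨by linarith, by linarith⟩, ?_, ?_⟩
  · unfold c1
    rw [hs (fun m => 3 * (m : ℝ) - 4)]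
    push_cast
    rfl
  · unfold c2
    rw [hs (fun m => (m : ℝ) - 1)]
    push_cast
    rfl

theorem p_FIN (h1 : Stmt_FS) : Stmt_FIN := by
  intro D
  have hfin : ((fun x : ℤ × ℤ => (x.1 : ℝ) / (x.2 : ℝ)) ''
      ((Set.Icc (-(9 + 5 * (D : ℤ) + 3 * (D * D))) (9 + 5 * (D : ℤ) + 3 * (D * D))) ×ˢ
        (Set.Icc (-(9 + 5 * (D : ℤ) + 3 * (D * D))) (9 + 5 * (D : ℤ) + 3 * (D * D))))).Finite :=
    ((Set.finite_Icc _ _).prod (Set.finite_Icc _ _)).image _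
  refine hfin.subset ?_
  rintro r ⟨A, hA, rfl⟩
  obtain ⟨i, j, hi, hj, e1, e2⟩ := FIN_int h1 A D hA
  refine ⟨(i, j), ⟨⟨hi.1, hi.2⟩, ⟨hj.1, hj.2⟩⟩, ?_⟩
  unfold slope
  rw [e1, e2]

end Pool.CSL
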