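import Pool.Agent.Work.MP_a0c695_csl.Interface

/-! # Block INT: two distinct lines meet in exactly one point (helper63) -/

set_option autoImplicit false

namespace Pool.CSL

open Finset

theorem p_INT : Stmt_INT := by
  classical
  intro ℓ ℓ' h
  refine ⟨Projectivization.cross ℓ ℓ', ?_, ?_, ?_⟩
  · rw [On_iff]
    exact Projectivization.orthogonal_cross_left h
  · rw [On_iff]
    exact Projectivization.orthogonal_cross_right h
  · intro q h1 h2
    rw [On_iff] at h1 h2
    rcases Configuration.ofField.eq_or_eq_of_orthogonal h1 h2
      (Projectivization.orthogonal_cross_left h) (Projectivization.orthogonal_cross_right h) with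
      h3 | h3
    · exact absurd h3 h
    · exact h3

end Pool.CSL
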