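import Pool.Agent.Work.MP_a0c695_csl.Interface

/-! # Block MODP: the intersection points of a supersolvable arrangement (helper36) -/

set_option autoImplicit false

namespace Pool.CSL

open Finset

/-- The three vectors are independent. -/
def MODP_Ind (e u v : Fin 3 → ℂ) : Prop :=
  ∀ x y z : ℂ, x • e + y • u + z • v = 0 → x = 0 ∧ y = 0 ∧ z = 0

/-- The three vectors separate. -/
def MODP_Sep (e u v : Fin 3 → ℂ) : Prop :=
  ∀ m : Fin 3 → ℂ, dotProduct m e = 0 → dotProduct m u = 0 → dotProduct m v = 0 → m = 0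

/-- The vector `x e - y u + v`. -/
def MODP_w (e u v : Fin 3 → ℂ) (x y : ℂ) : Fin 3 → ℂ := x • e + (-y) • u + (1 : ℂ) • v

theorem MODP_dual (S : Finset PL) : ∃ u : Fin 3 → ℂ, ∀ M ∈ S, dotProduct M.rep u ≠ 0 := by
  classical
  let f : S → Module.Dual ℂ (Fin 3 → ℂ) := fun i =>
    { toFun := fun u => dotProduct i.1.rep u
      map_add' := fun x y => dotProduct_add _ x y
      map_smul' := fun c x => dotProduct_smul c _ x }
  have h : ∀ i, ∃ x, f i x ≠ 0 := by
    intro i
    by_contra hc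
    push Not at hc
    exact i.1.rep_nonzero (dotProduct_eq_zero _ hc)
  obtain ⟨u, hu⟩ := Module.Dual.exists_forall_ne_zero_of_forall_exists f h
  exact ⟨u, fun M hM => hu ⟨M, hM⟩⟩

theorem MODP_frame (A : Finset PL) (o : PL) (hA : ∃ M ∈ A, On M o) :
    ∃ u v : Fin 3 → ℂ, (∀ M ∈ A, dotProduct M.rep u ≠ 0) ∧ MODP_Ind o.rep u v ∧
      MODP_Sep o.rep u v := by
  obtain ⟨u, hu⟩ := MODP_dual A
  obtain ⟨M, hM, hMo⟩ := hA
  have hMu := hu M hM
  have hli : LinearIndependent ℂ ![o.rep, u] := by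
    rw [LinearIndependent.pair_iff]
    intro s t hst
    have h1 : dotProduct M.rep (s • o.rep + t • u) = 0 := by rw [hst]; exact dotProduct_zero _
    have h2 : t * dotProduct M.rep u = 0 := by
      rw [dotProduct_add, dotProduct_smul, dotProduct_smul] at h1
      unfold On at hMo
      rw [hMo] at h1
      simpa using h1
    have ht : t = 0 := by
      rcases mul_eq_zero.mp h2 with h | h
      · exact h
      · exact absurd h hMu
    subst ht
    have h3 : s • o.rep = 0 := by simpa using hst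
    rcases smul_eq_zero.mp h3 with h | h
    · exact ⟨h, rfl⟩
    · exact absurd h o.rep_nonzero
  have hcr : crossProduct o.rep u ≠ 0 := crossProduct_ne_zero_iff_linearIndependent.mpr hli
  obtain ⟨i, hi⟩ := Function.ne_iff.mp hcr
  have hdet : Matrix.det (Matrix.of ![Pi.single i 1, o.rep, u]) ≠ 0 := by
    have h := triple_product_eq_det (Pi.single i (1 : ℂ)) o.rep u
    have h2 : dotProduct (Pi.single i (1 : ℂ)) (crossProduct o.rep u) = crossProduct o.rep u i := by
      simp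
    rw [h2] at h
    change Matrix.det ![Pi.single i 1, o.rep, u] ≠ 0
    rw [← h]
    simpa using hi
  refine ⟨u, Pi.single i 1, hu, ?_, ?_⟩
  · intro x y z h
    have h1 : Matrix.vecMul ![z, x, y] (Matrix.of ![Pi.single i 1, o.rep, u]) = 0 := by
      funext j
      have hj := congrFun h j
      simp only [Pi.add_apply, Pi.smul_apply, smul_eq_mul, Pi.zero_apply] at hj
      simp only [Matrix.vecMul, dotProduct, Fin.sum_univ_three, Pi.zero_apply]
      simp
      linear_combination hj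
    have h2 := Matrix.eq_zero_of_vecMul_eq_zero hdet h1
    have e0 := congrFun h2 0
    have e1 := congrFun h2 1
    have e2 := congrFun h2 2
    simp at e0 e1 e2
    exact ⟨e1, e2, e0⟩
  · intro m h1 h2 h3
    have h4 : Matrix.mulVec (Matrix.of ![Pi.single i 1, o.rep, u]) m = 0 := by
      funext j
      fin_cases j
      · change dotProduct (Pi.single i 1) m = 0
        rw [dotProduct_comm]; exact h3
      · change dotProduct o.rep m = 0
        rw [dotProduct_comm]; exact h1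
      · change dotProduct u m = 0
        rw [dotProduct_comm]; exact h2
    exact Matrix.eq_zero_of_mulVec_eq_zero hdet h4

theorem MODP_w_ne {e u v : Fin 3 → ℂ} (h : MODP_Ind e u v) (x y : ℂ) : MODP_w e u v x y ≠ 0 :=
  fun h0 => one_ne_zero (h _ _ _ h0).2.2

/-- The point `x e - y u + v`. -/
noncomputable def MODP_pt {e u v : Fin 3 → ℂ} (h : MODP_Ind e u v) (x y : ℂ) : PL :=
  Projectivization.mk ℂ (MODP_w e u v x y) (MODP_w_ne h x y)

theorem MODP_pt_inj {e u v : Fin 3 → ℂ} (h : MODP_Ind e u v) {x y x' y' : ℂ}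
    (he : MODP_pt h x y = MODP_pt h x' y') : x = x' ∧ y = y' := by
  unfold MODP_pt at he
  rw [Projectivization.mk_eq_mk_iff'] at he
  obtain ⟨a, ha⟩ := he
  have h2 : (a * x' - x) • e + (-(a * y') + y) • u + (a - 1) • v = 0 := by
    have h3 : a • MODP_w e u v x' y' - MODP_w e u v x y = 0 := sub_eq_zero.mpr ha
    rw [← h3]
    unfold MODP_w
    module
  obtain ⟨h3, h4, h5⟩ := h _ _ _ h2
  have ha1 : a = 1 := sub_eq_zero.mp h5
  subst ha1
  constructor
  · linear_combination -h3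
  · linear_combination h4

theorem MODP_pt_ne {o : PL} {u v : Fin 3 → ℂ} (h : MODP_Ind o.rep u v) (x y : ℂ) :
    MODP_pt h x y ≠ o := by
  intro he
  have h1 : Projectivization.mk ℂ o.rep o.rep_nonzero = MODP_pt h x y := by
    rw [he, Projectivization.mk_rep]
  unfold MODP_pt at h1
  rw [Projectivization.mk_eq_mk_iff'] at h1
  obtain ⟨a, ha⟩ := h1
  have h2 : (a * x - 1) • o.rep + (-(a * y)) • u + a • v = 0 := by
    have h3 : a • MODP_w o.rep u v x y - o.rep = 0 := sub_eq_zero.mpr ha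
    rw [← h3]
    unfold MODP_w
    module
  obtain ⟨h3, h4, h5⟩ := h _ _ _ h2
  subst h5
  simp at h3

theorem MODP_On_pt {e u v : Fin 3 → ℂ} (h : MODP_Ind e u v) (x y : ℂ) (ℓ : PL) :
    On ℓ (MODP_pt h x y) ↔
      x * dotProduct ℓ.rep e - y * dotProduct ℓ.rep u + dotProduct ℓ.rep v = 0 := by
  unfold MODP_pt
  rw [On_mk_right]
  unfold MODP_w
  rw [dotProduct_add, dotProduct_add, dotProduct_smul, dotProduct_smul, dotProduct_smul]
  simp only [smul_eq_mul, one_mul, neg_mul]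
  rw [← sub_eq_add_neg]

theorem MODP_line_eq {e u v : Fin 3 → ℂ} (hS : MODP_Sep e u v) {ℓ ℓ' : PL} {c c' : ℂ}
    (hc : c ≠ 0) (hc' : c' ≠ 0)
    (h0 : dotProduct ℓ.rep e / c = dotProduct ℓ'.rep e / c')
    (h1 : dotProduct ℓ.rep u / c = dotProduct ℓ'.rep u / c')
    (h2 : dotProduct ℓ.rep v / c = dotProduct ℓ'.rep v / c') : ℓ = ℓ' := by
  have key : ∀ w : Fin 3 → ℂ, dotProduct ℓ.rep w / c = dotProduct ℓ'.rep w / c' →
      dotProduct (c' • ℓ.rep - c • ℓ'.rep) w = 0 := by
    intro w hw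
    rw [sub_dotProduct, smul_dotProduct, smul_dotProduct, smul_eq_mul, smul_eq_mul]
    rw [div_eq_div_iff hc hc'] at hw
    linear_combination hw
  have h3 := hS _ (key e h0) (key u h1) (key v h2)
  rw [← Projectivization.mk_rep ℓ, ← Projectivization.mk_rep ℓ', Projectivization.mk_eq_mk_iff']
  refine ⟨c'⁻¹ * c, ?_⟩
  have h4 : c' • ℓ.rep = c • ℓ'.rep := sub_eq_zero.mp h3
  rw [mul_smul, ← h4, smul_smul, inv_mul_cancel₀ hc', one_smul]

theorem p_MODP (hINT : Stmt_INT) (hLAM : Stmt_LAM) : Stmt_MODP := by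
  classical
  intro A Z o n b hZ hmo hcard hmod hb
  have hmult : ∀ q : PL, mult A q = (A.filter fun ℓ => On ℓ q).card := by
    intro q
    unfold mult
    congr!
  have hn2 : 2 ≤ n := by rw [← hmo]; exact hmod.1
  have hbn : n ≤ b := by rw [← hmo]; exact hb o
  obtain ⟨M0, hM0⟩ : (A.filter fun ℓ => On ℓ o).Nonempty := by
    rw [← Finset.card_pos, ← hmult]; omega
  rw [Finset.mem_filter] at hM0
  obtain ⟨u, v, hu, hI, hS⟩ := MODP_frame A o ⟨M0, hM0⟩
  set P0 := A.filter fun ℓ => On ℓ o with hP0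
  set N := A.filter fun ℓ => ¬ On ℓ o with hN
  have hP0c : P0.card = n := by rw [hP0, ← hmult, hmo]
  have hNc : N.card = b := by
    have h := Finset.card_filter_add_card_filter_not (s := A) (fun ℓ => On ℓ o)
    rw [← hP0, ← hN] at h
    omega
  let pa : PL → ℂ × ℂ := fun ℓ => (dotProduct ℓ.rep u / dotProduct ℓ.rep o.rep,
    dotProduct ℓ.rep v / dotProduct ℓ.rep o.rep)
  let yM : PL → ℂ := fun M => dotProduct M.rep v / dotProduct M.rep u
  have hNo : ∀ ℓ ∈ N, dotProduct ℓ.rep o.rep ≠ 0 := by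
    intro ℓ hℓ
    rw [hN, Finset.mem_filter] at hℓ
    exact hℓ.2
  have hNA : ∀ ℓ ∈ N, ℓ ∈ A := fun ℓ hℓ => (Finset.mem_filter.mp hℓ).1
  have hPA : ∀ ℓ ∈ P0, ℓ ∈ A := fun ℓ hℓ => (Finset.mem_filter.mp hℓ).1
  have hPo : ∀ ℓ ∈ P0, dotProduct ℓ.rep o.rep = 0 := fun ℓ hℓ => (Finset.mem_filter.mp hℓ).2
  have hpa : Set.InjOn pa N := by
    intro ℓ hℓ ℓ' hℓ' he
    have e1 := congrArg Prod.fst he
    have e2 := congrArg Prod.snd he
    have c1 := hNo ℓ hℓ
    have c2 := hNo ℓ' hℓ'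
    exact MODP_line_eq hS c1 c2 (by rw [div_self c1, div_self c2]) e1 e2
  have hyM : Set.InjOn yM P0 := by
    intro M hM M' hM' he
    have c1 := hu M (hPA M hM)
    have c2 := hu M' (hPA M' hM')
    refine MODP_line_eq hS c1 c2 ?_ (by rw [div_self c1, div_self c2]) he
    rw [hPo M hM, hPo M' hM', zero_div, zero_div]
  set P := N.image pa with hPdef
  set D := P0.image yM with hDdef
  have hPc : P.card = b := by rw [hPdef, Finset.card_image_of_injOn hpa, hNc]
  have hDc : D.card = n := by rw [hDdef, Finset.card_image_of_injOn hyM, hP0c]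
  -- incidences of the points `pt`
  have honM : ∀ M ∈ P0, ∀ x : ℂ, On M (MODP_pt hI x (yM M)) := by
    intro M hM x
    rw [ MODP_On_pt, hPo M hM]
    have c1 := hu M (hPA M hM)
    change x * 0 - dotProduct M.rep v / dotProduct M.rep u * dotProduct M.rep u +
      dotProduct M.rep v = 0
    rw [div_mul_cancel₀ _ c1]
    ring
  have honN : ∀ ℓ ∈ N, ∀ y : ℂ, On ℓ (MODP_pt hI (-((pa ℓ).2 - (pa ℓ).1 * y)) y) := by
    intro ℓ hℓ y
    rw [ MODP_On_pt]
    have c1 := hNo ℓ hℓ
    change -(dotProduct ℓ.rep v / dotProduct ℓ.rep o.rep -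
      dotProduct ℓ.rep u / dotProduct ℓ.rep o.rep * y) * dotProduct ℓ.rep o.rep -
      y * dotProduct ℓ.rep u + dotProduct ℓ.rep v = 0
    field_simp
    ring
  have hne : ∀ M ∈ P0, ∀ ℓ ∈ N, M ≠ ℓ := by
    rintro M hM ℓ hℓ rfl
    exact hNo M hℓ (hPo M hM)
  have hcard2 : ∀ (q x y : PL), x ∈ A → y ∈ A → x ≠ y → On x q → On y q → 2 ≤ mult A q := by
    intro q x y hx hy hxy h1 h2
    rw [hmult]
    have h3 : ({x, y} : Finset PL) ⊆ A.filter fun ℓ => On ℓ q := by
      intro z hz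
      rw [Finset.mem_insert, Finset.mem_singleton] at hz
      rw [Finset.mem_filter]
      rcases hz with rfl | rfl
      · exact ⟨hx, h1⟩
      · exact ⟨hy, h2⟩
    calc 2 = ({x, y} : Finset PL).card := (Finset.card_pair hxy).symm
      _ ≤ _ := Finset.card_le_card h3
  -- the intersection point of two lines is the point `pt`
  have hpt : ∀ M ∈ P0, ∀ ℓ ∈ N, ∀ q, On M q → On ℓ q →
      q = MODP_pt hI (-((pa ℓ).2 - (pa ℓ).1 * yM M)) (yM M) := by
    intro M hM ℓ hℓ q h1 h2
    obtain ⟨p, _, _, hp⟩ := hINT M ℓ (hne M hM ℓ hℓ)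
    rw [hp q h1 h2]
    exact (hp _ (honM M hM _) (honN ℓ hℓ _)).symm
  have hDir : Dir P D := by
    intro p hp p' hp' hpp
    rw [hPdef, Finset.mem_image] at hp hp'
    obtain ⟨ℓ, hℓ, rfl⟩ := hp
    obtain ⟨ℓ', hℓ', rfl⟩ := hp'
    have hll : ℓ ≠ ℓ' := fun h => hpp (by rw [h])
    obtain ⟨q, hq1, hq2, _⟩ := hINT ℓ ℓ' hll
    obtain ⟨M, hMA, hMo, hMq⟩ := hmod.2 q (hcard2 q ℓ ℓ' (hNA ℓ hℓ) (hNA ℓ' hℓ') hll hq1 hq2)
    have hM : M ∈ P0 := by rw [hP0, Finset.mem_filter]; exact ⟨hMA, hMo⟩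
    have e1 := hpt M hM ℓ hℓ q hMq hq1
    have e2 := hpt M hM ℓ' hℓ' q hMq hq2
    have e3 := (MODP_pt_inj hI (e1.symm.trans e2)).1
    have e4 : ((pa ℓ).1 - (pa ℓ').1) * yM M = (pa ℓ).2 - (pa ℓ').2 := by
      linear_combination e3
    have ha : (pa ℓ).1 ≠ (pa ℓ').1 := by
      intro ha
      rw [ha, sub_self, zero_mul] at e4
      exact hpp (Prod.ext ha (sub_eq_zero.mp e4.symm))
    refine ⟨ha, ?_⟩
    have e5 : ((pa ℓ).2 - (pa ℓ').2) / ((pa ℓ).1 - (pa ℓ').1) = yM M := by
      rw [← e4, mul_div_cancel_left₀ _ (sub_ne_zero.mpr ha)]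
    rw [e5, hDdef]
    exact Finset.mem_image_of_mem _ hM
  -- the number of lines in the direction of `M`
  have hlam : ∀ y ∈ D, b + 1 ≤ n + lam P y := by
    intro y hy
    have h2 : 2 ≤ lam P y := by
      by_contra hlt
      have hle : (P.image fun w : ℂ × ℂ => w.2 - w.1 * y).card ≤ 1 := by
        have h3 : lam P y = (P.image fun w : ℂ × ℂ => w.2 - w.1 * y).card := by
          unfold lam
          congr!
        omega
      rw [hDdef, Finset.mem_image] at hy
      obtain ⟨M, hM, rfl⟩ := hy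
      obtain ⟨ℓ0, hℓ0⟩ : N.Nonempty := by rw [← Finset.card_pos, hNc]; omega
      have hall : ∀ ℓ ∈ N, (pa ℓ).2 - (pa ℓ).1 * yM M = (pa ℓ0).2 - (pa ℓ0).1 * yM M := by
        intro ℓ hℓ
        rw [Finset.card_le_one] at hle
        exact hle _ (Finset.mem_image_of_mem _ (Finset.mem_image_of_mem pa hℓ)) _
          (Finset.mem_image_of_mem _ (Finset.mem_image_of_mem pa hℓ0))
      have h4 := hb (MODP_pt hI (-((pa ℓ0).2 - (pa ℓ0).1 * yM M)) (yM M))
      rw [hmult] at h4
      have h5 : insert M N ⊆ A.filter fun ℓ => On ℓ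
          (MODP_pt hI (-((pa ℓ0).2 - (pa ℓ0).1 * yM M)) (yM M)) := by
        intro z hz
        rw [Finset.mem_filter]
        rcases Finset.mem_insert.mp hz with rfl | hz
        · exact ⟨hPA _ hM, honM _ hM _⟩
        · refine ⟨hNA z hz, ?_⟩
          rw [← hall z hz]
          exact honN z hz _
      have h6 := Finset.card_le_card h5
      rw [Finset.card_insert_of_notMem (fun h => hne M hM M h rfl), hNc] at h6
      omega
    have h7 := hLAM P D hDir y hy h2
    rw [hPc, hDc] at h7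
    exact h7
  -- counting
  let T : ℂ → Finset PL := fun y =>
    (P.image fun w : ℂ × ℂ => w.2 - w.1 * y).image fun x => MODP_pt hI (-x) y
  have hTc : ∀ y, (T y).card = lam P y := by
    intro y
    have h1 : (T y).card = (P.image fun w : ℂ × ℂ => w.2 - w.1 * y).card := by
      apply Finset.card_image_of_injective
      intro x x' h
      exact neg_injective (MODP_pt_inj hI h).1
    rw [h1]
    unfold lam
    congr!
  have hdisj : (D : Set ℂ).PairwiseDisjoint T := by
    intro y _ y' _ hyy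
    rw [Function.onFun, Finset.disjoint_left]
    intro q h1 h2
    obtain ⟨x, _, hx⟩ := Finset.mem_image.mp h1
    obtain ⟨x', _, hx'⟩ := Finset.mem_image.mp h2
    exact hyy (MODP_pt_inj hI (hx.trans hx'.symm)).2
  have hScard : (D.biUnion T).card = ∑ y ∈ D, lam P y := by
    rw [Finset.card_biUnion hdisj]
    exact Finset.sum_congr rfl fun y _ => hTc y
  have hoS : o ∉ D.biUnion T := by
    intro h
    obtain ⟨y, _, h⟩ := Finset.mem_biUnion.mp h
    obtain ⟨x, _, h⟩ := Finset.mem_image.mp h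
    exact MODP_pt_ne hI _ _ h
  have hsub : insert o (D.biUnion T) ⊆ Z := by
    intro q hq
    rw [hZ]
    rcases Finset.mem_insert.mp hq with rfl | hq
    · exact hmod.1
    · obtain ⟨y, hy, hq⟩ := Finset.mem_biUnion.mp hq
      obtain ⟨x, hx, rfl⟩ := Finset.mem_image.mp hq
      obtain ⟨w, hw, rfl⟩ := Finset.mem_image.mp hx
      rw [hPdef, Finset.mem_image] at hw
      obtain ⟨ℓ, hℓ, rfl⟩ := hw
      rw [hDdef, Finset.mem_image] at hy
      obtain ⟨M, hM, rfl⟩ := hy
      exact hcard2 _ M ℓ (hPA M hM) (hNA ℓ hℓ) (hne M hM ℓ hℓ) (honM M hM _) (honN ℓ hℓ _)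
  have h8 := Finset.card_le_card hsub
  rw [Finset.card_insert_of_notMem hoS, hScard] at h8
  have h9 : ∑ y ∈ D, (b + 1) ≤ ∑ y ∈ D, (n + lam P y) := Finset.sum_le_sum hlam
  have h10 : ∑ y ∈ D, (n + lam P y) = n * n + ∑ y ∈ D, lam P y := by
    rw [Finset.sum_add_distrib, Finset.sum_const, hDc, smul_eq_mul]
  rw [h10, Finset.sum_const, hDc, smul_eq_mul] at h9
  omega

end Pool.CSL
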