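import Mathlib

/-! # Chern slopes of complex line arrangements: definitions (MP_a0c695, note 2897, helper1) -/

set_option autoImplicit false

namespace Pool.CSL

open Finset

/-- The points (and the lines) of the complex projective plane. -/
abbrev PL := Projectivization ℂ (Fin 3 → ℂ)

/-- The line `ℓ` passes through the point `p`. -/
def On (ℓ p : PL) : Prop := dotProduct ℓ.rep p.rep = 0

open Classical in
/-- The number of lines of `A` through `p`. -/
noncomputable def mult (A : Finset PL) (p : PL) : ℕ := (A.filter fun ℓ => On ℓ p).card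

/-- At least three lines, and no point on all or on all but one of the lines. -/
def Adm (A : Finset PL) : Prop := 3 ≤ A.card ∧ ∀ p, mult A p + 2 ≤ A.card

/-- The first Chern number. -/
noncomputable def c1 (A : Finset PL) : ℝ :=
  9 - 5 * (A.card : ℝ) + ∑ᶠ p : PL, if 2 ≤ mult A p then 3 * (mult A p : ℝ) - 4 else 0

/-- The second Chern number. -/
noncomputable def c2 (A : Finset PL) : ℝ :=
  3 - 2 * (A.card : ℝ) + ∑ᶠ p : PL, if 2 ≤ mult A p then (mult A p : ℝ) - 1 else 0

/-- The Chern slope. -/
noncomputable def slope (A : Finset PL) : ℝ := c1 A / c2 A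

/-- At most `√(K d)` points lie on four or more lines. -/
def Few (K : ℕ) (A : Finset PL) : Prop := ({p | 4 ≤ mult A p} : Set PL).ncard ^ 2 ≤ K * A.card

/-- Some point lies on at least half of the lines. -/
def Half (A : Finset PL) : Prop := ∃ p, A.card ≤ 2 * mult A p

/-- `o` is a modular point: it lies on two lines, and it is joined by a line of the arrangement to
every other intersection point. -/
def ModPt (A : Finset PL) (o : PL) : Prop :=
  2 ≤ mult A o ∧ ∀ q, 2 ≤ mult A q → ∃ ℓ ∈ A, On ℓ o ∧ On ℓ q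

/-! ### `On` and representatives -/

theorem On_iff (ℓ p : PL) : On ℓ p ↔ Projectivization.orthogonal ℓ p := by
  unfold On
  conv_rhs => rw [← Projectivization.mk_rep ℓ, ← Projectivization.mk_rep p]
  exact (Projectivization.orthogonal_mk ℓ.rep_nonzero p.rep_nonzero).symm

theorem On_mk {v w : Fin 3 → ℂ} (hv : v ≠ 0) (hw : w ≠ 0) :
    On (Projectivization.mk ℂ v hv) (Projectivization.mk ℂ w hw) ↔ dotProduct v w = 0 := by
  rw [On_iff, Projectivization.orthogonal_mk]

theorem On_mk_left {v : Fin 3 → ℂ} (hv : v ≠ 0) (p : PL) :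
    On (Projectivization.mk ℂ v hv) p ↔ dotProduct v p.rep = 0 := by
  conv_lhs => rw [← Projectivization.mk_rep p]
  exact On_mk hv p.rep_nonzero

theorem On_mk_right {w : Fin 3 → ℂ} (hw : w ≠ 0) (ℓ : PL) :
    On ℓ (Projectivization.mk ℂ w hw) ↔ dotProduct ℓ.rep w = 0 := by
  conv_lhs => rw [← Projectivization.mk_rep ℓ]
  exact On_mk ℓ.rep_nonzero hw

/-! ### Finite sets of nonzero complex numbers -/

open Classical in
/-- The number of ordered triples of distinct elements of `T` with product one. -/
noncomputable def tau (T : Finset ℂ) : ℕ :=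
  ((T ×ˢ T).filter fun x => x.1 ≠ x.2 ∧ (x.1 * x.2)⁻¹ ∈ T ∧ (x.1 * x.2)⁻¹ ≠ x.1 ∧
    (x.1 * x.2)⁻¹ ≠ x.2).card

/-- The `N`-th roots of unity. -/
noncomputable def mu (N : ℕ) : Finset ℂ := Polynomial.nthRootsFinset N (1 : ℂ)

/-- Two distinct points of `P` have distinct first coordinates and a slope in `D`. -/
def Dir (P : Finset (ℂ × ℂ)) (D : Finset ℂ) : Prop :=
  ∀ u ∈ P, ∀ v ∈ P, u ≠ v → u.1 ≠ v.1 ∧ (u.2 - v.2) / (u.1 - v.1) ∈ D

open Classical in
/-- The number of lines of slope `y` which meet `P`. -/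
noncomputable def lam (P : Finset (ℂ × ℂ)) (y : ℂ) : ℕ := (P.image fun u => u.2 - u.1 * y).card

end Pool.CSL
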