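import Pool.Agent.Work.MP_a0c695_csl.Defs

/-! # Chern slopes of complex line arrangements: the blocks (MP_a0c695, note 2897, helper1)

Block `X` lives in `B_X.lean` (import this file, namespace `Pool.CSL`) and proves
`theorem p_X : Stmt_X` or `theorem p_X (h1 : Stmt_Y) ... : Stmt_X` with the statements of the
column `uses` as hypotheses, in that order. Helper lemmas are prefixed `X_`. -/

set_option autoImplicit false

namespace Pool.CSL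

open Finset Filter Topology

/-! ## Part 1: incidences -/

/-- INT: two distinct lines meet in exactly one point. -/
def Stmt_INT : Prop :=
  ∀ ℓ ℓ' : PL, ℓ ≠ ℓ' → ∃ p, On ℓ p ∧ On ℓ' p ∧ ∀ q, On ℓ q → On ℓ' q → q = p

open Classical in
/-- FS: the finite set of the intersection points, the sums over it, and the double counting of
ordered pairs of distinct lines. -/
def Stmt_FS : Prop :=
  ∀ A : Finset PL, ∃ Z : Finset PL, (∀ p, p ∈ Z ↔ 2 ≤ mult A p) ∧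
    (∀ g : ℕ → ℝ, (∑ᶠ p : PL, if 2 ≤ mult A p then g (mult A p) else 0) = ∑ p ∈ Z, g (mult A p)) ∧
    (∀ R : Finset (PL × PL), (∀ x ∈ R, x.1 ∈ A ∧ x.2 ∈ A ∧ x.1 ≠ x.2) →
      ∑ p ∈ Z, (R.filter fun x => On x.1 p ∧ On x.2 p).card = R.card) ∧
    ∑ p ∈ Z, mult A p * (mult A p - 1) = A.card * (A.card - 1)

/-- PEN: the pencil of the lines through `o`. -/
def Stmt_PEN : Prop :=
  ∀ (A Z : Finset PL) (o : PL) (n b : ℕ), (∀ p, p ∈ Z ↔ 2 ≤ mult A p) → mult A o = n →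
    A.card = n + b → 2 ≤ n →
    (n : ℝ) - 1 + n * b ≤ ∑ p ∈ Z, ((mult A p : ℝ) - 1) ∧
    ∑ p ∈ Z, ((mult A p : ℝ) - 3) ≤ n - 3 - n * b + b * (b - 1) ∧
    ∑ p ∈ Z, ((mult A p : ℝ) - 3) ≤ n - 3 - n * b / 3 + b * (b - 1) / 3

/-- CC: the Chern numbers and the pencil through `o`. -/
def Stmt_CC : Prop :=
  ∀ (A : Finset PL) (o : PL) (n b : ℕ), mult A o = n → A.card = n + b → 2 ≤ n →
    ((n : ℝ) - 2) * (b - 1) ≤ c2 A ∧
    2 * c1 A - 5 * c2 A ≤ n + b * (b - 1 - n) ∧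
    2 * c1 A - 5 * c2 A ≤ n + b * (b - 1 - n) / 3 ∧
    1 - (b : ℝ) ≤ c1 A - 2 * c2 A

/-- BIG: the second Chern number grows faster than the number of lines. -/
def Stmt_BIG : Prop :=
  ∀ C : ℝ, ∃ D : ℕ, ∀ A : Finset PL, Adm A → D ≤ A.card → ¬ Half A → C * A.card ≤ c2 A

/-- FEWB: few points on four or more lines. -/
def Stmt_FEWB : Prop :=
  ∀ (K : ℕ) (A : Finset PL), Few K A → 2 * c1 A - 5 * c2 A ≤ 3 + (K + 1) * (A.card : ℝ)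

/-- HALF: a point on at least half of the lines. -/
def Stmt_HALF : Prop := ∀ A : Finset PL, Adm A → Half A → slope A ≤ 5 / 2

/-- UP: the upper bound for the class of part (1). -/
def Stmt_UP : Prop :=
  ∀ (K : ℕ) (ε : ℝ), 0 < ε → ∃ D : ℕ, ∀ A : Finset PL, Adm A → D ≤ A.card → (Few K A ∨ Half A) →
    slope A ≤ 5 / 2 + ε

/-- LO: the lower bound. -/
def Stmt_LO : Prop :=
  ∀ ε : ℝ, 0 < ε → ∃ D : ℕ, ∀ A : Finset PL, Adm A → D ≤ A.card → 2 - ε ≤ slope A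

/-- HEAVY: a point on at least `α d` lines. -/
def Stmt_HEAVY : Prop :=
  ∀ α : ℝ, 1 / 3 ≤ α → α ≤ 1 / 2 → ∀ ε : ℝ, 0 < ε → ∃ D : ℕ, ∀ A : Finset PL, Adm A →
    D ≤ A.card → (∃ p, α * A.card ≤ mult A p) → slope A ≤ 13 / 6 + 1 / (6 * α) + ε

/-- FIN: finitely many slopes for bounded `d`. -/
def Stmt_FIN : Prop := ∀ D : ℕ, {r : ℝ | ∃ A : Finset PL, A.card < D ∧ r = slope A}.Finite

/-- ACC: accumulation points. -/
def Stmt_ACC : Prop :=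
  ∀ (Cl : Finset PL → Prop) (x₀ : ℝ),
    ((∀ ε : ℝ, 0 < ε → ∃ D : ℕ, ∀ A, Cl A → D ≤ A.card → slope A ≤ x₀ + ε) →
      ∀ x : ℝ, AccPt x (𝓟 {r : ℝ | ∃ A, Cl A ∧ r = slope A}) → x ≤ x₀) ∧
    ((∀ ε : ℝ, 0 < ε → ∃ D : ℕ, ∀ A, Cl A → D ≤ A.card → x₀ - ε ≤ slope A) →
      ∀ x : ℝ, AccPt x (𝓟 {r : ℝ | ∃ A, Cl A ∧ r = slope A}) → x₀ ≤ x)

/-! ## Part 2: exact slopes -/

/-- TRI: the lines `t ^ 2 x + t y + (t ^ 3 - 1) z = 0`, `t ∈ T`. -/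
def Stmt_TRI : Prop :=
  ∀ T : Finset ℂ, (0 : ℂ) ∉ T → ∃ A : Finset PL, A.card = T.card ∧ (∀ p, mult A p ≤ 3) ∧
    6 * ({p | mult A p = 3} : Set PL).ncard = tau T

/-- CTT: the Chern numbers of an arrangement with only double and triple points. -/
def Stmt_CTT : Prop :=
  ∀ A : Finset PL, (∀ p, mult A p ≤ 3) →
    c1 A = ((A.card : ℝ) - 3) ^ 2 - ({p | mult A p = 3} : Set PL).ncard ∧
    c2 A = ((A.card : ℝ) - 2) * ((A.card : ℝ) - 3) / 2 - ({p | mult A p = 3} : Set PL).ncard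

/-- MU: the roots of unity. -/
def Stmt_MU : Prop :=
  ∀ N : ℕ, 1 ≤ N → ¬ 3 ∣ N → (mu N).card = N ∧ (∀ x, x ∈ mu N ↔ x ^ N = 1) ∧
    tau (mu N) = (N - 1) * (N - 2)

open Classical in
/-- INS: one more element. -/
def Stmt_INS : Prop :=
  ∀ (T : Finset ℂ) (x : ℂ), (0 : ℂ) ∉ T → x ≠ 0 → x ∉ T →
    tau (insert x T) = tau T + 3 * (T.filter fun s => (s * x)⁻¹ ∈ T ∧ (s * x)⁻¹ ≠ s).card

/-- TEX: the sets. -/
def Stmt_TEX : Prop :=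
  ∀ N s r J : ℕ, 1 ≤ N → ¬ 3 ∣ N → s ≤ N → r ≤ N → ∃ T : Finset ℂ, (0 : ℂ) ∉ T ∧
    T.card = N + 2 * s + 1 + r + J ∧ tau T = (N - 1) * (N - 2) + 6 * s ^ 2 + 6 * r

/-- NUM: the numbers. -/
def Stmt_NUM : Prop :=
  ∀ a q k : ℕ, 0 < q → q ≤ a → 2 * a < 3 * q → 32 * a + 8 ≤ k → 6 * (a + q) ≤ k →
    ∃ N s r J : ℕ, 1 ≤ N ∧ ¬ 3 ∣ N ∧ s ≤ N ∧ r ≤ N ∧ N + 2 * s + 1 + r + J = 2 * a * k + 3 ∧
      (N - 1) * (N - 2) + 6 * s ^ 2 + 6 * r = 6 * (2 * a * (a - q) * k ^ 2 + (a + q) * k)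

/-- RAT: every rational number in `[2, 5/2)` is a slope. -/
def Stmt_RAT : Prop :=
  ∀ x : ℚ, 2 ≤ x → x < 5 / 2 → ∀ N₀ : ℕ, ∃ A : Finset PL, N₀ ≤ A.card ∧ Adm A ∧
    (∀ p, mult A p ≤ 3) ∧ slope A = x

/-! ## Part 3: supersolvable arrangements -/

/-- GG: the polynomial of the free arrangement (Newton interpolation). -/
def Stmt_GG : Prop :=
  ∀ (P : Finset (ℂ × ℂ)) (D : Finset ℂ), Dir P D →
    ∃ g : Polynomial (Polynomial ℂ), g.natDegree ≤ D.card ∧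
      (∀ a c : ℂ, (g.eval (Polynomial.C c - Polynomial.C a * Polynomial.X)).natDegree ≤ D.card) ∧
      ∀ u ∈ P, g.eval (Polynomial.C u.2 - Polynomial.C u.1 * Polynomial.X) =
        - Polynomial.C u.1 * ∏ y ∈ D, (Polynomial.X - Polynomial.C y)

/-- LAM: the number of lines in a given direction. -/
def Stmt_LAM : Prop :=
  ∀ (P : Finset (ℂ × ℂ)) (D : Finset ℂ), Dir P D → ∀ y ∈ D, 2 ≤ lam P y →
    P.card + 1 ≤ D.card + lam P y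

/-- MODP: the number of intersection points of a supersolvable arrangement. -/
def Stmt_MODP : Prop :=
  ∀ (A Z : Finset PL) (o : PL) (n b : ℕ), (∀ p, p ∈ Z ↔ 2 ≤ mult A p) → mult A o = n →
    A.card = n + b → ModPt A o → (∀ q, mult A q ≤ b) →
    n * (b + 1) + 1 ≤ Z.card + n * n

/-- MODC: the Chern numbers of a supersolvable arrangement. -/
def Stmt_MODC : Prop :=
  ∀ (A Z : Finset PL) (o : PL) (n b : ℕ), (∀ p, p ∈ Z ↔ 2 ≤ mult A p) → mult A o = n →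
    A.card = n + b → ModPt A o →
    c2 A = ((n : ℝ) - 2) * (b - 1) ∧ c1 A = 3 * c2 A + n + b - Z.card ∧
    (n : ℝ) * b + n * b / 3 - b * (b - 1) / 3 ≤ 2 * ((Z.card : ℝ) - 1)

/-- SUP: the bound for supersolvable arrangements. -/
def Stmt_SUP : Prop :=
  ∀ ε : ℝ, 0 < ε → ∃ D : ℕ, ∀ A : Finset PL, Adm A → D ≤ A.card → (∃ o, ModPt A o) →
    slope A ≤ (13 + Real.sqrt 7) / 6 + ε

/-! ## The theorem -/

/-- MAIN. -/
def Stmt_MAIN : Prop :=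
  (∀ (K : ℕ) (x : ℝ),
    AccPt x (𝓟 {r : ℝ | ∃ A : Finset PL, (Adm A ∧ (Few K A ∨ Half A)) ∧ r = slope A}) ↔
      x ∈ Set.Icc (2 : ℝ) (5 / 2)) ∧
  (∀ A : Finset PL, Adm A → Half A → slope A ≤ 5 / 2) ∧
  (∀ α : ℝ, 1 / 3 ≤ α → α ≤ 1 / 2 → ∀ x : ℝ,
    AccPt x (𝓟 {r : ℝ | ∃ A : Finset PL, (Adm A ∧ ∃ p, α * A.card ≤ mult A p) ∧ r = slope A}) →
      x ≤ 13 / 6 + 1 / (6 * α)) ∧
  (∀ x : ℝ, AccPt x (𝓟 {r : ℝ | ∃ A : Finset PL, (Adm A ∧ ∃ o, ModPt A o) ∧ r = slope A}) →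
      x ≤ (13 + Real.sqrt 7) / 6) ∧
  (∀ x : ℚ, 2 ≤ x → x < 5 / 2 → ∀ N : ℕ, ∃ A : Finset PL, N ≤ A.card ∧ Adm A ∧
    (∀ p, mult A p ≤ 3) ∧ slope A = x)

end Pool.CSL
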